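import Pool.Agent.NH88.FM.Defs

/-!
# Final assembly: diagonalisation and the FO+MOD transduction
-/

namespace Pool.Agent.NH88.FM

namespace Asm

/-! ### Countability of the formulas -/

/-- A numerical code of a formula. -/
def code {m : ℕ} : {n : ℕ} → Fml m n → ℕ
  | _, .eq i j => Nat.pair 0 (Nat.pair i j)
  | _, .adj i j => Nat.pair 1 (Nat.pair i j)
  | _, .col c i => Nat.pair 2 (Nat.pair c i)
  | _, .neg φ => Nat.pair 3 (code φ)
  | _, .and φ ψ => Nat.pair 4 (Nat.pair (code φ) (code ψ))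
  | _, .ex φ => Nat.pair 5 (code φ)
  | _, .exmod a b _ φ => Nat.pair 6 (Nat.pair (Nat.pair a b) (code φ))

theorem code_inj {m : ℕ} : ∀ {n : ℕ} (φ ψ : Fml m n), code φ = code ψ → φ = ψ := by
  intro n φ
  induction φ with
  | eq i j =>
    intro ψ h
    cases ψ <;> simp [code, Nat.pair_eq_pair, Fin.ext_iff] at h ⊢
    exact h
  | adj i j =>
    intro ψ h
    cases ψ <;> simp [code, Nat.pair_eq_pair, Fin.ext_iff] at h ⊢
    exact h
  | col i j =>
    intro ψ h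
    cases ψ <;> simp [code, Nat.pair_eq_pair, Fin.ext_iff] at h ⊢
    exact h
  | neg φ ih =>
    intro ψ h
    cases ψ <;> simp [code, Nat.pair_eq_pair] at h ⊢
    exact ih _ h
  | and φ ψ ih1 ih2 =>
    intro ψ h
    cases ψ <;> simp [code, Nat.pair_eq_pair] at h ⊢
    exact ⟨ih1 _ h.1, ih2 _ h.2⟩
  | ex φ ih =>
    intro ψ h
    cases ψ <;> simp [code, Nat.pair_eq_pair] at h ⊢
    exact ih _ h
  | exmod a b hab φ ih =>
    intro ψ h
    cases ψ <;> simp [code, Nat.pair_eq_pair] at h ⊢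
    exact ⟨h.1.1, h.1.2, ih _ h.2⟩

instance fmlCountable (m n : ℕ) : Countable (Fml m n) :=
  Function.Injective.countable (f := fun φ : Fml m n => code φ) fun φ ψ h => code_inj φ ψ h

instance transCountable (m : ℕ) : Countable (Trans m) :=
  Function.Injective.countable (f := fun T : Trans m => (T.nu, T.eta)) fun S T h => by
    cases S; cases T
    simp only [Prod.mk.injEq] at h
    simp [h.1, h.2]

/-! ### Invariance under isomorphisms -/

theorem sat_iso {m : ℕ} {V W : Type} {G : SimpleGraph V} {H : SimpleGraph W} (e : G ≃g H)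
    (U : Fin m → Set W) {n : ℕ} (φ : Fml m n) : ∀ v : Fin n → V,
    Sat H U φ (e ∘ v) ↔ Sat G (fun c => e ⁻¹' U c) φ v := by
  induction φ with
  | eq i j => intro v; simp [Sat]
  | adj i j => intro v; exact e.map_adj_iff
  | col c i => intro v; simp [Sat]
  | neg φ ih => intro v; simp [Sat, ih]
  | and φ ψ ih1 ih2 => intro v; simp [Sat, ih1, ih2]
  | ex φ ih =>
    intro v
    simp only [Sat]
    constructor
    · rintro ⟨x, hx⟩
      refine ⟨e.symm x, ?_⟩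
      rw [← ih]
      rw [Fin.comp_snoc]
      simpa using hx
    · rintro ⟨x, hx⟩
      refine ⟨e x, ?_⟩
      rw [← ih] at hx
      rwa [Fin.comp_snoc] at hx
  | exmod a b hab φ ih =>
    intro v
    simp only [Sat]
    have h : Nat.card {x : W // Sat H U φ (Fin.snoc (α := fun _ : Fin (_ + 1) => W) (e ∘ v) x)} =
        Nat.card {x : V // Sat G (fun c => e ⁻¹' U c) φ
          (Fin.snoc (α := fun _ : Fin (_ + 1) => V) v x)} := by
      symm
      refine Nat.card_congr (Equiv.subtypeEquiv e.toEquiv fun x => ?_)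
      rw [← ih, Fin.comp_snoc]
      rfl
    rw [h]

theorem gives_iso {m : ℕ} (T : Trans m) {V V' W W' : Type} {G : SimpleGraph V}
    {G' : SimpleGraph V'} {D : SimpleGraph W} {D' : SimpleGraph W'} (e : G ≃g G') (f : D ≃g D')
    (h : T.Gives G D) : T.Gives G' D' := by
  obtain ⟨U, ⟨i⟩⟩ := h
  refine ⟨fun c => e.symm ⁻¹' U c, ⟨(f.symm.trans i).trans ?_⟩⟩
  have key : ∀ {n : ℕ} (φ : Fml m n) (v : Fin n → V),
      Sat G' (fun c => e.symm ⁻¹' U c) φ (e ∘ v) ↔ Sat G U φ v := by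
    intro n φ v
    rw [sat_iso e]
    have : (fun c => e ⁻¹' (e.symm ⁻¹' U c)) = U := by
      funext c
      ext x
      simp
    rw [this]
  have k1 : ∀ v : V, Sat G U T.nu ![v] ↔ Sat G' (fun c => e.symm ⁻¹' U c) T.nu ![e v] := by
    intro v
    rw [← key]
    have : (e ∘ ![v] : Fin 1 → V') = ![e v] := by
      funext j
      fin_cases j
      rfl
    rw [this]
  have k2 : ∀ v w : V, Sat G' (fun c => e.symm ⁻¹' U c) T.eta ![e v, e w] ↔
      Sat G U T.eta ![v, w] := by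
    intro v w
    rw [← key]
    have : (e ∘ ![v, w] : Fin 2 → V') = ![e v, e w] := by
      funext j
      fin_cases j <;> rfl
    rw [this]
  refine ⟨Equiv.subtypeEquiv e.toEquiv k1, ?_⟩
  rintro ⟨a, ha⟩ ⟨b, hb⟩
  show (_ ≠ _ ∧ Sat G' (fun c => e.symm ⁻¹' U c) T.eta ![e a, e b] ∧
    Sat G' (fun c => e.symm ⁻¹' U c) T.eta ![e b, e a]) ↔
    (_ ≠ _ ∧ Sat G U T.eta ![a, b] ∧ Sat G U T.eta ![b, a])
  rw [k2, k2]
  simp

/-! ### The FO+MOD transduction -/

/-- Disjunction. -/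
def or' {m n : ℕ} (φ ψ : Fml m n) : Fml m n := .neg (.and (.neg φ) (.neg ψ))

/-- The FO+MOD transduction giving parity graphs. -/
def parT : Trans 2 where
  nu := or' (.col 0 0) (.col 1 0)
  eta := .and (or' (.and (.col 0 0) (.col 1 1)) (.and (.col 1 0) (.col 0 1)))
    (.exmod 1 2 (by norm_num) (.and (.adj 0 2) (.adj 2 1)))

theorem fin3 (x : Fin 3) : x ≠ 1 ↔ x = 0 ∨ x = 2 := by
  revert x; decide

theorem parT_gives {V : Type} (G : SimpleGraph V) (p : V → Fin 3) :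
    parT.Gives G (parityGraph G p) := by
  refine ⟨![{v | p v = 0}, {v | p v = 2}], ⟨?_⟩⟩
  have k1 : ∀ v : V, p v ≠ 1 ↔ Sat G ![{v | p v = 0}, {v | p v = 2}] parT.nu ![v] := by
    intro v
    rw [fin3]
    simp only [parT, or', Sat]
    simp
    tauto
  have k2 : ∀ v w : V, Sat G ![{v | p v = 0}, {v | p v = 2}] parT.eta ![v, w] ↔
      ((p v = 0 ∧ p w = 2) ∨ (p v = 2 ∧ p w = 0)) ∧
        Nat.card {x : V // G.Adj v x ∧ G.Adj x w} % 2 = 1 := by
    intro v w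
    simp only [parT, or', Sat]
    refine and_congr ?_ ?_
    · simp
      tauto
    · have h0 : ∀ x : V, Fin.snoc (α := fun _ : Fin (2 + 1) => V) ![v, w] x 0 = v := fun x => rfl
      have h1 : ∀ x : V, Fin.snoc (α := fun _ : Fin (2 + 1) => V) ![v, w] x 1 = w := fun x => rfl
      have h2 : ∀ x : V, Fin.snoc (α := fun _ : Fin (2 + 1) => V) ![v, w] x 2 = x := fun x => rfl
      simp only [h0, h1, h2]
  refine ⟨Equiv.subtypeEquivRight k1, ?_⟩
  rintro ⟨a, ha⟩ ⟨b, hb⟩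
  show (_ ≠ _ ∧ Sat G ![{v | p v = 0}, {v | p v = 2}] parT.eta ![a, b] ∧
    Sat G ![{v | p v = 0}, {v | p v = 2}] parT.eta ![b, a]) ↔
    (parityGraph G p).Adj ⟨a, ha⟩ ⟨b, hb⟩
  rw [k2, k2]
  constructor
  · rintro ⟨-, h, -⟩
    exact h
  · intro h
    refine ⟨?_, h, h.symm⟩
    intro hab
    have : (⟨a, ha⟩ : {v : V // p v ≠ 1}) = ⟨b, hb⟩ := by
      simpa using hab
    exact h.ne this

/-! ### The diagonal construction -/

theorem Fat.mono {V : Type} {G : SimpleGraph V} {p : V → Fin 3} {g g' : ℕ} (h : Fat G p g')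
    (hg : g ≤ g') : Fat G p g where
  parts := h.parts
  uniq := h.uniq
  blk := fun u hu k h3 hk => h.blk u hu k h3 (hk.trans hg)
  pair := fun k h3 hk => h.pair k h3 (hk.trans hg)

/-- A finite graph with a partition in three parts. -/
structure Stg where
  V : Type
  fin : Finite V
  G : SimpleGraph V
  p : V → Fin 3

/-- The parity graph of a stage. -/
abbrev Stg.D (S : Stg) : SimpleGraph {v : S.V // S.p v ≠ 1} := parityGraph S.G S.p

theorem step (hA : ClaimA) (hB : ClaimB)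
    (hK : ∀ (V : Type) (G : SimpleGraph V) (p : V → Fin 3), Fat G p 4 →
      K22Free (parityGraph G p))
    (T : Σ m, {T : Trans m // T.IsFO}) (g N : ℕ) :
    ∃ r : Stg × ℕ, Fat r.1.G r.1.p (max g 4) ∧ N < Nat.card {v : r.1.V // r.1.p v ≠ 1} ∧
      ¬ T.2.1.Gives r.1.G r.1.D ∧
      ∀ (V : Type) (G : SimpleGraph V) (p : V → Fin 3), Fat G p r.2 → ¬ T.2.1.Gives G r.1.D := by
  obtain ⟨c, hc⟩ := hB T.1 T.2.1 T.2.2
  obtain ⟨V, hV, G, p, hF, hN, hE, hG⟩ := hA T.1 T.2.1 T.2.2 c (max g 4) N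
  obtain ⟨g', hg'⟩ := hc {v : V // p v ≠ 1} inferInstance (parityGraph G p)
    (hK V G p (Fat.mono hF (le_max_right _ _))) hE
  exact ⟨(⟨V, hV, G, p⟩, g'), hF, hN, hG, hg'⟩

theorem exists_fin {V : Type} [Finite V] (G : SimpleGraph V) :
    ∃ G' : FinGraph, G'.1 = Nat.card V ∧ Nonempty (G'.2 ≃g G) := by
  let e := Finite.equivFin V
  exact ⟨⟨Nat.card V, G.map e.toEmbedding⟩, rfl, ⟨(SimpleGraph.Iso.map e G).symm⟩⟩

theorem exists_seq (hA : ClaimA) (hB : ClaimB)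
    (hK : ∀ (V : Type) (G : SimpleGraph V) (p : V → Fin 3), Fat G p 4 →
      K22Free (parityGraph G p)) :
    ∃ S : ℕ → Stg, (∀ n, n < Nat.card {v : (S n).V // (S n).p v ≠ 1}) ∧
      ∀ (m : ℕ) (T : Trans m), T.IsFO → ∃ n, ∀ j, ¬ T.Gives (S j).G (S n).D := by
  have : Nonempty (Σ m, {T : Trans m // T.IsFO}) :=
    ⟨⟨0, ⟨⟨.eq 0 0, .eq 0 0⟩, trivial, trivial⟩⟩⟩
  obtain ⟨T, hT⟩ := exists_surjective_nat (Σ m, {T : Trans m // T.IsFO})
  choose F hF1 hF2 hF3 hF4 using fun n g N => step hA hB hK (T n) g N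
  let st : ℕ → ℕ × ℕ := fun n => Nat.rec (0, 0) (fun n s =>
    (max s.1 (F n s.1 s.2).2, max s.2 (Nat.card (F n s.1 s.2).1.V) + 1)) n
  have st_succ : ∀ n, st (n + 1) = (max (st n).1 (F n (st n).1 (st n).2).2,
    max (st n).2 (Nat.card (F n (st n).1 (st n).2).1.V) + 1) := fun n => rfl
  let S : ℕ → Stg := fun n => (F n (st n).1 (st n).2).1
  have mono1 : Monotone fun n => (st n).1 := by
    refine monotone_nat_of_le_succ fun n => ?_
    show (st n).1 ≤ (st (n + 1)).1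
    rw [st_succ]
    exact le_max_left _ _
  have mono2 : StrictMono fun n => (st n).2 := by
    refine strictMono_nat_of_lt_succ fun n => ?_
    show (st n).2 < (st (n + 1)).2
    rw [st_succ]
    exact Nat.lt_succ_of_le (le_max_left _ _)
  refine ⟨S, fun n => (mono2.id_le n).trans_lt (hF2 n (st n).1 (st n).2), ?_⟩
  intro m T' hT'
  obtain ⟨n, hn⟩ := hT ⟨m, T', hT'⟩
  refine ⟨n, fun j => ?_⟩
  rcases lt_trichotomy j n with hj | hj | hj
  · -- too few vertices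
    rintro ⟨U, ⟨i⟩⟩
    have hfin := (S j).fin
    have h1 : Nat.card {v : (S n).V // (S n).p v ≠ 1} ≤ Nat.card (S j).V := by
      rw [Nat.card_congr i.toEquiv]
      exact Nat.card_le_card_of_injective _ Subtype.val_injective
    have h2 : Nat.card (S j).V < (st (j + 1)).2 := by
      rw [st_succ]
      exact Nat.lt_succ_of_le (le_max_right _ _)
    have h3 : (st (j + 1)).2 ≤ (st n).2 := mono2.monotone hj
    have h4 : (st n).2 < Nat.card {v : (S n).V // (S n).p v ≠ 1} := hF2 n (st n).1 (st n).2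
    omega
  · subst hj
    have := hF3 j (st j).1 (st j).2
    rw [hn] at this
    exact this
  · have h1 : (F n (st n).1 (st n).2).2 ≤ (st j).1 := by
      refine le_trans ?_ (mono1 hj)
      show _ ≤ (st (n + 1)).1
      rw [st_succ]
      exact le_max_right _ _
    have h2 : Fat (S j).G (S j).p (F n (st n).1 (st n).2).2 :=
      Fat.mono (hF1 j (st j).1 (st j).2) (h1.trans (le_max_left _ _))
    have := hF4 n (st n).1 (st n).2 _ _ _ h2
    rw [hn] at this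
    exact this

theorem infinite_of (𝒞 : Set FinGraph) (h : ∀ n, ∃ G ∈ 𝒞, n < G.1) : 𝒞.Infinite := by
  refine Set.Infinite.of_image Sigma.fst ?_
  refine Set.infinite_of_forall_exists_gt fun n => ?_
  obtain ⟨G, hG, hn⟩ := h n
  exact ⟨G.1, ⟨G, hG, rfl⟩, hn⟩

end Asm

open Asm in
theorem main_of (hA : ClaimA) (hB : ClaimB)
    (hK : ∀ (V : Type) (G : SimpleGraph V) (p : V → Fin 3), Fat G p 4 → K22Free (parityGraph G p)) :
    ∃ 𝒞 𝒟 : Set FinGraph, 𝒞.Infinite ∧ 𝒟.Infinite ∧ IsoClosed 𝒞 ∧ IsoClosed 𝒟 ∧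
      (∃ (m : ℕ) (T : Trans m), T.Covers 𝒞 𝒟) ∧
      ∀ (m : ℕ) (T : Trans m), T.IsFO → ¬ T.Covers 𝒞 𝒟 := by
  obtain ⟨S, hS, hT⟩ := exists_seq hA hB hK
  have hfin : ∀ n, Finite (S n).V := fun n => (S n).fin
  refine ⟨{G | ∃ n, Nonempty (G.2 ≃g (S n).G)}, {D | ∃ n, Nonempty (D.2 ≃g (S n).D)},
    ?_, ?_, ?_, ?_, ?_, ?_⟩
  · refine infinite_of _ fun n => ?_
    obtain ⟨G, h1, h2⟩ := exists_fin (S n).G
    refine ⟨G, ⟨n, h2⟩, ?_⟩
    rw [h1]
    exact (hS n).trans_le (Nat.card_le_card_of_injective _ Subtype.val_injective)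
  · refine infinite_of _ fun n => ?_
    obtain ⟨G, h1, h2⟩ := exists_fin (S n).D
    refine ⟨G, ⟨n, h2⟩, ?_⟩
    rw [h1]
    exact hS n
  · rintro G ⟨n, ⟨i⟩⟩ G' ⟨i'⟩
    exact ⟨n, ⟨i'.symm.trans i⟩⟩
  · rintro G ⟨n, ⟨i⟩⟩ G' ⟨i'⟩
    exact ⟨n, ⟨i'.symm.trans i⟩⟩
  · refine ⟨2, parT, ?_⟩
    rintro D ⟨n, ⟨i⟩⟩
    obtain ⟨G, -, ⟨i'⟩⟩ := exists_fin (S n).G
    exact ⟨G, ⟨n, ⟨i'⟩⟩, gives_iso parT i'.symm i.symm (parT_gives _ _)⟩
  · intro m T hFO hcov
    obtain ⟨n, hn⟩ := hT m T hFO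
    obtain ⟨D, -, ⟨i⟩⟩ := exists_fin (S n).D
    obtain ⟨G, ⟨j, ⟨i'⟩⟩, hG⟩ := hcov D ⟨n, ⟨i⟩⟩
    exact hn j (gives_iso T i' i hG)

end Pool.Agent.NH88.FM

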