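import Pool.Agent.NH88.FM.Defs

/-!
# Statements used for Claim B
-/

namespace Pool.Agent.NH88.FM

open Filter

/-- Łoś' theorem for first-order formulas, for sequences of fat forests of growing girth. -/
def UltraStmt : Prop :=
  ∀ (m : ℕ) (V : ℕ → Type) (_ : ∀ n, Nonempty (V n)) (G : ∀ n, SimpleGraph (V n))
    (p : ∀ n, V n → Fin 3) (U : ∀ n, Fin m → Set (V n)), (∀ n, Fat (G n) (p n) n) →
    ∃ (W : Type) (H : SimpleGraph W) (r : W → Fin 3) (U' : Fin m → Set W)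
      (ι : (∀ n, V n) → W) (𝓤 : Ultrafilter ℕ), (∀ g, Fat H r g) ∧
      (∀ s t, ι s = ι t ↔ ∀ᶠ n in (𝓤 : Filter ℕ), s n = t n) ∧
      ∀ (k : ℕ) (φ : Fml m k), φ.IsFO → ∀ s : Fin k → (∀ n, V n),
        (Sat H U' φ (fun i => ι (s i)) ↔
          ∀ᶠ n in (𝓤 : Filter ℕ), Sat (G n) (U n) φ (fun i => s i n))

/-- Finite index of a first-order formula across a cut of width two. -/
def CutStmt : Prop :=
  ∀ (m : ℕ) (φ : Fml m 2), φ.IsFO → ∃ τ : ℕ, ∀ (V : Type) (G : SimpleGraph V)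
    (U : Fin m → Set V) (z1 z2 : V) (X : Set V), z1 ∉ X → z2 ∉ X →
    (∀ x ∈ X, ∀ y, y ∉ X → G.Adj x y → y = z1 ∨ y = z2) →
    ∃ α : V → Fin τ, ∀ x ∈ X, ∀ x' ∈ X, α x = α x' → ∀ y, y ∉ X →
      (Sat G U φ ![x, y] ↔ Sat G U φ ![x', y]) ∧ (Sat G U φ ![y, x] ↔ Sat G U φ ![y, x'])

/-- In a fat forest without any short cycles, every finite set of more than `2 c` vertices can be
cut by at most two vertices such that one side contains between `c` and `2 c` of them. -/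
def SepStmt : Prop :=
  ∀ (V : Type) (G : SimpleGraph V) (p : V → Fin 3), (∀ g, Fat G p g) →
    ∀ S : Set V, S.Finite → ∀ c : ℕ, 1 ≤ c → 2 * c < S.ncard →
    ∃ (z1 z2 : V) (X : Set V), z1 ∉ X ∧ z2 ∉ X ∧ c ≤ (X ∩ S).ncard ∧ (X ∩ S).ncard ≤ 2 * c ∧
      ∀ x ∈ X, ∀ y, y ∉ X → G.Adj x y → y = z1 ∨ y = z2

end Pool.Agent.NH88.FM
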