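import Pool.Agent.NH88.FM.Skel

/-!
# Existence of skeletons: bipartite graphs of large girth with exact left degree
-/

namespace Pool.Agent.NH88.FM

namespace SkelEx

/-- the relation of a bipartite graph given by `r` -/
def Rel {A B : ℕ} (r : Fin A → Finset (Fin B)) (a b : Fin A ⊕ Fin B) : Prop :=
  (∃ j i, a = Sum.inl j ∧ b = Sum.inr i ∧ i ∈ r j) ∨
      ∃ j i, b = Sum.inl j ∧ a = Sum.inr i ∧ i ∈ r j

theorem Rel.symm {A B : ℕ} {r : Fin A → Finset (Fin B)} {a b : Fin A ⊕ Fin B}
    (h : Rel r a b) : Rel r b a := by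
  rcases h with ⟨j, i, h1, h2, h3⟩ | ⟨j, i, h1, h2, h3⟩
  · exact Or.inr ⟨j, i, h1, h2, h3⟩
  · exact Or.inl ⟨j, i, h1, h2, h3⟩

open Classical in
/-- the neighbours -/
noncomputable def nb {A B : ℕ} (r : Fin A → Finset (Fin B)) (a : Fin A ⊕ Fin B) :
    Finset (Fin A ⊕ Fin B) := Finset.univ.filter (fun b => Rel r a b)

theorem mem_nb {A B : ℕ} (r : Fin A → Finset (Fin B)) (a b : Fin A ⊕ Fin B) :
    b ∈ nb r a ↔ Rel r a b := by simp [nb]

theorem nb_card {A B d Δ : ℕ} (r : Fin A → Finset (Fin B)) (h1 : ∀ a, (r a).card ≤ d)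
    (h2 : ∀ b, (Finset.univ.filter (fun a => b ∈ r a)).card ≤ Δ) (x : Fin A ⊕ Fin B) :
    (nb r x).card ≤ max d Δ := by
  rcases x with a | b
  · refine le_trans ?_ (le_trans (h1 a) (le_max_left _ _))
    have : nb r (Sum.inl a) ⊆ (r a).image Sum.inr := by
      intro y hy
      rw [mem_nb] at hy
      rcases hy with ⟨j, i, h1, h2, h3⟩ | ⟨j, i, h1, h2, h3⟩
      · cases h1
        rw [h2]
        exact Finset.mem_image_of_mem _ h3
      · cases h2
    exact (Finset.card_le_card this).trans Finset.card_image_le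
  · refine le_trans ?_ (le_trans (h2 b) (le_max_right _ _))
    have : nb r (Sum.inr b) ⊆ (Finset.univ.filter (fun a => b ∈ r a)).image Sum.inl := by
      intro y hy
      rw [mem_nb] at hy
      rcases hy with ⟨j, i, h1, h2, h3⟩ | ⟨j, i, h1, h2, h3⟩
      · cases h1
      · cases h2
        rw [h1]
        exact Finset.mem_image_of_mem _ (by simpa using h3)
    exact (Finset.card_le_card this).trans Finset.card_image_le

open Classical in
/-- balls -/
noncomputable def ball {A B : ℕ} (r : Fin A → Finset (Fin B)) (x : Fin A ⊕ Fin B) :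
    ℕ → Finset (Fin A ⊕ Fin B)
  | 0 => {x}
  | k + 1 => ball r x k ∪ (ball r x k).biUnion (nb r)

theorem ball_card {A B D : ℕ} (r : Fin A → Finset (Fin B)) (x : Fin A ⊕ Fin B)
    (h : ∀ y, (nb r y).card ≤ D) (k : ℕ) : (ball r x k).card ≤ (D + 1) ^ k := by
  induction k with
  | zero => simp [ball]
  | succ k ih =>
    rw [ball]
    refine (Finset.card_union_le _ _).trans ?_
    have := Finset.card_biUnion_le_card_mul (ball r x k) (nb r) D (fun y _ => h y)
    calc _ ≤ (ball r x k).card + (ball r x k).card * D := by omega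
      _ = (ball r x k).card * (D + 1) := by ring
      _ ≤ (D + 1) ^ k * (D + 1) := Nat.mul_le_mul_right _ ih
      _ = _ := by rw [pow_succ]

theorem ball_walk {A B : ℕ} (r : Fin A → Finset (Fin B)) (w : ℕ → Fin A ⊕ Fin B) (k : ℕ)
    (h : ∀ i < k, Rel r (w i) (w (i + 1))) : w k ∈ ball r (w 0) k := by
  induction k with
  | zero => simp [ball]
  | succ k ih =>
    rw [ball]
    refine Finset.mem_union_right _ ?_
    rw [Finset.mem_biUnion]
    exact ⟨w k, ih fun i hi => h i (by omega), (mem_nb _ _ _).2 (h k (by omega))⟩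

theorem ball_mono {A B : ℕ} (r : Fin A → Finset (Fin B)) (x : Fin A ⊕ Fin B) {k l : ℕ}
    (h : k ≤ l) : ball r x k ⊆ ball r x l := by
  induction l, h using Nat.le_induction with
  | base => exact Finset.Subset.refl _
  | succ l _ ih => exact ih.trans (by rw [ball]; exact Finset.subset_union_left)

/-- the invariant -/
structure Good {A B : ℕ} (d Δ g : ℕ) (r : Fin A → Finset (Fin B)) : Prop where
  left : ∀ a, (r a).card ≤ d
  right : ∀ b, (Finset.univ.filter (fun a => b ∈ r a)).card ≤ Δ
  cyc : ∀ l, 3 ≤ l → l ≤ g → NoCyc (Rel r) l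

theorem insert_cyc {A B : ℕ} {g : ℕ} (r : Fin A → Finset (Fin B)) (a : Fin A) (b : Fin B)
    (hc : ∀ l, 3 ≤ l → l ≤ g → NoCyc (Rel r) l)
    (hb : Sum.inr b ∉ ball r (Sum.inl a) g) :
    ∀ l, 3 ≤ l → l ≤ g → NoCyc (Rel (Function.update r a (insert b (r a)))) l := by
  intro l hl hg f hinj hw hcl
  set r' := Function.update r a (insert b (r a)) with hr'
  have key : ∀ x y, Rel r' x y → Rel r x y ∨ (x = Sum.inl a ∧ y = Sum.inr b) ∨
      (x = Sum.inr b ∧ y = Sum.inl a) := by
    intro x y h
    have h4 : ∀ j i, i ∈ r' j → i ∈ r j ∨ (j = a ∧ i = b) := by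
      intro j i h
      rw [hr'] at h
      by_cases hj : j = a
      · subst hj
        rw [Function.update_self, Finset.mem_insert] at h
        rcases h with h | h
        · exact Or.inr ⟨rfl, h⟩
        · exact Or.inl h
      · rw [Function.update_of_ne hj] at h
        exact Or.inl h
    rcases h with ⟨j, i, h1, h2, h3⟩ | ⟨j, i, h1, h2, h3⟩
    · rcases h4 j i h3 with h | ⟨h, h'⟩
      · exact Or.inl (Or.inl ⟨j, i, h1, h2, h⟩)
      · subst h; subst h'
        exact Or.inr (Or.inl ⟨h1, h2⟩)
    · rcases h4 j i h3 with h | ⟨h, h'⟩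
      · exact Or.inl (Or.inr ⟨j, i, h1, h2, h⟩)
      · subst h; subst h'
        exact Or.inr (Or.inr ⟨h2, h1⟩)
  -- all edges
  have hall : ∀ i, Rel r' (f (i % l)) (f ((i + 1) % l)) := by
    intro i
    have hi : i % l < l := Nat.mod_lt _ (by omega)
    by_cases h : i % l + 1 < l
    · have : (i + 1) % l = i % l + 1 := by
        rw [Nat.add_mod, Nat.mod_eq_of_lt (a := 1) (by omega), Nat.mod_eq_of_lt h]
      rw [this]
      exact hw _ h
    · have h' : i % l = l - 1 := by omega
      have : (i + 1) % l = 0 := by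
        rw [Nat.add_mod, Nat.mod_eq_of_lt (a := 1) (by omega), h']
        have : l - 1 + 1 = l := by omega
        rw [this, Nat.mod_self]
      rw [this, h']
      exact hcl
  by_cases hex : ∃ i0 < l, ¬ Rel r (f i0) (f ((i0 + 1) % l))
  · obtain ⟨i0, hi0, hn⟩ := hex
    have hnew : (f i0 = Sum.inl a ∧ f ((i0 + 1) % l) = Sum.inr b) ∨
        (f i0 = Sum.inr b ∧ f ((i0 + 1) % l) = Sum.inl a) := by
      have := hall i0
      rw [Nat.mod_eq_of_lt hi0] at this
      rcases key _ _ this with h | h | h
      · exact absurd h hn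
      · exact Or.inl h
      · exact Or.inr h
    -- the walk
    have hwalk : ∀ t < l - 1, Rel r (f ((i0 + 1 + t) % l)) (f ((i0 + 1 + (t + 1)) % l)) := by
      intro t ht
      have h1 := hall (i0 + 1 + t)
      rw [add_assoc (i0 + 1) t 1] at h1
      by_contra hcon
      have hx : (i0 + 1 + t) % l < l := Nat.mod_lt _ (by omega)
      have hy : (i0 + 1 + (t + 1)) % l < l := Nat.mod_lt _ (by omega)
      have hz : (i0 + 1) % l < l := Nat.mod_lt _ (by omega)
      have hne : (i0 + 1 + t) % l ≠ i0 := by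
        intro h
        have : (i0 + 1 + t) % l = (i0 + 0) % l := by
          rw [h, add_zero, Nat.mod_eq_of_lt hi0]
        rw [add_assoc] at this
        have := Nat.ModEq.add_left_cancel' i0 (show (i0 + (1 + t)) ≡ i0 + 0 [MOD l] from this)
        have := (Nat.modEq_zero_iff_dvd.1 this)
        have := Nat.le_of_dvd (by omega) this
        omega
      have hne2 : ¬ ((i0 + 1 + t) % l = (i0 + 1) % l ∧ (i0 + 1 + (t + 1)) % l = i0) := by
        rintro ⟨h, h'⟩
        have e1 : (i0 + 1 + t) ≡ (i0 + 1) + 0 [MOD l] := h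
        have e2 := Nat.ModEq.add_left_cancel' (i0 + 1) e1
        have e3 : (i0 + (1 + (t + 1))) % l = (i0 + 0) % l := by
          rw [← add_assoc, h', add_zero, Nat.mod_eq_of_lt hi0]
        have e4 := Nat.ModEq.add_left_cancel' i0 (show (i0 + (1 + (t + 1))) ≡ i0 + 0 [MOD l] from e3)
        have e5 : t = 0 := by
          have := Nat.modEq_zero_iff_dvd.1 e2
          by_contra h0
          have := Nat.le_of_dvd (by omega) this
          omega
        subst e5
        have := Nat.modEq_zero_iff_dvd.1 e4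
        have := Nat.le_of_dvd (by omega) this
        omega
      rcases key _ _ h1 with h | h | h
      · exact hcon h
      · rcases hnew with h' | h'
        · exact hne (hinj _ hx _ hi0 (h.1.trans h'.1.symm))
        · exact hne2 ⟨hinj _ hx _ hz (h.1.trans h'.2.symm), hinj _ hy _ hi0 (h.2.trans h'.1.symm)⟩
      · rcases hnew with h' | h'
        · exact hne2 ⟨hinj _ hx _ hz (h.1.trans h'.2.symm), hinj _ hy _ hi0 (h.2.trans h'.1.symm)⟩
        · exact hne (hinj _ hx _ hi0 (h.1.trans h'.1.symm))
    have hend : (i0 + 1 + (l - 1)) % l = i0 := by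
      have : i0 + 1 + (l - 1) = i0 + l := by omega
      rw [this, Nat.add_mod_right, Nat.mod_eq_of_lt hi0]
    rcases hnew with h' | h'
    · -- reverse walk
      have hrev : ∀ t < l - 1, Rel r (f ((i0 + 1 + (l - 1 - t)) % l))
          (f ((i0 + 1 + (l - 1 - (t + 1))) % l)) := by
        intro t ht
        have := hwalk (l - 1 - (t + 1)) (by omega)
        have e : l - 1 - (t + 1) + 1 = l - 1 - t := by omega
        rw [e] at this
        exact this.symm
      have := ball_walk r (fun t => f ((i0 + 1 + (l - 1 - t)) % l)) (l - 1) hrev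
      simp only [Nat.sub_self, Nat.sub_zero, add_zero] at this
      rw [hend, h'.1, h'.2] at this
      exact hb (ball_mono r _ (by omega) this)
    · have := ball_walk r (fun t => f ((i0 + 1 + t) % l)) (l - 1) hwalk
      simp only [add_zero] at this
      rw [hend, h'.1, h'.2] at this
      exact hb (ball_mono r _ (by omega) this)
  · push Not at hex
    refine hc l hl hg f hinj (fun i hi => ?_) ?_
    · have := hex i (by omega)
      rwa [Nat.mod_eq_of_lt hi] at this
    · have := hex (l - 1) (by omega)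
      have e : l - 1 + 1 = l := by omega
      rwa [e, Nat.mod_self] at this

theorem step {A B d Δ g : ℕ} (hΔ : 0 < Δ)
    (hB : A * d + Δ * (max d Δ + 1) ^ (g + 1) < Δ * B)
    (r : Fin A → Finset (Fin B)) (hr : Good d Δ g r) (a : Fin A) (ha : (r a).card < d) :
    ∃ b, b ∉ r a ∧ Good d Δ g (Function.update r a (insert b (r a))) := by
  classical
  set full : Finset (Fin B) :=
    Finset.univ.filter (fun b => Δ ≤ (Finset.univ.filter (fun a => b ∈ r a)).card) with hfull
  have h1 : Δ * full.card ≤ A * d := by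
    calc Δ * full.card = ∑ b ∈ full, Δ := by simp [mul_comm]
      _ ≤ ∑ b ∈ full, (Finset.univ.filter (fun a => b ∈ r a)).card :=
        Finset.sum_le_sum fun b hb => by simpa [hfull] using hb
      _ ≤ ∑ b, (Finset.univ.filter (fun a => b ∈ r a)).card :=
        Finset.sum_le_sum_of_subset (Finset.subset_univ _)
      _ = ∑ a, (r a).card := by
        simp only [Finset.card_eq_sum_ones, Finset.sum_filter]
        rw [Finset.sum_comm]
        simp
      _ ≤ ∑ _a : Fin A, d := Finset.sum_le_sum fun a _ => hr.left a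
      _ = A * d := by simp
  set near : Finset (Fin B) :=
    Finset.univ.filter (fun b => Sum.inr b ∈ ball r (Sum.inl a) (g + 1)) with hnear
  have h2 : near.card ≤ (max d Δ + 1) ^ (g + 1) := by
    refine le_trans ?_ (ball_card r (Sum.inl a) (nb_card r hr.left hr.right) (g + 1))
    refine Finset.card_le_card_of_injOn Sum.inr ?_ (Sum.inr_injective.injOn)
    intro b hb
    simpa [hnear] using hb
  have h3 : (full ∪ near).card < B := by
    have h4 := Finset.card_union_le full near
    have : Δ * (full ∪ near).card < Δ * B := by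
      calc Δ * (full ∪ near).card ≤ Δ * (full.card + near.card) := Nat.mul_le_mul_left _ h4
        _ = Δ * full.card + Δ * near.card := by ring
        _ ≤ A * d + Δ * (max d Δ + 1) ^ (g + 1) :=
          Nat.add_le_add h1 (Nat.mul_le_mul_left _ h2)
        _ < _ := hB
    exact lt_of_mul_lt_mul_left this (Nat.zero_le _)
  obtain ⟨b, hb⟩ : ∃ b, b ∉ full ∪ near := by
    by_contra hcon
    push Not at hcon
    have : (full ∪ near) = Finset.univ := Finset.eq_univ_iff_forall.2 hcon
    rw [this] at h3
    simp at h3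
  rw [Finset.mem_union, not_or] at hb
  obtain ⟨hb1, hb2⟩ := hb
  have hb1' : (Finset.univ.filter (fun a => b ∈ r a)).card < Δ := by
    simpa [hfull] using hb1
  have hb2' : Sum.inr b ∉ ball r (Sum.inl a) (g + 1) := by
    simpa [hnear] using hb2
  have hba : b ∉ r a := by
    intro h
    apply hb2'
    have : Sum.inr b ∈ ball r (Sum.inl a) 1 := by
      rw [ball]
      refine Finset.mem_union_right _ ?_
      rw [Finset.mem_biUnion]
      exact ⟨Sum.inl a, by simp [ball], (mem_nb _ _ _).2 (Or.inl ⟨a, b, rfl, rfl, h⟩)⟩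
    exact ball_mono r _ (by omega) this
  refine ⟨b, hba, ?_, ?_, ?_⟩
  · intro a'
    by_cases h : a' = a
    · subst h
      rw [Function.update_self, Finset.card_insert_of_notMem hba]
      omega
    · rw [Function.update_of_ne h]
      exact hr.left a'
  · intro b'
    by_cases h : b' = b
    · subst h
      have : (Finset.univ.filter (fun x => b' ∈ Function.update r a (insert b' (r a)) x)) ⊆
          insert a (Finset.univ.filter (fun a => b' ∈ r a)) := by
        intro x hx
        rw [Finset.mem_filter] at hx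
        by_cases hxa : x = a
        · rw [hxa]; exact Finset.mem_insert_self _ _
        · rw [Function.update_of_ne hxa] at hx
          exact Finset.mem_insert_of_mem (by simpa using hx.2)
      refine (Finset.card_le_card this).trans ((Finset.card_insert_le _ _).trans ?_)
      omega
    · refine le_trans (Finset.card_le_card ?_) (hr.right b')
      intro x hx
      rw [Finset.mem_filter] at hx ⊢
      refine ⟨Finset.mem_univ _, ?_⟩
      by_cases hxa : x = a
      · subst hxa
        rw [Function.update_self, Finset.mem_insert] at hx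
        rcases hx.2 with h' | h'
        · exact absurd h' h
        · exact h'
      · rw [Function.update_of_ne hxa] at hx
        exact hx.2
  · exact insert_cyc r a b hr.cyc fun h => hb2' (ball_mono r _ (by omega) h)

theorem exists_good {A B d Δ g : ℕ} (hΔ : 0 < Δ)
    (hB : A * d + Δ * (max d Δ + 1) ^ (g + 1) < Δ * B) :
    ∃ r : Fin A → Finset (Fin B), Good d Δ g r ∧ ∀ a, (r a).card = d := by
  have key : ∀ N ≤ A * d, ∃ r : Fin A → Finset (Fin B), Good d Δ g r ∧ ∑ a, (r a).card = N := by
    intro N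
    induction N with
    | zero =>
      intro _
      refine ⟨fun _ => ∅, ⟨by simp, by simp, ?_⟩, by simp⟩
      intro l hl _ f _ _ hcl
      rcases hcl with ⟨j, i, _, _, h3⟩ | ⟨j, i, _, _, h3⟩ <;> simp at h3
    | succ N ih =>
      intro hN
      obtain ⟨r, hr, hs⟩ := ih (by omega)
      have : ∃ a, (r a).card < d := by
        by_contra hcon
        push Not at hcon
        have : A * d ≤ ∑ a, (r a).card := by
          calc A * d = ∑ _a : Fin A, d := by simp
            _ ≤ _ := Finset.sum_le_sum fun a _ => hcon a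
        omega
      obtain ⟨a, ha⟩ := this
      obtain ⟨b, hb, hg⟩ := step hΔ hB r hr a ha
      refine ⟨_, hg, ?_⟩
      rw [← Finset.add_sum_erase _ _ (Finset.mem_univ a)] at hs ⊢
      rw [Function.update_self, Finset.card_insert_of_notMem hb]
      have : ∑ x ∈ Finset.univ.erase a, (Function.update r a (insert b (r a)) x).card =
          ∑ x ∈ Finset.univ.erase a, (r x).card := by
        refine Finset.sum_congr rfl fun x hx => ?_
        rw [Function.update_of_ne (Finset.ne_of_mem_erase hx)]
      rw [this]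
      omega
  obtain ⟨r, hr, hs⟩ := key (A * d) le_rfl
  refine ⟨r, hr, fun a => ?_⟩
  by_contra hne
  have hlt : (r a).card < d := lt_of_le_of_ne (hr.left a) hne
  have : ∑ a, (r a).card < ∑ _a : Fin A, d :=
    Finset.sum_lt_sum (fun a _ => hr.left a) ⟨a, Finset.mem_univ _, hlt⟩
  rw [hs] at this
  simp at this

theorem log_bound (K : ℕ) : ∃ q0, ∀ q ≥ q0, K * (Nat.log 2 q + 1) ≤ q := by
  refine ⟨2 ^ (max 6 K), fun q hq => ?_⟩
  have hq0 : q ≠ 0 := by
    have : 0 < 2 ^ (max 6 K) := by positivity
    omega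
  set L := Nat.log 2 q with hL
  have h1 : max 6 K ≤ L := by
    rw [hL]
    exact Nat.le_log_of_pow_le (by norm_num) hq
  have h2 : 2 ^ L ≤ q := Nat.pow_log_le_self 2 hq0
  have h3 : ∀ n, 6 ≤ n → (n + 1) ^ 2 ≤ 2 ^ n := by
    intro n hn
    induction n, hn using Nat.le_induction with
    | base => norm_num
    | succ n hn ih =>
      rw [pow_succ 2 n]
      nlinarith
  have h4 := h3 L (le_trans (le_max_left _ _) h1)
  have h5 : K ≤ L := le_trans (le_max_right _ _) h1
  calc K * (L + 1) ≤ (L + 1) * (L + 1) := Nat.mul_le_mul_right _ (by omega)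
    _ = (L + 1) ^ 2 := by ring
    _ ≤ _ := h4.trans h2

end SkelEx

open SkelEx in
theorem exists_skel (g e : ℕ) : ∃ a : ℕ, ∀ C : ℕ, ∃ q0 : ℕ, ∀ q ≥ q0, ∃ n m d : ℕ, q ≤ n ∧ 1 ≤ m ∧ 1 ≤ d ∧ n * (m + 2) ≤ q ^ a ∧
    C * (n * (m + 2)) * (Nat.log 2 (n * (m + 2)) + 1) ≤ n * d ∧ Nonempty (Skel n m d (q ^ e) g) := by
  set e1 := (e + 2) * (g + 1) + 1 with he1
  set e2 := (e1 + 2) * (g + 1) + 1 with he2
  set a := e2 + e1 + 1 with ha
  refine ⟨a, fun C => ?_⟩
  obtain ⟨q0, hq0⟩ := log_bound (3 * C * (a + 1))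
  refine ⟨max 3 q0, fun q hq => ?_⟩
  have hq3 : 3 ≤ q := le_trans (le_max_left _ _) hq
  have hlog := hq0 q (le_trans (le_max_right _ _) hq)
  have hqpos : 0 < q := by omega
  set m := q ^ e1 with hm
  set d := q * m with hd
  set n := q ^ e2 with hn
  have hm1 : q ≤ m := by
    rw [hm, he1, pow_succ]
    exact Nat.le_mul_of_pos_left _ (by positivity)
  have hn1 : q ≤ n := by
    rw [hn, he2, pow_succ]
    exact Nat.le_mul_of_pos_left _ (by positivity)
  have hdpos : 0 < d := by positivity
  have hle : n * (m + 2) ≤ q ^ a := by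
    have : m + 2 ≤ q * m := by nlinarith
    calc n * (m + 2) ≤ n * (q * m) := Nat.mul_le_mul_left _ this
      _ = q ^ a := by rw [hn, hm, ha]; ring
  refine ⟨n, m, d, hn1, by omega, by omega, hle, ?_, ?_⟩
  · have hlog2 : Nat.log 2 (n * (m + 2)) ≤ a * (Nat.log 2 q + 1) := by
      have h1 : Nat.log 2 (n * (m + 2)) ≤ Nat.log 2 (q ^ a) := Nat.log_mono_right hle
      refine h1.trans ?_
      have h2 : q ^ a ≤ 2 ^ (a * (Nat.log 2 q + 1)) := by
        rw [mul_comm, pow_mul]
        exact Nat.pow_le_pow_left (Nat.lt_pow_succ_log_self (by norm_num) q).le a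
      calc Nat.log 2 (q ^ a) ≤ Nat.log 2 (2 ^ (a * (Nat.log 2 q + 1))) := Nat.log_mono_right h2
        _ = _ := Nat.log_pow (by norm_num) _
    have h3 : m + 2 ≤ 3 * m := by omega
    calc C * (n * (m + 2)) * (Nat.log 2 (n * (m + 2)) + 1)
        ≤ C * (n * (3 * m)) * (a * (Nat.log 2 q + 1) + 1) :=
          Nat.mul_le_mul (Nat.mul_le_mul_left _ (Nat.mul_le_mul_left _ h3)) (by omega)
      _ ≤ C * (n * (3 * m)) * ((a + 1) * (Nat.log 2 q + 1)) :=
          Nat.mul_le_mul_left _ (by nlinarith)
      _ = n * m * (3 * C * (a + 1) * (Nat.log 2 q + 1)) := by ring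
      _ ≤ n * m * q := Nat.mul_le_mul_left _ hlog
      _ = n * d := by rw [hd]; ring
  · -- the graph `κ`
    have hκ : d * q ^ e + (2 * q ^ (e + 1)) * (max (q ^ e) (2 * q ^ (e + 1)) + 1) ^ (g + 1) <
        (2 * q ^ (e + 1)) * m := by
      have h1 : max (q ^ e) (2 * q ^ (e + 1)) = 2 * q ^ (e + 1) := by
        apply max_eq_right
        rw [pow_succ]
        have : 0 < q ^ e := by positivity
        nlinarith
      have h2 : 2 * q ^ (e + 1) + 1 ≤ q ^ (e + 2) := by
        have : 0 < q ^ (e + 1) := by positivity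
        rw [show e + 2 = e + 1 + 1 from rfl, pow_succ q (e + 1)]
        nlinarith
      have h3 : 2 * (2 * q ^ (e + 1) + 1) ^ (g + 1) < m := by
        have h4 : (2 * q ^ (e + 1) + 1) ^ (g + 1) ≤ q ^ ((e + 2) * (g + 1)) := by
          rw [pow_mul]
          exact Nat.pow_le_pow_left h2 _
        have h5 : 0 < q ^ ((e + 2) * (g + 1)) := by positivity
        rw [hm, he1, pow_succ q ((e + 2) * (g + 1))]
        nlinarith
      rw [h1]
      have h6 : 0 < q ^ (e + 1) := by positivity
      calc d * q ^ e + (2 * q ^ (e + 1)) * (2 * q ^ (e + 1) + 1) ^ (g + 1)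
          = q ^ (e + 1) * (m + 2 * (2 * q ^ (e + 1) + 1) ^ (g + 1)) := by
            rw [hd]; ring
        _ < q ^ (e + 1) * (m + m) := Nat.mul_lt_mul_of_pos_left (by omega) h6
        _ = _ := by ring
    obtain ⟨κ, hκg, hκc⟩ := exists_good (A := d) (B := m) (d := q ^ e) (Δ := 2 * q ^ (e + 1))
      (g := g) (by positivity) hκ
    have hh : n * d + (2 * d) * (max d (2 * d) + 1) ^ (g + 1) < (2 * d) * n := by
      have h1 : max d (2 * d) = 2 * d := max_eq_right (by omega)
      have h2 : 2 * d + 1 ≤ q ^ (e1 + 2) := by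
        have h0 : q ^ (e1 + 2) = q * d := by rw [hd, hm]; ring
        rw [h0]
        nlinarith
      have h3 : 2 * (2 * d + 1) ^ (g + 1) < n := by
        have h4 : (2 * d + 1) ^ (g + 1) ≤ q ^ ((e1 + 2) * (g + 1)) := by
          rw [pow_mul]
          exact Nat.pow_le_pow_left h2 _
        have h5 : 0 < q ^ ((e1 + 2) * (g + 1)) := by positivity
        rw [hn, he2, pow_succ q ((e1 + 2) * (g + 1))]
        nlinarith
      rw [h1]
      calc n * d + (2 * d) * (2 * d + 1) ^ (g + 1)
          = d * (n + 2 * (2 * d + 1) ^ (g + 1)) := by ring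
        _ < d * (n + n) := Nat.mul_lt_mul_of_pos_left (by omega) hdpos
        _ = _ := by ring
    obtain ⟨r, hrg, hrc⟩ := exists_good (A := n) (B := n) (d := d) (Δ := 2 * d)
      (g := g) (by positivity) hh
    have hmem : ∀ u (i : Fin n), i ∈ r u ↔ ∃ j, i = (r u).orderEmbOfFin (hrc u) j := by
      intro u i
      have := Finset.range_orderEmbOfFin (r u) (hrc u)
      constructor
      · intro h
        have h' : i ∈ Set.range ((r u).orderEmbOfFin (hrc u)) := by rw [this]; exact h
        obtain ⟨j, hj⟩ := h'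
        exact ⟨j, hj.symm⟩
      · rintro ⟨j, rfl⟩
        exact Finset.orderEmbOfFin_mem _ _ _
    refine ⟨{ h := fun u => (r u).orderEmbOfFin (hrc u)
              κ := κ
              h_inj := fun u => ((r u).orderEmbOfFin (hrc u)).injective
              κ_card := hκc
              h_girth := ?_
              κ_girth := hκg.cyc }⟩
    intro l hl hg'
    have := hrg.cyc l hl hg'
    convert this using 1
    funext x y
    apply propext
    constructor
    · rintro (⟨u, j, h1, h2⟩ | ⟨u, j, h1, h2⟩)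
      · exact Or.inl ⟨u, _, h1, h2, (hmem _ _).2 ⟨j, rfl⟩⟩
      · exact Or.inr ⟨u, _, h1, h2, (hmem _ _).2 ⟨j, rfl⟩⟩
    · rintro (⟨u, i, h1, h2, h3⟩ | ⟨u, i, h1, h2, h3⟩)
      · obtain ⟨j, hj⟩ := (hmem _ _).1 h3
        exact Or.inl ⟨u, j, h1, by rw [h2, hj]⟩
      · obtain ⟨j, hj⟩ := (hmem _ _).1 h3
        exact Or.inr ⟨u, j, h1, by rw [h2, hj]⟩

end Pool.Agent.NH88.FM
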