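import Pool.Agent.NH88.FM.Skel

/-!
# The graphs `G_x` of a skeleton are fat forests of large girth
-/

namespace Pool.Agent.NH88.FM

theorem NoCyc.transport {V W : Type} {r : V → V → Prop} {r' : W → W → Prop} {k : ℕ}
    (hk : 2 ≤ k) (h : NoCyc r' k)
    (H : (∃ a b, r a b) → ∃ φ : V → W,
      (∀ a b, (∃ c, r a c) → (∃ c, r b c) → φ a = φ b → a = b) ∧
        ∀ a b, r a b → r' (φ a) (φ b)) : NoCyc r k := by
  intro f hinj hw hcl
  obtain ⟨φ, h1, h2⟩ := H ⟨_, _, hcl⟩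
  have hP : ∀ i < k, ∃ c, r (f i) c := by
    intro i hi
    by_cases h : i + 1 < k
    · exact ⟨_, hw i h⟩
    · have : i = k - 1 := by omega
      rw [this]
      exact ⟨_, hcl⟩
  exact h (fun i => φ (f i)) (fun i hi j hj hij => hinj i hi j hj (h1 _ _ (hP i hi) (hP j hj) hij))
    (fun i hi => h2 _ _ (hw i hi)) (h2 _ _ hcl)

namespace Skel

variable {n m d k g : ℕ} (S : Skel n m d k g) (x : S.Bit → Bool)

theorem Gx_adj (a b : SV n m) : (S.Gx x).Adj a b ↔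
    (∃ u i, a = Sum.inl u ∧ b = Sum.inr (Sum.inl (u, i))) ∨
    (∃ u i, b = Sum.inl u ∧ a = Sum.inr (Sum.inl (u, i))) ∨
    (∃ (u : Fin n) (j : Fin d) (i : Fin m) (h : i ∈ S.κ j), x ⟨(u, j, i), h⟩ = true ∧
      a = Sum.inr (Sum.inl (u, i)) ∧ b = Sum.inr (Sum.inr (S.h u j))) ∨
    (∃ (u : Fin n) (j : Fin d) (i : Fin m) (h : i ∈ S.κ j), x ⟨(u, j, i), h⟩ = true ∧
      b = Sum.inr (Sum.inl (u, i)) ∧ a = Sum.inr (Sum.inr (S.h u j))) := by
  simp only [Gx, addBits, G0, SimpleGraph.sup_adj, SimpleGraph.fromRel_adj]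
  constructor
  · rintro (⟨_, h | h⟩ | ⟨_, ⟨⟨⟨u, j, i⟩, ht⟩, hx, he⟩ | ⟨⟨⟨u, j, i⟩, ht⟩, hx, he⟩⟩)
    · exact Or.inl h
    · exact Or.inr (Or.inl h)
    · rw [Prod.ext_iff] at he
      exact Or.inr (Or.inr (Or.inl ⟨u, j, i, ht, hx, he.1.symm, he.2.symm⟩))
    · rw [Prod.ext_iff] at he
      exact Or.inr (Or.inr (Or.inr ⟨u, j, i, ht, hx, he.1.symm, he.2.symm⟩))
  · rintro (⟨u, i, h1, h2⟩ | ⟨u, i, h1, h2⟩ | ⟨u, j, i, h, hx, h1, h2⟩ | ⟨u, j, i, h, hx, h1, h2⟩)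
    · exact Or.inl ⟨by rw [h1, h2]; simp, Or.inl ⟨u, i, h1, h2⟩⟩
    · exact Or.inl ⟨by rw [h1, h2]; simp, Or.inr ⟨u, i, h1, h2⟩⟩
    · exact Or.inr ⟨by rw [h1, h2]; simp, Or.inl ⟨⟨(u, j, i), h⟩, hx, by rw [h1, h2]; rfl⟩⟩
    · exact Or.inr ⟨by rw [h1, h2]; simp, Or.inr ⟨⟨(u, j, i), h⟩, hx, by rw [h1, h2]; rfl⟩⟩

theorem adj_01 (u u' : Fin n) (i : Fin m) :
    (S.Gx x).Adj (Sum.inl u) (Sum.inr (Sum.inl (u', i))) ↔ u = u' := by
  rw [Gx_adj]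
  constructor
  · rintro (⟨u, i, h1, h2⟩ | ⟨u, i, h1, h2⟩ | ⟨u, j, i, h, hx, h1, h2⟩ | ⟨u, j, i, h, hx, h1, h2⟩)
    · cases h1; cases h2; rfl
    · cases h1
    · cases h1
    · cases h2
  · rintro rfl
    exact Or.inl ⟨_, _, rfl, rfl⟩

theorem adj_12 (u : Fin n) (i : Fin m) (v : Fin n) :
    (S.Gx x).Adj (Sum.inr (Sum.inl (u, i))) (Sum.inr (Sum.inr v)) ↔
      ∃ (j : Fin d) (h : i ∈ S.κ j), x ⟨(u, j, i), h⟩ = true ∧ v = S.h u j := by
  rw [Gx_adj]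
  constructor
  · rintro (⟨u, i, h1, h2⟩ | ⟨u, i, h1, h2⟩ | ⟨u, j, i, h, hx, h1, h2⟩ | ⟨u, j, i, h, hx, h1, h2⟩)
    · cases h1
    · cases h1
    · cases h1; cases h2
      exact ⟨j, h, hx, rfl⟩
    · cases h1
  · rintro ⟨j, h, hx, rfl⟩
    exact Or.inr (Or.inr (Or.inl ⟨_, _, _, h, hx, rfl, rfl⟩))

theorem part0 {a : SV n m} (h : part a = 0) : ∃ u, a = Sum.inl u := by
  rcases a with u | ⟨u, i⟩ | v
  · exact ⟨u, rfl⟩
  · simp [part] at h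
  · simp [part] at h

theorem part1 {a : SV n m} (h : part a = 1) : ∃ u i, a = Sum.inr (Sum.inl (u, i)) := by
  rcases a with u | ⟨u, i⟩ | v
  · simp [part] at h
  · exact ⟨u, i, rfl⟩
  · simp [part] at h

theorem part2 {a : SV n m} (h : part a = 2) : ∃ v, a = Sum.inr (Sum.inr v) := by
  rcases a with u | ⟨u, i⟩ | v
  · simp [part] at h
  · simp [part] at h
  · exact ⟨v, rfl⟩

theorem blkAdj_imp (u0 : Fin n) (a b : SV n m)
    (h : BlkAdj (S.Gx x) part (Sum.inl u0) a b) :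
    (∃ i j, a = Sum.inr (Sum.inl (u0, i)) ∧ b = Sum.inr (Sum.inr (S.h u0 j)) ∧ i ∈ S.κ j) ∨
    (∃ i j, b = Sum.inr (Sum.inl (u0, i)) ∧ a = Sum.inr (Sum.inr (S.h u0 j)) ∧ i ∈ S.κ j) := by
  obtain ⟨h0, ⟨h1, h2, h3⟩ | ⟨h1, h2, h3⟩⟩ := h
  · obtain ⟨u, i, rfl⟩ := part1 h1
    obtain ⟨v, rfl⟩ := part2 h2
    rw [SimpleGraph.adj_comm, adj_01] at h3
    subst h3
    rw [adj_12] at h0
    obtain ⟨j, hj, _, rfl⟩ := h0
    exact Or.inl ⟨i, j, rfl, rfl, hj⟩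
  · obtain ⟨u, i, rfl⟩ := part1 h2
    obtain ⟨v, rfl⟩ := part2 h1
    rw [SimpleGraph.adj_comm, adj_01] at h3
    subst h3
    rw [SimpleGraph.adj_comm, adj_12] at h0
    obtain ⟨j, hj, _, rfl⟩ := h0
    exact Or.inr ⟨i, j, rfl, rfl, hj⟩

theorem pairAdj_imp (a b : SV n m) (h : PairAdj (S.Gx x) part a b) :
    (∃ u j, a = Sum.inl u ∧ b = Sum.inr (Sum.inr (S.h u j))) ∨
      ∃ u j, b = Sum.inl u ∧ a = Sum.inr (Sum.inr (S.h u j)) := by
  obtain ⟨h0, w, hw, h1, h2⟩ := h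
  obtain ⟨u', i, rfl⟩ := part1 hw
  rcases h0 with ⟨ha, hb⟩ | ⟨ha, hb⟩
  · obtain ⟨u, rfl⟩ := part0 ha
    obtain ⟨v, rfl⟩ := part2 hb
    rw [adj_01] at h1
    subst h1
    rw [adj_12] at h2
    obtain ⟨j, _, _, rfl⟩ := h2
    exact Or.inl ⟨u, j, rfl, rfl⟩
  · obtain ⟨u, rfl⟩ := part0 hb
    obtain ⟨v, rfl⟩ := part2 ha
    rw [SimpleGraph.adj_comm, adj_01] at h2
    subst h2
    rw [SimpleGraph.adj_comm, adj_12] at h1
    obtain ⟨j, _, _, rfl⟩ := h1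
    exact Or.inr ⟨u, j, rfl, rfl⟩

theorem fat : Fat (S.Gx x) part g where
  parts := by
    intro a b h
    rw [Gx_adj] at h
    rcases h with ⟨u, i, h1, h2⟩ | ⟨u, i, h1, h2⟩ | ⟨u, j, i, h, hx, h1, h2⟩ |
      ⟨u, j, i, h, hx, h1, h2⟩ <;> rw [h1, h2] <;> simp [part]
  uniq := by
    intro w hw
    obtain ⟨u, i, rfl⟩ := part1 hw
    refine ⟨Sum.inl u, ⟨rfl, ?_⟩, ?_⟩
    · rw [SimpleGraph.adj_comm, adj_01]
    · rintro y ⟨hy, hy'⟩
      obtain ⟨u', rfl⟩ := part0 hy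
      rw [SimpleGraph.adj_comm, adj_01] at hy'
      rw [hy']
  blk := by
    intro u hu l hl hg
    obtain ⟨u0, rfl⟩ := part0 hu
    refine NoCyc.transport (by omega) (S.κ_girth l hl hg) ?_
    rintro ⟨a0, b0, hab⟩
    have hd : Nonempty (Fin d) := by
      rcases S.blkAdj_imp x _ _ _ hab with ⟨_, j, _⟩ | ⟨_, j, _⟩ <;> exact ⟨j⟩
    classical
    let φ : SV n m → Fin d ⊕ Fin m := fun a => match a with
      | Sum.inl _ => Sum.inl (Classical.choice hd)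
      | Sum.inr (Sum.inl (_, i)) => Sum.inr i
      | Sum.inr (Sum.inr v) => Sum.inl (if h : ∃ j, S.h u0 j = v then h.choose
          else Classical.choice hd)
    have hφ1 : ∀ u i, φ (Sum.inr (Sum.inl (u, i))) = Sum.inr i := fun _ _ => rfl
    have hφ2 : ∀ j, φ (Sum.inr (Sum.inr (S.h u0 j))) = Sum.inl j := by
      intro j
      have he : ∃ j', S.h u0 j' = S.h u0 j := ⟨j, rfl⟩
      change Sum.inl (if h : ∃ j', S.h u0 j' = S.h u0 j then h.choose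
          else Classical.choice hd) = _
      rw [dif_pos he]
      exact congrArg Sum.inl (S.h_inj u0 he.choose_spec)
    clear_value φ
    refine ⟨φ, ?_, ?_⟩
    · rintro a b ⟨c, hc⟩ ⟨c', hc'⟩ hab
      rcases S.blkAdj_imp x _ _ _ hc with ⟨i, j, h1, _, _⟩ | ⟨i, j, _, h1, _⟩ <;>
        rcases S.blkAdj_imp x _ _ _ hc' with ⟨i', j', h2, _, _⟩ | ⟨i', j', _, h2, _⟩
      · rw [h1, h2, hφ1, hφ1] at hab
        cases hab
        rw [h1, h2]
      · rw [h1, h2, hφ1, hφ2] at hab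
        cases hab
      · rw [h1, h2, hφ1, hφ2] at hab
        cases hab
      · rw [h1, h2, hφ2, hφ2] at hab
        cases hab
        rw [h1, h2]
    · intro a b hab
      rcases S.blkAdj_imp x _ _ _ hab with ⟨i, j, h1, h2, h3⟩ | ⟨i, j, h1, h2, h3⟩
      · exact Or.inr ⟨j, i, by rw [h2, hφ2], by rw [h1, hφ1], h3⟩
      · exact Or.inl ⟨j, i, by rw [h2, hφ2], by rw [h1, hφ1], h3⟩
  pair := by
    intro l hl hg
    refine NoCyc.transport (by omega) (S.h_girth l hl hg) ?_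
    intro _
    let φ : SV n m → Fin n ⊕ Fin n := fun a => match a with
      | Sum.inl u => Sum.inl u
      | Sum.inr (Sum.inl (u, _)) => Sum.inl u
      | Sum.inr (Sum.inr v) => Sum.inr v
    have hφ1 : ∀ u, φ (Sum.inl u) = Sum.inl u := fun _ => rfl
    have hφ2 : ∀ v, φ (Sum.inr (Sum.inr v)) = Sum.inr v := fun _ => rfl
    clear_value φ
    refine ⟨φ, ?_, ?_⟩
    · rintro a b ⟨c, hc⟩ ⟨c', hc'⟩ hab
      rcases S.pairAdj_imp x _ _ hc with ⟨u, j, h1, _⟩ | ⟨u, j, _, h1⟩ <;>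
        rcases S.pairAdj_imp x _ _ hc' with ⟨u', j', h2, _⟩ | ⟨u', j', _, h2⟩
      · rw [h1, h2, hφ1, hφ1] at hab
        cases hab
        rw [h1, h2]
      · rw [h1, h2, hφ1, hφ2] at hab
        cases hab
      · rw [h1, h2, hφ1, hφ2] at hab
        cases hab
      · rw [h1, h2, hφ2, hφ2] at hab
        rw [h1, h2, Sum.inr_injective hab]
    · intro a b hab
      rcases S.pairAdj_imp x _ _ hab with ⟨u, j, h1, h2⟩ | ⟨u, j, h1, h2⟩
      · exact Or.inl ⟨u, j, by rw [h1, hφ1], by rw [h2, hφ2]⟩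
      · exact Or.inr ⟨u, j, by rw [h1, hφ1], by rw [h2, hφ2]⟩

end Skel

theorem Skel.parity_adj {n m d k g : ℕ} (S : Skel n m d k g) (x : S.Bit → Bool) (u : Fin n) (v : Fin n) :
    (parityGraph (S.Gx x) part).Adj ⟨Sum.inl u, by simp [part]⟩ ⟨Sum.inr (Sum.inr v), by simp [part]⟩ ↔
      Nat.card {t : S.Bit // t.1.1 = u ∧ S.h t.1.1 t.1.2.1 = v ∧ x t = true} % 2 = 1 := by
  have hcard : Nat.card {w : SV n m // (S.Gx x).Adj (Sum.inl u) w ∧
      (S.Gx x).Adj w (Sum.inr (Sum.inr v))} =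
      Nat.card {t : S.Bit // t.1.1 = u ∧ S.h t.1.1 t.1.2.1 = v ∧ x t = true} := by
    symm
    refine Nat.card_congr (Equiv.ofBijective (fun t => ⟨Sum.inr (Sum.inl (t.1.1.1, t.1.1.2.2)),
      ?_, ?_⟩) ⟨?_, ?_⟩)
    · rw [Skel.adj_01]
      exact t.2.1.symm
    · rw [Skel.adj_12]
      exact ⟨t.1.1.2.1, t.1.2, t.2.2.2, t.2.2.1.symm⟩
    · rintro ⟨⟨⟨u1, j1, i1⟩, h1⟩, hu1, hv1, hx1⟩ ⟨⟨⟨u2, j2, i2⟩, h2⟩, hu2, hv2, hx2⟩ h
      simp only [Subtype.mk.injEq, Sum.inr.injEq, Sum.inl.injEq, Prod.mk.injEq] at h hv1 hv2 hu1 hu2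
      obtain ⟨rfl, rfl⟩ := h
      have := S.h_inj u1 (hv1.trans hv2.symm)
      subst this
      rfl
    · rintro ⟨w, hw1, hw2⟩
      have hw : part w = 1 := by
        rcases (S.fat x).parts _ _ hw1 with h | h | h | h
        · exact h.2
        · simp [part] at h
        · simp [part] at h
        · simp [part] at h
      obtain ⟨u', i, rfl⟩ := Skel.part1 hw
      rw [Skel.adj_01] at hw1
      subst hw1
      rw [Skel.adj_12] at hw2
      obtain ⟨j, hj, hx, rfl⟩ := hw2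
      exact ⟨⟨⟨(u, j, i), hj⟩, rfl, rfl, hx⟩, rfl⟩
  change ((_ ∧ _) ∨ _) ∧ _ ↔ _
  constructor
  · rintro ⟨_, h⟩
    rw [← hcard]
    exact h
  · intro h
    refine ⟨Or.inl ⟨rfl, rfl⟩, ?_⟩
    rw [← hcard] at h
    exact h

theorem Skel.ends_inj {n m d k g : ℕ} (S : Skel n m d k g) :
    Function.Injective (fun t : S.Bit => s((S.ends t).1, (S.ends t).2)) := by
  rintro ⟨⟨u1, j1, i1⟩, h1⟩ ⟨⟨u2, j2, i2⟩, h2⟩ h
  simp only [Skel.ends, Sym2.eq_iff, Sum.inr.injEq, Sum.inl.injEq, Prod.mk.injEq, reduceCtorEq,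
    false_and, or_false] at h
  obtain ⟨⟨rfl, rfl⟩, h⟩ := h
  have := S.h_inj u1 h
  subst this
  rfl

theorem Fat.K22Free_parity {V : Type} {G : SimpleGraph V} {p : V → Fin 3} {g : ℕ} (hg : 4 ≤ g) (h : Fat G p g) :
    K22Free (parityGraph G p) := by
  have key : ∀ a b, (parityGraph G p).Adj a b → PairAdj G p a.1 b.1 := by
    rintro a b ⟨h0, h1⟩
    refine ⟨h0, ?_⟩
    have hne : Nonempty {w : V // G.Adj a w ∧ G.Adj w b} := by
      by_contra hcon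
      rw [not_nonempty_iff] at hcon
      simp at h1
    obtain ⟨w, hw1, hw2⟩ := hne
    refine ⟨w, ?_, hw1, hw2⟩
    rcases h.parts _ _ hw1 with h' | h' | h' | h'
    · exact h'.2
    · exact absurd h'.1 a.2
    · exact absurd h'.1 a.2
    · exact h'.2
  intro a b x y hab hax hbx hay hby
  by_contra hxy
  refine h.pair 4 (by norm_num) hg (fun i => if i = 0 then a.1 else if i = 1 then x.1 else
    if i = 2 then b.1 else y.1) ?_ ?_ ?_
  · have e1 : a.1 ≠ x.1 := fun h => hax.ne (Subtype.ext h)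
    have e2 : a.1 ≠ b.1 := fun h => hab (Subtype.ext h)
    have e3 : a.1 ≠ y.1 := fun h => hay.ne (Subtype.ext h)
    have e4 : x.1 ≠ b.1 := fun h => hbx.ne (Subtype.ext h).symm
    have e5 : x.1 ≠ y.1 := fun h => hxy (Subtype.ext h)
    have e6 : b.1 ≠ y.1 := fun h => hby.ne (Subtype.ext h)
    intro i hi j hj
    interval_cases i <;> interval_cases j <;> simp [e1, e2, e3, e4, e5, e6, e1.symm, e2.symm,
      e3.symm, e4.symm, e5.symm, e6.symm]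
  · intro i hi
    have hi' : i < 3 := by omega
    interval_cases i
    · exact key _ _ hax
    · exact key _ _ hbx.symm
    · exact key _ _ hby
  · exact key _ _ hay.symm

end Pool.Agent.NH88.FM
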