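import Pool.Agent.NH88.FM.PieceA
import Pool.Agent.NH88.FM.SkelEx
import Pool.Agent.NH88.FM.SkelFat

/-!
# Claim A
-/

namespace Pool.Agent.NH88.FM

open Classical

theorem block_card {n m d k g : ℕ} (S : Skel n m d k g) (uj : Fin n × Fin d) :
    (Finset.univ.filter fun t : S.Bit => (t.1.1, t.1.2.1) = uj).card = k := by
  obtain ⟨u, j⟩ := uj
  refine Eq.trans ?_ (S.κ_card j)
  refine Finset.card_bij' (fun t _ => t.1.2.2) (fun i hi => ⟨(u, j, i), hi⟩) ?_ ?_ ?_ ?_
  · intro t ht
    simp only [Finset.mem_filter, Finset.mem_univ, true_and, Prod.mk.injEq] at ht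
    have := t.2
    rw [ht.2] at this
    exact this
  · intro i hi
    simp
  · intro t ht
    simp only [Finset.mem_filter, Finset.mem_univ, true_and, Prod.mk.injEq] at ht
    apply Subtype.ext
    exact Prod.ext ht.1.symm (Prod.ext ht.2.symm rfl)
  · intro i hi
    rfl

/-- The block of a bit. -/
abbrev blk {n m d k g : ℕ} (S : Skel n m d k g) (t : S.Bit) : Fin n × Fin d := (t.1.1, t.1.2.1)

/-- The left vertex of a pair. -/
abbrev lv {n m d : ℕ} (j : Fin n × Fin d) : {v : SV n m // part v ≠ 1} :=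
  ⟨Sum.inl j.1, by simp [part]⟩

/-- The right vertex of a pair. -/
abbrev rv {n m d k g : ℕ} (S : Skel n m d k g) (j : Fin n × Fin d) :
    {v : SV n m // part v ≠ 1} :=
  ⟨Sum.inr (Sum.inr (S.h j.1 j.2)), by simp [part]⟩

theorem hpar {n m d k g : ℕ} (S : Skel n m d k g) (x : S.Bit → Bool) (j : Fin n × Fin d) :
    par (blk S) j x ↔ (parityGraph (S.Gx x) part).Adj (lv j) (rv S j) := by
  rw [S.parity_adj]
  unfold par
  rw [Nat.card_eq_fintype_card, Fintype.card_subtype]
  refine iff_of_eq (congrArg (· % 2 = 1) (congrArg Finset.card ?_))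
  ext t
  simp only [Finset.mem_filter, Finset.mem_univ, true_and]
  constructor
  · rintro ⟨h1, h2⟩
    rw [← h1]
    exact ⟨rfl, rfl, h2⟩
  · rintro ⟨h1, h2, h3⟩
    rw [h1] at h2
    exact ⟨Prod.ext h1 (S.h_inj _ h2), h3⟩

theorem claimA : ClaimA := by
  intro m T hT c g N
  obtain ⟨e, he⟩ := pieceA T.eta hT.2
  obtain ⟨a, ha⟩ := exists_skel g e
  obtain ⟨C, q0, hC⟩ := he a c
  obtain ⟨q1, hq1⟩ := ha C
  set q := max (max q0 q1) (N + 1) with hq
  have hq0 : q0 ≤ q := le_trans (le_max_left _ _) (le_max_left _ _)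
  have hq1' : q1 ≤ q := le_trans (le_max_right _ _) (le_max_left _ _)
  have hqN : N + 1 ≤ q := le_max_right _ _
  obtain ⟨n, M', d, hn, hm, hd, hna, hCE, ⟨S⟩⟩ := hq1 q hq1'
  have hcardV : Fintype.card (SV n M') = n * (M' + 2) := by
    simp only [SV, Fintype.card_sum, Fintype.card_prod, Fintype.card_fin]
    ring
  have hnpos : 1 ≤ n := by omega
  have hdn : d ≤ n := by
    have := Fintype.card_le_of_injective _ (S.h_inj ⟨0, hnpos⟩)
    simpa using this
  have hM1 : 1 ≤ Fintype.card (SV n M') := by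
    rw [hcardV]; exact Nat.mul_pos hnpos (by omega)
  have hnM : n ≤ Fintype.card (SV n M') := by
    rw [hcardV]; exact Nat.le_mul_of_pos_right _ (by omega)
  obtain ⟨x, hx1, hx2⟩ := hC q hq0 (SV n M') S.Bit (Fin n × Fin d)
    {v : SV n M' // part v ≠ 1} S.G0 S.ends S.ends_inj (blk S) lv (rv S)
    hM1 (by rw [hcardV]; exact hna)
    (Fintype.card_subtype_le _)
    (by
      rw [Fintype.card_prod, Fintype.card_fin, Fintype.card_fin, pow_two]
      exact Nat.mul_le_mul hnM (le_trans hdn hnM))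
    (fun j => by
      refine le_of_eq (Eq.trans (block_card S j).symm (congrArg Finset.card ?_))
      ext t
      simp only [Finset.mem_filter, Finset.mem_univ, true_and])
    (by
      rw [hcardV, Fintype.card_prod, Fintype.card_fin, Fintype.card_fin]
      exact hCE)
  refine ⟨SV n M', inferInstance, S.Gx x, part, S.fat x, ?_, ?_, ?_⟩
  · -- many vertices
    have : Fintype.card (Fin n) ≤ Fintype.card {v : SV n M' // part v ≠ 1} :=
      Fintype.card_le_of_injective (fun u => ⟨Sum.inl u, by simp [part]⟩) (by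
        intro u v h
        have := congrArg Subtype.val h
        exact Sum.inl.inj this)
    rw [Nat.card_eq_fintype_card]
    rw [Fintype.card_fin] at this
    omega
  · -- many edges
    have h1 : Nat.card {v : SV n M' // part v ≠ 1} ≤ Fintype.card (SV n M') := by
      rw [Nat.card_eq_fintype_card]
      exact Fintype.card_subtype_le _
    refine lt_of_le_of_lt (Nat.mul_le_mul_left _ h1) (lt_of_lt_of_le hx2 ?_)
    rw [Nat.card_eq_fintype_card, ← Fintype.card_subtype]
    refine Fintype.card_le_of_injective (fun j => ⟨s(lv j.1, rv S j.1),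
      (hpar S x j.1).1 j.2⟩) ?_
    intro j j' h
    have h' : s(lv (m := M') j.1, rv S j.1) = s(lv j'.1, rv S j'.1) := congrArg Subtype.val h
    rw [Sym2.eq_iff] at h'
    rcases h' with ⟨h1, h2⟩ | ⟨h1, h2⟩
    · have h3 := Sum.inl.inj (congrArg Subtype.val h1)
      have h4 := Sum.inr.inj (Sum.inr.inj (congrArg Subtype.val h2))
      apply Subtype.ext
      rw [h3] at h4
      exact Prod.ext h3 (S.h_inj _ h4)
    · have h3 := congrArg Subtype.val h1
      exact absurd h3 Sum.inl_ne_inr
  · -- not given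
    rintro ⟨U, ⟨φ⟩⟩
    obtain ⟨j, hj⟩ := hx1 U (fun y => (φ y).1)
    refine hj ?_
    rw [hpar S x j, ← φ.map_adj_iff]
    constructor
    · rintro ⟨h1, h2⟩
      refine ⟨?_, h1, h2⟩
      intro h
      have := congrArg Subtype.val (φ.injective h)
      exact absurd this Sum.inl_ne_inr
    · rintro ⟨_, h1, h2⟩
      exact ⟨h1, h2⟩

end Pool.Agent.NH88.FM
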