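import Pool.Agent.NH88.FM.BDefs

/-!
# Claim B from the three statements
-/

namespace Pool.Agent.NH88.FM

open Filter

/-- A graph all whose nonempty induced subgraphs have a vertex of degree at most `c` has at most
`c` times as many edges as vertices. -/
theorem card_edges_le {W : Type} [Fintype W] [DecidableEq W] (D : SimpleGraph W)
    [DecidableRel D.Adj] (c : ℕ)
    (h : ∀ A : Finset W, A.Nonempty → ∃ w ∈ A, (A.filter (fun w' => D.Adj w w')).card ≤ c) :
    D.edgeFinset.card ≤ c * Fintype.card W := by
  have key : ∀ (k : ℕ) (A : Finset W), A.card = k →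
      (D.edgeFinset.filter (fun e => ∀ v ∈ e, v ∈ A)).card ≤ c * k := by
    intro k
    induction k with
    | zero =>
      intro A hA
      rw [Finset.card_eq_zero] at hA
      subst hA
      rw [mul_zero, Nat.le_zero, Finset.card_eq_zero, Finset.filter_eq_empty_iff]
      intro e _ he
      induction e using Sym2.ind with
      | _ a b => exact absurd (he a (Sym2.mem_mk_left a b)) (Finset.notMem_empty a)
    | succ k ih =>
      intro A hA
      obtain ⟨w, hw, hd⟩ := h A (Finset.card_pos.1 (by omega))
      have h1 := ih (A.erase w) (by rw [Finset.card_erase_of_mem hw, hA]; rfl)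
      have h2 : D.edgeFinset.filter (fun e => ∀ v ∈ e, v ∈ A) ⊆
          D.edgeFinset.filter (fun e => ∀ v ∈ e, v ∈ A.erase w) ∪
            (A.filter (fun w' => D.Adj w w')).image (fun w' => s(w, w')) := by
        intro e he
        obtain ⟨g1, g2⟩ := Finset.mem_filter.1 he
        by_cases hwe : w ∈ e
        · refine Finset.mem_union_right _ ?_
          obtain ⟨w', rfl⟩ := Sym2.mem_iff_exists.1 hwe
          rw [SimpleGraph.mem_edgeFinset, SimpleGraph.mem_edgeSet] at g1
          exact Finset.mem_image.2 ⟨w', Finset.mem_filter.2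
            ⟨g2 w' (Sym2.mem_mk_right w w'), g1⟩, rfl⟩
        · refine Finset.mem_union_left _ (Finset.mem_filter.2 ⟨g1, fun v hv => ?_⟩)
          refine Finset.mem_erase.2 ⟨?_, g2 v hv⟩
          rintro rfl
          exact hwe hv
      have h3 := Finset.card_le_card h2
      have h4 := Finset.card_union_le (D.edgeFinset.filter (fun e => ∀ v ∈ e, v ∈ A.erase w))
        ((A.filter (fun w' => D.Adj w w')).image (fun w' => s(w, w')))
      have h5 : ((A.filter (fun w' => D.Adj w w')).image (fun w' => s(w, w'))).card ≤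
        (A.filter (fun w' => D.Adj w w')).card := Finset.card_image_le
      rw [Nat.mul_succ]
      omega
  have h1 := key _ Finset.univ rfl
  have h2 : D.edgeFinset.filter (fun e => ∀ v ∈ e, v ∈ (Finset.univ : Finset W)) =
      D.edgeFinset := by
    rw [Finset.filter_eq_self]
    intro e _ v _
    exact Finset.mem_univ v
  rw [h2] at h1
  exact h1

theorem claimB_of (h1 : UltraStmt) (h2 : CutStmt) (h3 : SepStmt) : ClaimB := by
  classical
  intro m T hT
  obtain ⟨τ, hτ⟩ := h2 m T.eta hT.2
  refine ⟨2 * (τ + 1) + 2, ?_⟩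
  intro W hW D hD hcard
  by_contra hcon
  push Not at hcon
  choose V G p hFat hG using hcon
  choose U he using hG
  have e : ∀ n, D ≃g T.out (G n) (U n) := fun n => Classical.choice (he n)
  have hWne : Nonempty W := by
    by_contra hemp
    rw [not_nonempty_iff] at hemp
    have : Nat.card D.edgeSet = 0 := by
      rw [Nat.card_eq_zero]
      left
      refine ⟨fun e => ?_⟩
      obtain ⟨e, he⟩ := e
      induction e using Sym2.ind with
      | _ a b => exact hemp.elim a
    omega
  obtain ⟨w0⟩ := hWne
  have hne : ∀ n, Nonempty (V n) := fun n => ⟨(e n w0).1⟩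
  obtain ⟨V', H, r, U', ι, 𝓤, hF, hι, hlos⟩ := h1 m V hne G p U hFat
  let sq : W → (∀ n, V n) := fun w n => (e n w).1
  let x : W → V' := fun w => ι (sq w)
  have hx : Function.Injective x := by
    intro w w' hww
    obtain ⟨n, hn⟩ := ((hι _ _).1 hww).exists
    exact (e n).injective (Subtype.ext hn)
  have hsat : ∀ w w', Sat H U' T.eta ![x w, x w'] ↔
      ∀ᶠ n in (𝓤 : Filter ℕ), Sat (G n) (U n) T.eta ![(e n w).1, (e n w').1] := by
    intro w w'
    have h4 := hlos 2 T.eta hT.2 ![sq w, sq w']
    have h5 : (fun i => ι ((![sq w, sq w'] : Fin 2 → (∀ n, V n)) i)) = ![x w, x w'] := by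
      funext i
      fin_cases i <;> rfl
    have h6 : ∀ n, (fun i => (![sq w, sq w'] : Fin 2 → (∀ n, V n)) i n) =
        ![(e n w).1, (e n w').1] := by
      intro n
      funext i
      fin_cases i <;> rfl
    rw [h5] at h4
    simp only [h6] at h4
    exact h4
  have hadj : ∀ w w', w ≠ w' → (D.Adj w w' ↔
      Sat H U' T.eta ![x w, x w'] ∧ Sat H U' T.eta ![x w', x w]) := by
    intro w w' hne'
    have h4 : ∀ n, D.Adj w w' ↔ (Sat (G n) (U n) T.eta ![(e n w).1, (e n w').1] ∧
        Sat (G n) (U n) T.eta ![(e n w').1, (e n w).1]) := by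
      intro n
      rw [← (e n).map_adj_iff]
      constructor
      · exact fun h => h.2
      · exact fun h => ⟨fun h' => hne' ((e n).injective h'), h⟩
    rw [hsat, hsat, ← eventually_and]
    constructor
    · exact fun h => Eventually.of_forall fun n => (h4 n).1 h
    · intro h
      obtain ⟨n, hn⟩ := h.exists
      exact (h4 n).2 hn
  have hfin : Fintype W := Fintype.ofFinite W
  have hsparse : ∀ A : Finset W, A.Nonempty →
      ∃ w ∈ A, (A.filter (fun w' => D.Adj w w')).card ≤ 2 * (τ + 1) + 2 := by
    intro A hA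
    by_cases hsmall : A.card ≤ 2 * (τ + 1)
    · obtain ⟨w, hw⟩ := hA
      exact ⟨w, hw, (Finset.card_filter_le _ _).trans (by omega)⟩
    · have hSc : (x '' (A : Set W)).ncard = A.card := by
        rw [Set.ncard_image_of_injective _ hx, Set.ncard_coe_finset]
      obtain ⟨z1, z2, X, g1, g2, g3, g4, g5⟩ := h3 V' H r hF (x '' (A : Set W))
        (A.finite_toSet.image x) (τ + 1) (by omega) (by omega)
      obtain ⟨α, hα⟩ := hτ V' H U' z1 z2 X g1 g2 g5
      have hAX : ((A.filter (fun w => x w ∈ X)) : Finset W).card =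
          (X ∩ x '' (A : Set W)).ncard := by
        have : X ∩ x '' (A : Set W) = x '' ((A.filter (fun w => x w ∈ X) : Finset W) : Set W) := by
          ext v
          simp only [Set.mem_inter_iff, Set.mem_image, Finset.coe_filter, Finset.mem_coe,
            Set.mem_ofPred_eq]
          constructor
          · rintro ⟨hv, w, hw, rfl⟩
            exact ⟨w, ⟨hw, hv⟩, rfl⟩
          · rintro ⟨w, ⟨hw, hv⟩, rfl⟩
            exact ⟨hv, w, hw, rfl⟩
        rw [this, Set.ncard_image_of_injective _ hx, Set.ncard_coe_finset]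
      obtain ⟨a, ha, a', ha', haa, hαa⟩ := Finset.exists_ne_map_eq_of_card_lt_of_maps_to
        (s := A.filter (fun w => x w ∈ X)) (t := (Finset.univ : Finset (Fin τ)))
        (f := fun w => α (x w)) (by
          rw [Finset.card_univ, Fintype.card_fin, hAX]
          omega) (fun _ _ => Finset.mem_coe.2 (Finset.mem_univ _))
      obtain ⟨haA, haX⟩ := Finset.mem_filter.1 ha
      obtain ⟨_, haX'⟩ := Finset.mem_filter.1 ha'
      refine ⟨a, haA, ?_⟩
      have hout : ∀ y, x y ∉ X → D.Adj a y → D.Adj a' y := by
        intro y hy hay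
        have hne1 : a ≠ y := by
          rintro rfl
          exact hy haX
        have hne2 : a' ≠ y := by
          rintro rfl
          exact hy haX'
        rw [hadj a y hne1] at hay
        rw [hadj a' y hne2]
        have h4 := hα (x a) haX (x a') haX' hαa (x y) hy
        exact ⟨h4.1.1 hay.1, h4.2.1 hay.2⟩
      have hcover : A.filter (fun w' => D.Adj a w') ⊆ A.filter (fun w => x w ∈ X) ∪
          A.filter (fun y => x y ∉ X ∧ D.Adj a y) := by
        intro y hy
        obtain ⟨h4, h5⟩ := Finset.mem_filter.1 hy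
        by_cases h6 : x y ∈ X
        · exact Finset.mem_union_left _ (Finset.mem_filter.2 ⟨h4, h6⟩)
        · exact Finset.mem_union_right _ (Finset.mem_filter.2 ⟨h4, h6, h5⟩)
      have hone : (A.filter (fun y => x y ∉ X ∧ D.Adj a y)).card ≤ 1 := by
        rw [Finset.card_le_one]
        intro y hy y' hy'
        obtain ⟨_, h4, h5⟩ := Finset.mem_filter.1 hy
        obtain ⟨_, h4', h5'⟩ := Finset.mem_filter.1 hy'
        exact hD a a' y y' haa h5 (hout y h4 h5) h5' (hout y' h4' h5')
      have h6 := Finset.card_le_card hcover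
      have h7 := Finset.card_union_le (A.filter (fun w => x w ∈ X))
        (A.filter (fun y => x y ∉ X ∧ D.Adj a y))
      omega
  have h4 := card_edges_le D _ hsparse
  have h5 : Nat.card D.edgeSet = D.edgeFinset.card := by
    rw [Nat.card_eq_fintype_card, SimpleGraph.edgeFinset_card]
  rw [h5, Nat.card_eq_fintype_card] at hcard
  omega

end Pool.Agent.NH88.FM
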