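import Pool.Agent.NH88.FM.Step

/-!
# Counting: shallow decision trees against parities
-/

namespace Pool.Agent.NH88.FM

open Classical

variable {I : Type} [Fintype I]

/-- Completion of a restriction. -/
def fill (ρ : Restr I) (x : I → Bool) : I → Bool := fun i => (ρ i).getD (x i)

omit [Fintype I] in
theorem fill_cube (ρ : Restr I) (x : I → Bool) : InCube ρ (fill ρ x) := by
  intro i b h; simp [fill, h]

/-- Number of points with the property after completion. -/
noncomputable def Nc (ρ : Restr I) (P : (I → Bool) → Prop) : ℕ :=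
  (Finset.univ.filter fun x : I → Bool => P (fill ρ x)).card

theorem Nc_mono {ρ : Restr I} {P Q : (I → Bool) → Prop} (h : ∀ x, InCube ρ x → P x → Q x) :
    Nc ρ P ≤ Nc ρ Q := by
  refine Finset.card_le_card fun x hx => ?_
  simp only [Finset.mem_filter, Finset.mem_univ, true_and] at hx ⊢
  exact h _ (fill_cube ρ x) hx

theorem Nc_le (ρ : Restr I) (P : (I → Bool) → Prop) : Nc ρ P ≤ 2 ^ Fintype.card I := by
  refine (Finset.card_filter_le _ _).trans ?_
  simp

theorem half_card {i : I} (b : Bool) {Q : (I → Bool) → Prop}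
    (hQ : ∀ x y : I → Bool, (∀ j, j ≠ i → x j = y j) → (Q x ↔ Q y)) :
    2 * (Finset.univ.filter fun x : I → Bool => x i = b ∧ Q x).card =
      (Finset.univ.filter fun x : I → Bool => Q x).card := by
  have h1 := Finset.card_filter_add_card_filter_not
    (s := Finset.univ.filter fun x : I → Bool => Q x) (fun x => x i = b)
  rw [Finset.filter_filter, Finset.filter_filter] at h1
  have h2 : (Finset.univ.filter fun x : I → Bool => Q x ∧ ¬ x i = b).card =
      (Finset.univ.filter fun x : I → Bool => Q x ∧ x i = b).card := by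
    refine Finset.card_bij' (fun x _ => Function.update x i b)
      (fun x _ => Function.update x i (!b)) ?_ ?_ ?_ ?_
    · intro x hx
      simp only [Finset.mem_filter, Finset.mem_univ, true_and] at hx ⊢
      refine ⟨(hQ _ _ fun j hj => by simp [Function.update_of_ne hj]).1 hx.1, by simp⟩
    · intro x hx
      simp only [Finset.mem_filter, Finset.mem_univ, true_and] at hx ⊢
      refine ⟨(hQ _ _ fun j hj => by simp [Function.update_of_ne hj]).1 hx.1, by simp⟩
    · intro x hx
      simp only [Finset.mem_filter, Finset.mem_univ, true_and] at hx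
      funext j
      by_cases hj : j = i
      · subst hj
        have := bool_ne hx.2
        simp [this]
      · simp [Function.update_of_ne hj]
    · intro x hx
      simp only [Finset.mem_filter, Finset.mem_univ, true_and] at hx
      funext j
      by_cases hj : j = i
      · subst hj
        simp [hx.2]
      · simp [Function.update_of_ne hj]
  have h3 : (Finset.univ.filter fun x : I → Bool => x i = b ∧ Q x) =
      (Finset.univ.filter fun x : I → Bool => Q x ∧ x i = b) := by
    ext x; simp [and_comm]
  rw [h3]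
  omega

theorem Nc_split {ρ : Restr I} {i : I} (hi : ρ i = none) (P : (I → Bool) → Prop) :
    2 * Nc ρ P = Nc (upd ρ i false) P + Nc (upd ρ i true) P := by
  have hf : ∀ (b : Bool) (x : I → Bool), x i = b → fill ρ x = fill (upd ρ i b) x := by
    intro b x hx
    funext j
    by_cases hj : j = i
    · subst hj; simp [fill, hi, upd_self, hx]
    · simp [fill, upd_of_ne _ _ hj]
  have hind : ∀ (b : Bool) (x y : I → Bool), (∀ j, j ≠ i → x j = y j) →
      (P (fill (upd ρ i b) x) ↔ P (fill (upd ρ i b) y)) := by
    intro b x y hxy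
    have : fill (upd ρ i b) x = fill (upd ρ i b) y := by
      funext j
      by_cases hj : j = i
      · subst hj; simp [fill, upd_self]
      · simp [fill, upd_of_ne _ _ hj, hxy j hj]
    rw [this]
  have h0 := half_card (i := i) false (hind false)
  have h1 := half_card (i := i) true (hind true)
  have h2 : Nc ρ P =
      (Finset.univ.filter fun x : I → Bool => x i = false ∧ P (fill (upd ρ i false) x)).card +
      (Finset.univ.filter fun x : I → Bool => x i = true ∧ P (fill (upd ρ i true) x)).card := by
    rw [← Finset.card_union_of_disjoint]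
    · unfold Nc
      congr 1
      ext x
      simp only [Finset.mem_filter, Finset.mem_univ, true_and, Finset.mem_union]
      rcases hb : x i with _ | _
      · rw [hf false x hb]; simp
      · rw [hf true x hb]; simp
    · rw [Finset.disjoint_left]
      intro x h1 h2
      simp only [Finset.mem_filter, Finset.mem_univ, true_and] at h1 h2
      rw [h1.1] at h2; cases h2.1
  unfold Nc at h2 ⊢
  rw [h2, ← h0, ← h1]
  ring

variable {E : Type} (blk : I → E)

/-- Parity of a block. -/
def par (e : E) (x : I → Bool) : Prop :=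
  (Finset.univ.filter fun i => blk i = e ∧ x i = true).card % 2 = 1

omit [Fintype I] in
theorem nfree_upd_of_ne [Fintype I] {ρ : Restr I} {i : I} {b : Bool} {e : E} (h : blk i ≠ e) :
    nfree blk e (upd ρ i b) = nfree blk e ρ := by
  unfold nfree
  congr 1
  ext j
  simp only [Finset.mem_filter, Finset.mem_univ, true_and]
  refine and_congr_right fun hj => ?_
  have : j ≠ i := by rintro rfl; exact h hj
  rw [upd_of_ne _ _ this]

theorem nfree_upd_of_eq {ρ : Restr I} {i : I} {b : Bool} {e : E} (h : blk i = e)
    (hi : ρ i = none) : nfree blk e (upd ρ i b) + 1 = nfree blk e ρ := by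
  unfold nfree
  have : (Finset.univ.filter fun j => blk j = e ∧ upd ρ i b j = none) =
      (Finset.univ.filter fun j => blk j = e ∧ ρ j = none).erase i := by
    ext j
    simp only [Finset.mem_filter, Finset.mem_univ, true_and, Finset.mem_erase]
    by_cases hj : j = i
    · subst hj; simp [upd_self]
    · rw [upd_of_ne _ _ hj]; simp [hj]
  rw [this, Finset.card_erase_add_one]
  simp [h, hi]

theorem nfree_upd_le {ρ : Restr I} {i : I} {b : Bool} {e : E} (hi : ρ i = none) :
    nfree blk e ρ ≤ nfree blk e (upd ρ i b) + 1 := by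
  by_cases h : blk i = e
  · exact (nfree_upd_of_eq blk h hi).ge
  · rw [nfree_upd_of_ne blk h]; omega

theorem avg_le {a b c k T : ℕ} (h : 2 * a = b + c) (hb : b * k ≤ T) (hc : c * k ≤ T) :
    a * k ≤ T := by
  have : 2 * (a * k) = b * k + c * k := by rw [← mul_assoc, h, add_mul]
  omega

/-- The case of a constant function. -/
theorem cst_case {l r : ℕ} {H : E → (I → Bool) → Prop}
    (hr : ∀ (ρ : Restr I) (E' : Finset E), r * (l + 1) ≤ E'.card →
      (∀ e ∈ E', l + 1 ≤ nfree blk e ρ ∧ DT (H e) l ρ) →
      Nc ρ (fun x => ∀ e ∈ E', (H e x ↔ par blk e x)) * 2 ^ r ≤ 2 ^ Fintype.card I) (e0 : E)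
    (E' : Finset E) (he0 : e0 ∉ E') (hE' : r * (l + 1) ≤ E'.card) :
    ∀ (s : ℕ) (ρ : Restr I), nfree blk e0 ρ = s + 1 → Cst (H e0) ρ →
      (∀ e ∈ E', l + 1 ≤ nfree blk e ρ ∧ DT (H e) l ρ) →
      Nc ρ (fun x => (H e0 x ↔ par blk e0 x) ∧ ∀ e ∈ E', (H e x ↔ par blk e x)) * 2 ^ (r + 1) ≤
        2 ^ Fintype.card I := by
  intro s
  induction s with
  | zero =>
    intro ρ hs hc hE
    have hcard : (Finset.univ.filter fun i => blk i = e0 ∧ ρ i = none).card = 1 := hs
    obtain ⟨i, hi⟩ := Finset.card_eq_one.1 hcard
    have hi1 : blk i = e0 ∧ ρ i = none := by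
      have : i ∈ (Finset.univ.filter fun i => blk i = e0 ∧ ρ i = none) := by rw [hi]; simp
      simpa using this
    have hothers : ∀ j, blk j = e0 → j ≠ i → ∃ b, ρ j = some b := by
      intro j hj hne
      rcases h : ρ j with _ | b
      · have : j ∈ (Finset.univ.filter fun i => blk i = e0 ∧ ρ i = none) := by simp [hj, h]
        rw [hi] at this
        exact absurd (Finset.mem_singleton.1 this) hne
      · exact ⟨b, rfl⟩
    set P : (I → Bool) → Prop :=
      fun x => (H e0 x ↔ par blk e0 x) ∧ ∀ e ∈ E', (H e x ↔ par blk e x) with hP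
    have hzero : Nc (upd ρ i false) P = 0 ∨ Nc (upd ρ i true) P = 0 := by
      by_contra hcon
      push Not at hcon
      obtain ⟨h1, h2⟩ := hcon
      obtain ⟨x, hx⟩ := Finset.card_pos.1 (Nat.pos_of_ne_zero h1)
      obtain ⟨y, hy⟩ := Finset.card_pos.1 (Nat.pos_of_ne_zero h2)
      simp only [Finset.mem_filter, Finset.mem_univ, true_and] at hx hy
      have hx1 : InCube (upd ρ i false) (fill (upd ρ i false) x) := fill_cube _ _
      have hy1 : InCube (upd ρ i true) (fill (upd ρ i true) y) := fill_cube _ _
      have hx2 := (refines_upd hi1.2 false).cube hx1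
      have hy2 := (refines_upd hi1.2 true).cube hy1
      have hH : H e0 (fill (upd ρ i false) x) ↔ H e0 (fill (upd ρ i true) y) := by
        rcases hc with hc | hc
        · exact ⟨fun _ => hc _ hy2, fun _ => hc _ hx2⟩
        · exact ⟨fun h => absurd h (hc _ hx2), fun h => absurd h (hc _ hy2)⟩
      have hpar : par blk e0 (fill (upd ρ i false) x) ↔ par blk e0 (fill (upd ρ i true) y) := by
        rw [← hx.1, ← hy.1, hH]
      have hset : (Finset.univ.filter fun j => blk j = e0 ∧ fill (upd ρ i true) y j = true) =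
          insert i (Finset.univ.filter fun j => blk j = e0 ∧
            fill (upd ρ i false) x j = true) := by
        ext j
        simp only [Finset.mem_filter, Finset.mem_univ, true_and, Finset.mem_insert]
        by_cases hj : j = i
        · subst hj
          simp [hi1.1, fill, upd_self]
        · simp only [hj, false_or]
          refine and_congr_right fun hje => ?_
          obtain ⟨b, hb⟩ := hothers j hje hj
          rw [hx2 j b hb, hy2 j b hb]
      have hnot : i ∉ (Finset.univ.filter fun j => blk j = e0 ∧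
            fill (upd ρ i false) x j = true) := by
        intro h
        have h3 := (Finset.mem_filter.1 h).2.2
        rw [hx1 i false (upd_self _ _ _)] at h3
        cases h3
      unfold par at hpar
      rw [hset, Finset.card_insert_of_notMem hnot] at hpar
      omega
    have hsplit := Nc_split hi1.2 P
    have hb : ∀ b, Nc (upd ρ i b) P * 2 ^ r ≤ 2 ^ Fintype.card I := by
      intro b
      refine le_trans (Nat.mul_le_mul_right _ (Nc_mono fun x _ hx => hx.2)) (hr (upd ρ i b) E' hE' ?_)
      intro e he
      have hne : blk i ≠ e := by rw [hi1.1]; rintro rfl; exact he0 he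
      rw [nfree_upd_of_ne blk hne]
      exact ⟨(hE e he).1, (hE e he).2.refine (refines_upd hi1.2 b)⟩
    have h0 := hb false
    have h1 := hb true
    rw [pow_succ]
    rcases hzero with hz | hz
    · rw [hz] at hsplit
      calc Nc ρ P * (2 ^ r * 2) = (2 * Nc ρ P) * 2 ^ r := by ring
        _ = Nc (upd ρ i true) P * 2 ^ r := by rw [hsplit, Nat.zero_add]
        _ ≤ _ := h1
    · rw [hz] at hsplit
      calc Nc ρ P * (2 ^ r * 2) = (2 * Nc ρ P) * 2 ^ r := by ring
        _ = Nc (upd ρ i false) P * 2 ^ r := by rw [hsplit, Nat.add_zero]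
        _ ≤ _ := h0
  | succ s ih =>
    intro ρ hs hc hE
    have hpos : 0 < (Finset.univ.filter fun i => blk i = e0 ∧ ρ i = none).card := by
      have : nfree blk e0 ρ = (Finset.univ.filter fun i => blk i = e0 ∧ ρ i = none).card := rfl
      omega
    obtain ⟨i, hi⟩ := Finset.card_pos.1 hpos
    simp only [Finset.mem_filter, Finset.mem_univ, true_and] at hi
    have hsplit := Nc_split hi.2
      (fun x => (H e0 x ↔ par blk e0 x) ∧ ∀ e ∈ E', (H e x ↔ par blk e x))
    have hb : ∀ b, Nc (upd ρ i b)
        (fun x => (H e0 x ↔ par blk e0 x) ∧ ∀ e ∈ E', (H e x ↔ par blk e x)) * 2 ^ (r + 1) ≤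
        2 ^ Fintype.card I := by
      intro b
      refine ih (upd ρ i b) ?_ (hc.refine (refines_upd hi.2 b)) ?_
      · have := nfree_upd_of_eq blk (b := b) hi.1 hi.2
        omega
      · intro e he
        have hne : blk i ≠ e := by rw [hi.1]; rintro rfl; exact he0 he
        rw [nfree_upd_of_ne blk hne]
        exact ⟨(hE e he).1, (hE e he).2.refine (refines_upd hi.2 b)⟩
    have h0 := hb false
    have h1 := hb true
    exact avg_le hsplit h0 h1

theorem tree_case {l r : ℕ} {H : E → (I → Bool) → Prop}
    (hr : ∀ (ρ : Restr I) (E' : Finset E), r * (l + 1) ≤ E'.card →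
      (∀ e ∈ E', l + 1 ≤ nfree blk e ρ ∧ DT (H e) l ρ) →
      Nc ρ (fun x => ∀ e ∈ E', (H e x ↔ par blk e x)) * 2 ^ r ≤ 2 ^ Fintype.card I) (e0 : E) :
    ∀ (d : ℕ) (ρ : Restr I) (E' : Finset E), e0 ∉ E' → r * (l + 1) + d ≤ E'.card →
      d + 1 ≤ nfree blk e0 ρ → DT (H e0) d ρ →
      (∀ e ∈ E', l + 1 ≤ nfree blk e ρ ∧ DT (H e) l ρ) →
      Nc ρ (fun x => (H e0 x ↔ par blk e0 x) ∧ ∀ e ∈ E', (H e x ↔ par blk e x)) * 2 ^ (r + 1) ≤
        2 ^ Fintype.card I := by
  intro d
  induction d with
  | zero =>
    intro ρ E' he0 hE' hf hc hE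
    obtain ⟨s, hs⟩ : ∃ s, nfree blk e0 ρ = s + 1 := ⟨nfree blk e0 ρ - 1, by omega⟩
    exact cst_case blk hr e0 E' he0 (by omega) s ρ hs hc hE
  | succ d ih =>
    intro ρ E' he0 hE' hf hc hE
    rcases hc with hc | ⟨i, hi, hc⟩
    · obtain ⟨s, hs⟩ : ∃ s, nfree blk e0 ρ = s + 1 := ⟨nfree blk e0 ρ - 1, by omega⟩
      exact cst_case blk hr e0 E' he0 (by omega) s ρ hs hc hE
    · have hsplit := Nc_split hi
        (fun x => (H e0 x ↔ par blk e0 x) ∧ ∀ e ∈ E', (H e x ↔ par blk e x))
      have hb : ∀ b, Nc (upd ρ i b)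
          (fun x => (H e0 x ↔ par blk e0 x) ∧ ∀ e ∈ E', (H e x ↔ par blk e x)) * 2 ^ (r + 1) ≤
          2 ^ Fintype.card I := by
        intro b
        refine le_trans (Nat.mul_le_mul_right _ (Nc_mono (Q := fun x =>
          (H e0 x ↔ par blk e0 x) ∧ ∀ e ∈ E'.erase (blk i), (H e x ↔ par blk e x))
          fun x _ hx => ⟨hx.1, fun e he => hx.2 e (Finset.mem_of_mem_erase he)⟩))
          (ih (upd ρ i b) (E'.erase (blk i)) (fun h => he0 (Finset.mem_of_mem_erase h)) ?_ ?_
            (hc b) ?_)
        · have := Finset.pred_card_le_card_erase (s := E') (a := blk i)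
          omega
        · have := nfree_upd_le blk (e := e0) (b := b) hi
          omega
        · intro e he
          have hne : blk i ≠ e := fun h => (Finset.ne_of_mem_erase he) h.symm
          rw [nfree_upd_of_ne blk hne]
          exact ⟨(hE e (Finset.mem_of_mem_erase he)).1,
            (hE e (Finset.mem_of_mem_erase he)).2.refine (refines_upd hi b)⟩
      have h0 := hb false
      have h1 := hb true
      exact avg_le hsplit h0 h1

/-- Shallow decision trees compute many parities with small probability. -/
theorem parity_count {l : ℕ} {H : E → (I → Bool) → Prop} : ∀ (r : ℕ) (ρ : Restr I)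
    (E' : Finset E), r * (l + 1) ≤ E'.card →
      (∀ e ∈ E', l + 1 ≤ nfree blk e ρ ∧ DT (H e) l ρ) →
      Nc ρ (fun x => ∀ e ∈ E', (H e x ↔ par blk e x)) * 2 ^ r ≤ 2 ^ Fintype.card I := by
  intro r
  induction r with
  | zero => intro ρ E' _ _; rw [pow_zero, mul_one]; exact Nc_le _ _
  | succ r ih =>
    intro ρ E' hcard hE
    have hpos : 0 < E'.card := lt_of_lt_of_le (by positivity) hcard
    obtain ⟨e0, he0⟩ := Finset.card_pos.1 hpos
    have h := tree_case blk ih e0 l ρ (E'.erase e0) (Finset.notMem_erase _ _) (by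
      rw [Finset.card_erase_of_mem he0]
      have : (r + 1) * (l + 1) = r * (l + 1) + l + 1 := by ring
      omega) (hE e0 he0).1 (hE e0 he0).2 (fun e he => hE e (Finset.mem_of_mem_erase he))
    refine le_trans (Nat.mul_le_mul_right _ (Nc_mono fun x _ hx => ?_)) h
    exact ⟨hx e0 he0, fun e he => hx e (Finset.mem_of_mem_erase he)⟩

/-- The version with a common partial decision tree. -/
theorem parity_count_CT {l : ℕ} {H : E → (I → Bool) → Prop} (r : ℕ) : ∀ (t : ℕ) (ρ : Restr I)
    (E' : Finset E), CT H l t ρ → r * (l + 1) + t ≤ E'.card →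
      (∀ e ∈ E', l + 1 ≤ nfree blk e ρ) →
      Nc ρ (fun x => ∀ e ∈ E', (H e x ↔ par blk e x)) * 2 ^ r ≤ 2 ^ Fintype.card I := by
  intro t
  induction t with
  | zero =>
    intro ρ E' h hcard hE
    exact parity_count blk r ρ E' (by omega) fun e he => ⟨hE e he, h e⟩
  | succ t ih =>
    intro ρ E' h hcard hE
    rcases h with h | ⟨i, hi, h⟩
    · exact parity_count blk r ρ E' (by omega) fun e he => ⟨hE e he, h e⟩
    · have hsplit := Nc_split hi (fun x => ∀ e ∈ E', (H e x ↔ par blk e x))
      have hb : ∀ b, Nc (upd ρ i b) (fun x => ∀ e ∈ E', (H e x ↔ par blk e x)) * 2 ^ r ≤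
          2 ^ Fintype.card I := by
        intro b
        refine le_trans (Nat.mul_le_mul_right _ (Nc_mono (Q := fun x =>
          ∀ e ∈ E'.erase (blk i), (H e x ↔ par blk e x))
          fun x _ hx e he => hx e (Finset.mem_of_mem_erase he)))
          (ih (upd ρ i b) (E'.erase (blk i)) (h b) ?_ ?_)
        · have := Finset.pred_card_le_card_erase (s := E') (a := blk i)
          omega
        · intro e he
          have hne : blk i ≠ e := fun h => (Finset.ne_of_mem_erase he) h.symm
          rw [nfree_upd_of_ne blk hne]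
          exact hE e (Finset.mem_of_mem_erase he)
      have h0 := hb false
      have h1 := hb true
      exact avg_le hsplit h0 h1

end Pool.Agent.NH88.FM
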