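import Pool.Agent.NH88.FM.BDefs

/-!
# Finite index of first-order formulas across a cut of width two
-/

namespace Pool.Agent.NH88.FM

/-- The composition argument, by induction on the formula: for every pattern `P` of the coordinates
which lie in `X` there is a finite type of types of the part of the tuple in `X`. -/
theorem cut_aux {m : ℕ} {k : ℕ} (φ : Fml m k) (hφ : φ.IsFO) :
    ∀ P : Fin k → Prop, ∃ (T : Type) (_ : Finite T), ∀ (V : Type) (G : SimpleGraph V)
    (U : Fin m → Set V) (z1 z2 : V) (X : Set V), z1 ∉ X → z2 ∉ X →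
    (∀ x ∈ X, ∀ y, y ∉ X → G.Adj x y → y = z1 ∨ y = z2) →
    ∃ α : (Fin k → V) → T, (∀ v v' : Fin k → V, (∀ i, P i → v i = v' i) → α v = α v') ∧
      ∀ v v' : Fin k → V, (∀ i, v i ∈ X ↔ P i) → (∀ i, v' i ∈ X ↔ P i) →
        (∀ i, ¬ P i → v i = v' i) → α v = α v' → (Sat G U φ v ↔ Sat G U φ v') := by
  induction φ with
  | eq i j =>
    intro P
    refine ⟨Prop, inferInstance, fun V G U z1 z2 X _ _ _ =>
      ⟨fun v => P i ∧ P j ∧ v i = v j, ?_, ?_⟩⟩
    · intro v v' h
      refine propext ⟨fun ⟨h1, h2, h3⟩ => ⟨h1, h2, ?_⟩, fun ⟨h1, h2, h3⟩ => ⟨h1, h2, ?_⟩⟩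
      · rw [← h i h1, ← h j h2, h3]
      · rw [h i h1, h j h2, h3]
    · intro v v' hv hv' hn h
      have h' := iff_of_eq h
      simp only [Sat]
      by_cases h1 : P i
      · by_cases h2 : P j
        · simp only [h1, h2, true_and] at h'
          exact h'
        · refine iff_of_false ?_ ?_
          · intro h3
            exact h2 ((hv j).1 (h3 ▸ (hv i).2 h1))
          · intro h3
            exact h2 ((hv' j).1 (h3 ▸ (hv' i).2 h1))
      · by_cases h2 : P j
        · refine iff_of_false ?_ ?_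
          · intro h3
            exact h1 ((hv i).1 (h3 ▸ (hv j).2 h2))
          · intro h3
            exact h1 ((hv' i).1 (h3 ▸ (hv' j).2 h2))
        · rw [hn i h1, hn j h2]
  | adj i j =>
    intro P
    refine ⟨Prop × (Prop × Prop) × (Prop × Prop), inferInstance,
      fun V G U z1 z2 X hz1 hz2 hX => ⟨fun v => (P i ∧ P j ∧ G.Adj (v i) (v j),
        (P i ∧ G.Adj (v i) z1, P i ∧ G.Adj (v i) z2),
        (P j ∧ G.Adj (v j) z1, P j ∧ G.Adj (v j) z2)), ?_, ?_⟩⟩
    · intro v v' h
      have e1 : ∀ z, (P i ∧ G.Adj (v i) z) = (P i ∧ G.Adj (v' i) z) := fun z =>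
        propext ⟨fun ⟨h1, h2⟩ => ⟨h1, h i h1 ▸ h2⟩, fun ⟨h1, h2⟩ => ⟨h1, (h i h1).symm ▸ h2⟩⟩
      have e2 : ∀ z, (P j ∧ G.Adj (v j) z) = (P j ∧ G.Adj (v' j) z) := fun z =>
        propext ⟨fun ⟨h1, h2⟩ => ⟨h1, h j h1 ▸ h2⟩, fun ⟨h1, h2⟩ => ⟨h1, (h j h1).symm ▸ h2⟩⟩
      have e3 : (P i ∧ P j ∧ G.Adj (v i) (v j)) = (P i ∧ P j ∧ G.Adj (v' i) (v' j)) :=
        propext ⟨fun ⟨h1, h2, h3⟩ => ⟨h1, h2, h i h1 ▸ h j h2 ▸ h3⟩,
          fun ⟨h1, h2, h3⟩ => ⟨h1, h2, (h i h1).symm ▸ (h j h2).symm ▸ h3⟩⟩
      simp only [e1, e2, e3]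
    · intro v v' hv hv' hn h
      simp only [Prod.mk.injEq, eq_iff_iff] at h
      obtain ⟨h3, ⟨h4, h5⟩, h6, h7⟩ := h
      simp only [Sat]
      by_cases h1 : P i
      · by_cases h2 : P j
        · simp only [h1, h2, true_and] at h3
          exact h3
        · simp only [h1, true_and] at h4 h5
          have hj : v j ∉ X := fun h => h2 ((hv j).1 h)
          rw [← hn j h2]
          constructor
          · intro h8
            rcases hX _ ((hv i).2 h1) _ hj h8 with h9 | h9
            · rw [h9] at h8 ⊢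
              exact h4.1 h8
            · rw [h9] at h8 ⊢
              exact h5.1 h8
          · intro h8
            rcases hX _ ((hv' i).2 h1) _ hj h8 with h9 | h9
            · rw [h9] at h8 ⊢
              exact h4.2 h8
            · rw [h9] at h8 ⊢
              exact h5.2 h8
      · by_cases h2 : P j
        · simp only [h2, true_and] at h6 h7
          have hi : v i ∉ X := fun h => h1 ((hv i).1 h)
          rw [← hn i h1]
          constructor
          · intro h8
            rcases hX _ ((hv j).2 h2) _ hi h8.symm with h9 | h9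
            · rw [h9] at h8 ⊢
              exact (h6.1 h8.symm).symm
            · rw [h9] at h8 ⊢
              exact (h7.1 h8.symm).symm
          · intro h8
            rcases hX _ ((hv' j).2 h2) _ hi h8.symm with h9 | h9
            · rw [h9] at h8 ⊢
              exact (h6.2 h8.symm).symm
            · rw [h9] at h8 ⊢
              exact (h7.2 h8.symm).symm
        · rw [hn i h1, hn j h2]
  | col c i =>
    intro P
    refine ⟨Prop, inferInstance, fun V G U z1 z2 X _ _ _ => ⟨fun v => P i ∧ v i ∈ U c, ?_, ?_⟩⟩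
    · intro v v' h
      exact propext ⟨fun ⟨h1, h2⟩ => ⟨h1, h i h1 ▸ h2⟩, fun ⟨h1, h2⟩ => ⟨h1, (h i h1).symm ▸ h2⟩⟩
    · intro v v' hv hv' hn h
      have h' := iff_of_eq h
      simp only [Sat]
      by_cases h1 : P i
      · simp only [h1, true_and] at h'
        exact h'
      · rw [hn i h1]
  | neg φ ih =>
    intro P
    obtain ⟨T, hT, h⟩ := ih hφ P
    refine ⟨T, hT, fun V G U z1 z2 X hz1 hz2 hX => ?_⟩
    obtain ⟨α, h1, h2⟩ := h V G U z1 z2 X hz1 hz2 hX
    exact ⟨α, h1, fun v v' a b c d => not_congr (h2 v v' a b c d)⟩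
  | and φ ψ ih1 ih2 =>
    intro P
    obtain ⟨T, hT, h⟩ := ih1 hφ.1 P
    obtain ⟨T', hT', h'⟩ := ih2 hφ.2 P
    refine ⟨T × T', inferInstance, fun V G U z1 z2 X hz1 hz2 hX => ?_⟩
    obtain ⟨α, h1, h2⟩ := h V G U z1 z2 X hz1 hz2 hX
    obtain ⟨α', h1', h2'⟩ := h' V G U z1 z2 X hz1 hz2 hX
    refine ⟨fun v => (α v, α' v), fun v v' h => by
      simp only [h1 v v' h, h1' v v' h],
      fun v v' a b c d => ?_⟩
    simp only [Prod.mk.injEq] at d
    exact and_congr (h2 v v' a b c d.1) (h2' v v' a b c d.2)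
  | ex φ ih =>
    rename_i k
    intro P
    obtain ⟨T, hT, h⟩ := ih hφ (Fin.snoc (α := fun _ : Fin (k + 1) => Prop) P True)
    obtain ⟨T', hT', h'⟩ := ih hφ (Fin.snoc (α := fun _ : Fin (k + 1) => Prop) P False)
    refine ⟨Set T × T', inferInstance, fun V G U z1 z2 X hz1 hz2 hX => ?_⟩
    obtain ⟨α, h1, h2⟩ := h V G U z1 z2 X hz1 hz2 hX
    obtain ⟨α', h1', h2'⟩ := h' V G U z1 z2 X hz1 hz2 hX
    have eT : ∀ (Q : Fin (k + 1) → V → V → Prop) (v v' : Fin k → V) (x x' : V),
        (∀ i : Fin k, Q i.castSucc (v i) (v' i)) → Q (Fin.last k) x x' →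
        ∀ i, Q i (Fin.snoc (α := fun _ : Fin (k + 1) => V) v x i)
          (Fin.snoc (α := fun _ : Fin (k + 1) => V) v' x' i) := by
      intro Q v v' x x' g1 g2 i
      refine Fin.lastCases ?_ (fun j => ?_) i
      · rw [Fin.snoc_last, Fin.snoc_last]
        exact g2
      · rw [Fin.snoc_castSucc, Fin.snoc_castSucc]
        exact g1 j
    have a1 : ∀ (v v' : Fin k → V) (x : V), (∀ i, P i → v i = v' i) →
        α (Fin.snoc (α := fun _ : Fin (k + 1) => V) v x) =
          α (Fin.snoc (α := fun _ : Fin (k + 1) => V) v' x) := by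
      intro v v' x g
      refine h1 _ _ (eT (fun i a b => Fin.snoc (α := fun _ : Fin (k + 1) => Prop) P True i →
        a = b) v v' x x (fun i => ?_) fun _ => rfl)
      rw [Fin.snoc_castSucc]
      exact g i
    have a2 : ∀ (v v' : Fin k → V) (x x' : V), (∀ i, P i → v i = v' i) →
        α' (Fin.snoc (α := fun _ : Fin (k + 1) => V) v x) =
          α' (Fin.snoc (α := fun _ : Fin (k + 1) => V) v' x') := by
      intro v v' x x' g
      refine h1' _ _ (eT (fun i a b => Fin.snoc (α := fun _ : Fin (k + 1) => Prop) P False i →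
        a = b) v v' x x' (fun i => ?_) ?_)
      · rw [Fin.snoc_castSucc]
        exact g i
      · rw [Fin.snoc_last]
        exact fun h => h.elim
    refine ⟨fun v => ({t | ∃ x ∈ X, α (Fin.snoc (α := fun _ : Fin (k + 1) => V) v x) = t},
      α' (Fin.snoc (α := fun _ : Fin (k + 1) => V) v z1)), ?_, ?_⟩
    · intro v v' g
      simp only [Prod.mk.injEq]
      refine ⟨?_, a2 v v' z1 z1 g⟩
      simp only [a1 v v' _ g]
    · have key : ∀ v v' : Fin k → V, (∀ i, v i ∈ X ↔ P i) → (∀ i, v' i ∈ X ↔ P i) →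
          (∀ i, ¬ P i → v i = v' i) →
          {t | ∃ x ∈ X, α (Fin.snoc (α := fun _ : Fin (k + 1) => V) v x) = t} =
            {t | ∃ x ∈ X, α (Fin.snoc (α := fun _ : Fin (k + 1) => V) v' x) = t} →
          α' (Fin.snoc (α := fun _ : Fin (k + 1) => V) v z1) =
            α' (Fin.snoc (α := fun _ : Fin (k + 1) => V) v' z1) →
          Sat G U (.ex φ) v → Sat G U (.ex φ) v' := by
        intro v v' hv hv' hn g1 g2 hs
        simp only [Sat] at hs ⊢
        obtain ⟨x, hx⟩ := hs
        by_cases hxX : x ∈ X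
        · have g3 : α (Fin.snoc (α := fun _ : Fin (k + 1) => V) v x) ∈
              {t | ∃ x ∈ X, α (Fin.snoc (α := fun _ : Fin (k + 1) => V) v' x) = t} := by
            rw [← g1]
            exact ⟨x, hxX, rfl⟩
          obtain ⟨x', hx', g4⟩ := g3
          refine ⟨x', (h2 _ _ ?_ ?_ ?_ g4.symm).1 hx⟩
          · intro i
            refine Fin.lastCases ?_ (fun j => ?_) i
            · rw [Fin.snoc_last, Fin.snoc_last]
              exact iff_of_true hxX trivial
            · rw [Fin.snoc_castSucc, Fin.snoc_castSucc]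
              exact hv j
          · intro i
            refine Fin.lastCases ?_ (fun j => ?_) i
            · rw [Fin.snoc_last, Fin.snoc_last]
              exact iff_of_true hx' trivial
            · rw [Fin.snoc_castSucc, Fin.snoc_castSucc]
              exact hv' j
          · intro i
            refine Fin.lastCases ?_ (fun j => ?_) i
            · rw [Fin.snoc_last]
              exact fun h => (h trivial).elim
            · rw [Fin.snoc_castSucc, Fin.snoc_castSucc, Fin.snoc_castSucc]
              exact hn j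
        · refine ⟨x, (h2' _ _ ?_ ?_ ?_ ?_).1 hx⟩
          · intro i
            refine Fin.lastCases ?_ (fun j => ?_) i
            · rw [Fin.snoc_last, Fin.snoc_last]
              exact iff_of_false hxX id
            · rw [Fin.snoc_castSucc, Fin.snoc_castSucc]
              exact hv j
          · intro i
            refine Fin.lastCases ?_ (fun j => ?_) i
            · rw [Fin.snoc_last, Fin.snoc_last]
              exact iff_of_false hxX id
            · rw [Fin.snoc_castSucc, Fin.snoc_castSucc]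
              exact hv' j
          · intro i
            refine Fin.lastCases ?_ (fun j => ?_) i
            · rw [Fin.snoc_last, Fin.snoc_last, Fin.snoc_last]
              exact fun _ => rfl
            · rw [Fin.snoc_castSucc, Fin.snoc_castSucc, Fin.snoc_castSucc]
              exact hn j
          · rw [a2 v v x z1 fun _ _ => rfl, g2, a2 v' v' z1 x fun _ _ => rfl]
      intro v v' hv hv' hn g
      simp only [Prod.mk.injEq] at g
      exact ⟨key v v' hv hv' hn g.1 g.2,
        key v' v hv' hv (fun i hi => (hn i hi).symm) g.1.symm g.2.symm⟩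
  | exmod a b h φ _ => exact hφ.elim

theorem cutStmt : CutStmt := by
  intro m φ hφ
  obtain ⟨T1, hT1, h1⟩ := cut_aux φ hφ ![True, False]
  obtain ⟨T2, hT2, h2⟩ := cut_aux φ hφ ![False, True]
  obtain ⟨τ, ⟨e⟩⟩ := Finite.exists_equiv_fin (T1 × T2)
  refine ⟨τ, fun V G U z1 z2 X hz1 hz2 hX => ?_⟩
  obtain ⟨α1, a1, b1⟩ := h1 V G U z1 z2 X hz1 hz2 hX
  obtain ⟨α2, a2, b2⟩ := h2 V G U z1 z2 X hz1 hz2 hX
  refine ⟨fun x => e (α1 ![x, z1], α2 ![z1, x]), fun x hx x' hx' h y hy => ?_⟩
  have h3 := e.injective h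
  simp only [Prod.mk.injEq] at h3
  obtain ⟨h4, h5⟩ := h3
  have c1 : ∀ x : V, α1 ![x, y] = α1 ![x, z1] := fun x => a1 _ _ (by
    intro i hi
    fin_cases i
    · rfl
    · exact (hi : False).elim)
  have c2 : ∀ x : V, α2 ![y, x] = α2 ![z1, x] := fun x => a2 _ _ (by
    intro i hi
    fin_cases i
    · exact (hi : False).elim
    · rfl)
  constructor
  · refine b1 _ _ ?_ ?_ ?_ ?_
    · intro i
      fin_cases i
      · exact iff_of_true hx trivial
      · exact iff_of_false hy id
    · intro i
      fin_cases i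
      · exact iff_of_true hx' trivial
      · exact iff_of_false hy id
    · intro i hi
      fin_cases i
      · exact (hi trivial).elim
      · rfl
    · rw [c1, c1, h4]
  · refine b2 _ _ ?_ ?_ ?_ ?_
    · intro i
      fin_cases i
      · exact iff_of_false hy id
      · exact iff_of_true hx trivial
    · intro i
      fin_cases i
      · exact iff_of_false hy id
      · exact iff_of_true hx' trivial
    · intro i hi
      fin_cases i
      · rfl
      · exact (hi trivial).elim
    · rw [c2, c2, h5]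

end Pool.Agent.NH88.FM
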