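import Mathlib

/-!
# First-order logic with modulo counting on coloured graphs, transductions

Definitions for the problem MP_e18332_lc.
-/

namespace Pool.Agent.NH88.FM

/-- Formulas of first-order logic with modulo-counting quantifiers (FO+MOD) over the vocabulary
of graphs with `m` unary predicates, with free variables indexed by `Fin n`. The quantified
variable is the last one, `Fin.last n`. -/
inductive Fml (m : ℕ) : ℕ → Type
  | eq {n : ℕ} (i j : Fin n) : Fml m n
  | adj {n : ℕ} (i j : Fin n) : Fml m n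
  | col {n : ℕ} (c : Fin m) (i : Fin n) : Fml m n
  | neg {n : ℕ} (φ : Fml m n) : Fml m n
  | and {n : ℕ} (φ ψ : Fml m n) : Fml m n
  | ex {n : ℕ} (φ : Fml m (n + 1)) : Fml m n
  | exmod {n : ℕ} (a b : ℕ) (h : a < b) (φ : Fml m (n + 1)) : Fml m n

/-- The formula is a first-order formula: no modulo-counting quantifier occurs in it. -/
def Fml.IsFO {m : ℕ} : {n : ℕ} → Fml m n → Prop
  | _, .eq _ _ => True
  | _, .adj _ _ => True
  | _, .col _ _ => True
  | _, .neg φ => φ.IsFO
  | _, .and φ ψ => φ.IsFO ∧ ψ.IsFO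
  | _, .ex φ => φ.IsFO
  | _, .exmod _ _ _ _ => False

/-- Semantics: `Sat G U φ v` says that the graph `G`, coloured by the vertex sets `U`, satisfies
`φ` under the assignment `v`. The quantifier `exmod a b` holds when the number of witnesses is
congruent to `a` modulo `b`. -/
def Sat {m : ℕ} {V : Type} (G : SimpleGraph V) (U : Fin m → Set V) :
    {n : ℕ} → Fml m n → (Fin n → V) → Prop
  | _, .eq i j, v => v i = v j
  | _, .adj i j, v => G.Adj (v i) (v j)
  | _, .col c i, v => v i ∈ U c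
  | _, .neg φ, v => ¬ Sat G U φ v
  | _, .and φ ψ, v => Sat G U φ v ∧ Sat G U ψ v
  | n, .ex φ, v => ∃ x : V, Sat G U φ (Fin.snoc (α := fun _ : Fin (n + 1) => V) v x)
  | n, .exmod a b _ φ, v =>
      Nat.card {x : V // Sat G U φ (Fin.snoc (α := fun _ : Fin (n + 1) => V) v x)} % b = a

/-- A transduction with `m` unary predicates: the formulas `ν(x)` and `η(x,y)`. -/
structure Trans (m : ℕ) where
  nu : Fml m 1
  eta : Fml m 2

/-- Both formulas are first-order. -/
def Trans.IsFO {m : ℕ} (T : Trans m) : Prop := T.nu.IsFO ∧ T.eta.IsFO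

/-- The graph produced by the transduction from `G` and the colouring `U`: its vertices are the
vertices satisfying `ν`, its edges are the pairs `{u,v}` of distinct vertices with
`η(u,v) ∧ η(v,u)`. -/
def Trans.out {m : ℕ} (T : Trans m) {V : Type} (G : SimpleGraph V) (U : Fin m → Set V) :
    SimpleGraph {v : V // Sat G U T.nu ![v]} where
  Adj a b := a ≠ b ∧ Sat G U T.eta ![a.1, b.1] ∧ Sat G U T.eta ![b.1, a.1]
  symm := ⟨fun _ _ h => ⟨h.1.symm, h.2.2, h.2.1⟩⟩
  loopless := ⟨fun _ h => h.1 rfl⟩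

/-- `D` is (isomorphic to) one of the graphs in `T(G)`. -/
def Trans.Gives {m : ℕ} (T : Trans m) {V W : Type} (G : SimpleGraph V) (D : SimpleGraph W) :
    Prop :=
  ∃ U : Fin m → Set V, Nonempty (D ≃g T.out G U)

/-- Finite graphs, on the vertex sets `Fin n`. -/
abbrev FinGraph := Σ n : ℕ, SimpleGraph (Fin n)

/-- The class `𝒟` is contained in `T(𝒞)`. -/
def Trans.Covers {m : ℕ} (T : Trans m) (𝒞 𝒟 : Set FinGraph) : Prop :=
  ∀ D ∈ 𝒟, ∃ G ∈ 𝒞, T.Gives G.2 D.2

/-- The class is closed under isomorphism. -/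
def IsoClosed (𝒞 : Set FinGraph) : Prop :=
  ∀ G ∈ 𝒞, ∀ G' : FinGraph, Nonempty (G.2 ≃g G'.2) → G' ∈ 𝒞

/-! ### Fat forests -/

/-- `r` has no cycle of length `k`. -/
def NoCyc {V : Type} (r : V → V → Prop) (k : ℕ) : Prop :=
  ∀ f : ℕ → V, (∀ i < k, ∀ j < k, f i = f j → i = j) → (∀ i, i + 1 < k → r (f i) (f (i + 1))) →
    ¬ r (f (k - 1)) (f 0)

/-- The block relation of an apex `u`: adjacency between the vertices of part 1 adjacent to `u` and
the vertices of part 2. -/
def BlkAdj {V : Type} (G : SimpleGraph V) (p : V → Fin 3) (u a b : V) : Prop :=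
  G.Adj a b ∧ ((p a = 1 ∧ p b = 2 ∧ G.Adj a u) ∨ (p a = 2 ∧ p b = 1 ∧ G.Adj b u))

/-- The pair relation: one vertex in part 0, one in part 2, with a common neighbour in part 1. -/
def PairAdj {V : Type} (G : SimpleGraph V) (p : V → Fin 3) (a b : V) : Prop :=
  ((p a = 0 ∧ p b = 2) ∨ (p a = 2 ∧ p b = 0)) ∧ ∃ w, p w = 1 ∧ G.Adj a w ∧ G.Adj w b

/-- `(G,p)` is a fat forest up to girth `g`. Part 0: apexes, part 1: connectors, part 2: right
vertices. -/
structure Fat {V : Type} (G : SimpleGraph V) (p : V → Fin 3) (g : ℕ) : Prop where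
  parts : ∀ a b, G.Adj a b →
    (p a = 0 ∧ p b = 1) ∨ (p a = 1 ∧ p b = 0) ∨ (p a = 1 ∧ p b = 2) ∨ (p a = 2 ∧ p b = 1)
  uniq : ∀ w, p w = 1 → ∃! u, p u = 0 ∧ G.Adj w u
  blk : ∀ u, p u = 0 → ∀ k, 3 ≤ k → k ≤ g → NoCyc (BlkAdj G p u) k
  pair : ∀ k, 3 ≤ k → k ≤ g → NoCyc (PairAdj G p) k

/-- The parity graph of `(G,p)`: its vertices are the vertices outside part 1; a vertex of part 0
and a vertex of part 2 are adjacent when the number of their common neighbours is odd. -/
def parityGraph {V : Type} (G : SimpleGraph V) (p : V → Fin 3) :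
    SimpleGraph {v : V // p v ≠ 1} where
  Adj a b := ((p a = 0 ∧ p b = 2) ∨ (p a = 2 ∧ p b = 0)) ∧
    Nat.card {w : V // G.Adj a w ∧ G.Adj w b} % 2 = 1
  symm := ⟨fun a b h => by
    refine ⟨h.1.symm.imp (fun h => ⟨h.2, h.1⟩) (fun h => ⟨h.2, h.1⟩), ?_⟩
    rw [← h.2]
    refine congrArg (· % 2) (Nat.card_congr (Equiv.subtypeEquivRight fun w => ?_))
    simp only [G.adj_comm]
    tauto⟩
  loopless := ⟨fun a h => by
    rcases h.1 with h | h <;> exact absurd (h.1.symm.trans h.2) (by decide)⟩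

/-- No two distinct vertices have two distinct common neighbours. -/
def K22Free {V : Type} (D : SimpleGraph V) : Prop :=
  ∀ a b x y, a ≠ b → D.Adj a x → D.Adj b x → D.Adj a y → D.Adj b y → x = y

/-- Claim A: no first-order transduction gives all parity graphs at their own place. -/
def ClaimA : Prop :=
  ∀ (m : ℕ) (T : Trans m), T.IsFO → ∀ c g N : ℕ,
    ∃ (V : Type) (_ : Finite V) (G : SimpleGraph V) (p : V → Fin 3), Fat G p g ∧
      N < Nat.card {v : V // p v ≠ 1} ∧
      c * Nat.card {v : V // p v ≠ 1} < Nat.card (parityGraph G p).edgeSet ∧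
      ¬ T.Gives G (parityGraph G p)

/-- Claim B: a first-order transduction does not give a fixed dense graph without `K_{2,2}` from
fat forests of large girth. -/
def ClaimB : Prop :=
  ∀ (m : ℕ) (T : Trans m), T.IsFO → ∃ c : ℕ, ∀ (W : Type) (_ : Finite W) (D : SimpleGraph W),
    K22Free D → c * Nat.card W < Nat.card D.edgeSet →
      ∃ g : ℕ, ∀ (V : Type) (G : SimpleGraph V) (p : V → Fin 3), Fat G p g → ¬ T.Gives G D

end Pool.Agent.NH88.FM
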