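import Pool.Agent.NH88.FM.Defs

/-!
# Skeletons: the graphs `G_x`
-/

namespace Pool.Agent.NH88.FM

/-- The graph `G0` with the edges of bit 1 added. -/
def addBits {V I : Type} (G0 : SimpleGraph V) (ends : I → V × V) (x : I → Bool) :
    SimpleGraph V :=
  G0 ⊔ SimpleGraph.fromRel fun a b => ∃ i, x i = true ∧ ends i = (a, b)

/-- A skeleton: a bipartite graph between two copies of `Fin n` with left degree `d`, given by
`h`, and a bipartite pattern between `Fin d` and `Fin m` with left degree `k`, given by `κ`, both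
without short cycles. -/
structure Skel (n m d k g : ℕ) where
  h : Fin n → Fin d → Fin n
  κ : Fin d → Finset (Fin m)
  h_inj : ∀ u, Function.Injective (h u)
  κ_card : ∀ j, (κ j).card = k
  h_girth : ∀ l, 3 ≤ l → l ≤ g → NoCyc (fun a b : Fin n ⊕ Fin n =>
    (∃ u j, a = Sum.inl u ∧ b = Sum.inr (h u j)) ∨
      ∃ u j, b = Sum.inl u ∧ a = Sum.inr (h u j)) l
  κ_girth : ∀ l, 3 ≤ l → l ≤ g → NoCyc (fun a b : Fin d ⊕ Fin m =>
    (∃ j i, a = Sum.inl j ∧ b = Sum.inr i ∧ i ∈ κ j) ∨
      ∃ j i, b = Sum.inl j ∧ a = Sum.inr i ∧ i ∈ κ j) l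

/-- The vertices: apexes, connectors, right vertices. -/
abbrev SV (n m : ℕ) := Fin n ⊕ (Fin n × Fin m) ⊕ Fin n

/-- The part function. -/
def part {n m : ℕ} : SV n m → Fin 3
  | Sum.inl _ => 0
  | Sum.inr (Sum.inl _) => 1
  | Sum.inr (Sum.inr _) => 2

namespace Skel

variable {n m d k g : ℕ} (S : Skel n m d k g)

/-- The bits. -/
abbrev Bit : Type := {t : Fin n × Fin d × Fin m // t.2.2 ∈ S.κ t.2.1}

/-- The edge of a bit: between the connector `(u,i)` and the right vertex `h u j`. -/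
def ends (t : S.Bit) : SV n m × SV n m :=
  (Sum.inr (Sum.inl (t.1.1, t.1.2.2)), Sum.inr (Sum.inr (S.h t.1.1 t.1.2.1)))

/-- The fixed edges: between the apex `u` and its connectors `(u,i)`. -/
def G0 (_ : Skel n m d k g) : SimpleGraph (SV n m) :=
  SimpleGraph.fromRel fun a b => ∃ u i, a = Sum.inl u ∧ b = Sum.inr (Sum.inl (u, i))

/-- The graph `G_x`. -/
def Gx (x : S.Bit → Bool) : SimpleGraph (SV n m) := addBits S.G0 S.ends x

end Skel

end Pool.Agent.NH88.FM
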