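import Pool.Agent.NH88.FM.Quant
import Pool.Agent.NH88.FM.Skel

/-!
# First-order formulas become shallow under restrictions
-/

namespace Pool.Agent.NH88.FM

open Classical Filter Topology

theorem exists_pow_le (A C : ℕ) : ∃ N : ℕ, ∀ n ≥ N, C * n ^ A ≤ 2 ^ n := by
  have h := tendsto_pow_const_div_const_pow_of_one_lt A (r := (2 : ℝ)) (by norm_num)
  have h2 : ∀ᶠ n : ℕ in atTop, (n : ℝ) ^ A / 2 ^ n < 1 / (C + 1) :=
    h.eventually (gt_mem_nhds (by positivity))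
  obtain ⟨N, hN⟩ := eventually_atTop.1 h2
  refine ⟨N, fun n hn => ?_⟩
  have h3 := hN n hn
  rw [div_lt_div_iff₀ (by positivity) (by positivity)] at h3
  have h4 : (C : ℝ) * n ^ A ≤ 2 ^ n := by
    have : (0 : ℝ) ≤ (n : ℝ) ^ A := by positivity
    nlinarith
  exact_mod_cast h4

theorem exists_pow_le' (A : ℕ) : ∃ N : ℕ, ∀ q ≥ N, 8 * q ^ A ≤ 2 ^ (q / 2) := by
  obtain ⟨N, hN⟩ := exists_pow_le A (8 * 3 ^ A)
  refine ⟨2 * N + 2, fun q hq => ?_⟩
  have h1 : N ≤ q / 2 := by omega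
  have h2 : q ≤ 3 * (q / 2) := by omega
  calc 8 * q ^ A ≤ 8 * (3 * (q / 2)) ^ A :=
        Nat.mul_le_mul_left _ (Nat.pow_le_pow_left h2 _)
    _ = 8 * 3 ^ A * (q / 2) ^ A := by rw [mul_pow]; ring
    _ ≤ 2 ^ (q / 2) := hN _ h1

variable {I S S' : Type}

theorem CT.map {F : S → (I → Bool) → Prop} {G : S' → (I → Bool) → Prop} {l l' t : ℕ}
    {ρ : Restr I} (h : CT F l t ρ)
    (hG : ∀ ρ', Refines ρ' ρ → (∀ s, DT (F s) l ρ') → ∀ s, DT (G s) l' ρ') : CT G l' t ρ := by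
  have := h.bind (G := G) (l' := l') (t' := 0) fun ρ' hr hs => CT.of_all (hG ρ' hr hs) 0
  rwa [Nat.add_zero] at this

/-- Number of quantifiers. -/
def Fml.nq {m : ℕ} : {n : ℕ} → Fml m n → ℕ
  | _, .eq _ _ => 0
  | _, .adj _ _ => 0
  | _, .col _ _ => 0
  | _, .neg φ => φ.nq
  | _, .and φ ψ => φ.nq + ψ.nq
  | _, .ex φ => φ.nq + 1
  | _, .exmod _ _ _ _ => 0

theorem adj_DT {V : Type} (G0 : SimpleGraph V) (ends : I → V × V)
    (hends : Function.Injective fun i => s((ends i).1, (ends i).2)) (a b : V) (ρ : Restr I) :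
    DT (fun x => (addBits G0 ends x).Adj a b) 1 ρ := by
  by_cases h0 : G0.Adj a b
  · exact DT.of_cst (Or.inl fun x _ => Or.inl h0) 1
  by_cases hab : a = b
  · subst hab
    exact DT.of_cst (Or.inr fun x _ h => (addBits G0 ends x).loopless.irrefl a h) 1
  have hadj : ∀ x, (addBits G0 ends x).Adj a b ↔
      ∃ i, x i = true ∧ (ends i = (a, b) ∨ ends i = (b, a)) := by
    intro x
    simp only [addBits, SimpleGraph.sup_adj, h0, false_or, SimpleGraph.fromRel_adj, ne_eq, hab,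
      not_false_eq_true, true_and]
    constructor
    · rintro (⟨i, h1, h2⟩ | ⟨i, h1, h2⟩)
      · exact ⟨i, h1, Or.inl h2⟩
      · exact ⟨i, h1, Or.inr h2⟩
    · rintro ⟨i, h1, h2 | h2⟩
      · exact Or.inl ⟨i, h1, h2⟩
      · exact Or.inr ⟨i, h1, h2⟩
  by_cases hi : ∃ i, ends i = (a, b) ∨ ends i = (b, a)
  · obtain ⟨i, hi⟩ := hi
    have huniq : ∀ j, (ends j = (a, b) ∨ ends j = (b, a)) → j = i := by
      intro j hj
      apply hends
      have e : ∀ k, (ends k = (a, b) ∨ ends k = (b, a)) →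
          s((ends k).1, (ends k).2) = s(a, b) := by
        rintro k (h | h)
        · rw [h]
        · rw [h]; exact Sym2.eq_swap
      show s((ends j).1, (ends j).2) = s((ends i).1, (ends i).2)
      rw [e j hj, e i hi]
    have hadj' : ∀ x, (addBits G0 ends x).Adj a b ↔ x i = true := by
      intro x
      rw [hadj]
      constructor
      · rintro ⟨j, h1, h2⟩
        rw [← huniq j h2]; exact h1
      · intro h; exact ⟨i, h, hi⟩
    have hc : ∀ (c : Bool) (ρ' : Restr I), ρ' i = some c →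
        Cst (fun x => (addBits G0 ends x).Adj a b) ρ' := by
      intro c ρ' hρ'
      cases c
      · exact Or.inr fun x hx h => by
          have := (hadj' x).1 h
          rw [hx i false hρ'] at this; cases this
      · exact Or.inl fun x hx => (hadj' x).2 (hx i true hρ')
    rcases hρ : ρ i with _ | c
    · exact Or.inr ⟨i, hρ, fun b => hc b _ (upd_self _ _ _)⟩
    · exact Or.inl (hc c ρ hρ)
  · exact DT.of_cst (Or.inr fun x _ h => by
      obtain ⟨i, _, h⟩ := (hadj x).1 h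
      exact hi ⟨i, h⟩) 1

/-- The main induction. -/
theorem fml_good {m : ℕ} (a A : ℕ) : ∀ {n : ℕ} (φ : Fml m n), φ.IsFO →
    ∃ l τ q0 : ℕ, ∀ q ≥ q0, ∀ (V I E : Type) [Fintype V] [Fintype I] (G0 : SimpleGraph V)
      (ends : I → V × V), (Function.Injective fun i => s((ends i).1, (ends i).2)) →
      ∀ blk : I → E, 1 ≤ Fintype.card V → Fintype.card V ≤ q ^ a →
      ∀ κ, κ * q ^ (2 * φ.nq) ≤ q ^ A → ∀ (ρ0 : Restr I) (E0 : Finset E),
      (∀ e ∈ E0, κ * q ^ (2 * φ.nq) ≤ nfree blk e ρ0) →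
      ∃ ρ, Refines ρ ρ0 ∧ (∃ E1 ⊆ E0, E0.card ≤ 2 ^ φ.nq * E1.card ∧
        ∀ e ∈ E1, κ ≤ nfree blk e ρ) ∧
        ∀ U : Fin m → Set V, CT (fun (v : Fin n → V) (x : I → Bool) =>
          Sat (addBits G0 ends x) U φ v) l (τ * Fintype.card V) ρ := by
  intro n φ
  induction φ with
  | eq i j =>
    intro _
    refine ⟨0, 0, 0, fun q _ V I E _ _ G0 ends hends blk _ _ κ _ ρ0 E0 hE0 => ?_⟩
    refine ⟨ρ0, Refines.refl _, ⟨E0, Finset.Subset.refl _, by simp [Fml.nq], by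
      simpa [Fml.nq] using hE0⟩, fun U => CT.of_all (fun v => ?_) _⟩
    by_cases h : v i = v j
    · exact DT.of_cst (Or.inl fun x _ => h) _
    · exact DT.of_cst (Or.inr fun x _ => h) _
  | adj i j =>
    intro _
    refine ⟨1, 0, 0, fun q _ V I E _ _ G0 ends hends blk _ _ κ _ ρ0 E0 hE0 => ?_⟩
    refine ⟨ρ0, Refines.refl _, ⟨E0, Finset.Subset.refl _, by simp [Fml.nq], by
      simpa [Fml.nq] using hE0⟩, fun U => CT.of_all (fun v => ?_) _⟩
    exact adj_DT G0 ends hends (v i) (v j) ρ0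
  | col c i =>
    intro _
    refine ⟨0, 0, 0, fun q _ V I E _ _ G0 ends hends blk _ _ κ _ ρ0 E0 hE0 => ?_⟩
    refine ⟨ρ0, Refines.refl _, ⟨E0, Finset.Subset.refl _, by simp [Fml.nq], by
      simpa [Fml.nq] using hE0⟩, fun U => CT.of_all (fun v => ?_) _⟩
    by_cases h : v i ∈ U c
    · exact DT.of_cst (Or.inl fun x _ => h) _
    · exact DT.of_cst (Or.inr fun x _ => h) _
  | neg φ ih =>
    intro hφ
    obtain ⟨l, τ, q0, h⟩ := ih hφ
    refine ⟨l, τ, q0, fun q hq V I E _ _ G0 ends hends blk h1 h2 κ hκ ρ0 E0 hE0 => ?_⟩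
    obtain ⟨ρ, hr, hE, hCT⟩ := h q hq V I E G0 ends hends blk h1 h2 κ hκ ρ0 E0 hE0
    exact ⟨ρ, hr, hE, fun U => (hCT U).map fun ρ' _ hs v => (hs v).not⟩
  | and φ ψ ih1 ih2 =>
    intro hφ
    obtain ⟨l1, τ1, q1, h1⟩ := ih1 hφ.1
    obtain ⟨l2, τ2, q2, h2⟩ := ih2 hφ.2
    refine ⟨l1 + l2, τ1 + τ2, max 1 (max q1 q2),
      fun q hq V I E _ _ G0 ends hends blk h3 h4 κ hκ ρ0 E0 hE0 => ?_⟩
    have e : κ * q ^ (2 * (Fml.and φ ψ).nq) = (κ * q ^ (2 * ψ.nq)) * q ^ (2 * φ.nq) := by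
      simp only [Fml.nq]; ring
    rw [e] at hκ
    rw [e] at hE0
    have hqpos : 0 < q := le_trans (le_max_left _ _) hq
    have hq12 : max q1 q2 ≤ q := le_trans (le_max_right _ _) hq
    obtain ⟨ρ1, hr1, ⟨E1, hE1, hc1, hf1⟩, hCT1⟩ := h1 q (le_trans (le_max_left _ _) hq12) V I E G0
      ends hends blk h3 h4 (κ * q ^ (2 * ψ.nq)) hκ ρ0 E0 hE0
    have hκ2 : κ * q ^ (2 * ψ.nq) ≤ q ^ A :=
      le_trans (Nat.le_mul_of_pos_right _ (pow_pos hqpos _)) hκ
    obtain ⟨ρ2, hr2, ⟨E2, hE2, hc2, hf2⟩, hCT2⟩ := h2 q (le_trans (le_max_right _ _) hq12) V I E G0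
      ends hends blk h3 h4 κ hκ2 ρ1 E1 hf1
    refine ⟨ρ2, hr2.trans hr1, ⟨E2, hE2.trans hE1, ?_, hf2⟩, fun U => ?_⟩
    · calc E0.card ≤ 2 ^ φ.nq * E1.card := hc1
        _ ≤ 2 ^ φ.nq * (2 ^ ψ.nq * E2.card) := Nat.mul_le_mul_left _ hc2
        _ = _ := by simp only [Fml.nq]; ring
    · rw [add_mul]
      refine ((hCT1 U).refine hr2).bind fun ρ' hr' hs => ?_
      exact ((hCT2 U).refine hr').map fun ρ'' hr'' hs' v =>
        DT.and ((hs v).refine hr'') (hs' v)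
  | @ex n φ ih =>
    intro hφ
    obtain ⟨w, τ, q0, h⟩ := ih hφ
    obtain ⟨N, hN⟩ := exists_pow_le' A
    refine ⟨a * n + 1, τ + (m + τ + 2) * (a * n + 1 + w), max q0 (max N (K0 w (a * n + 1) + 2)),
      fun q hq V I E _ _ G0 ends hends blk h3 h4 κ hκ ρ0 E0 hE0 => ?_⟩
    have hq0 : q0 ≤ q := le_trans (le_max_left _ _) hq
    have hqN : N ≤ q := le_trans (le_trans (le_max_left _ _) (le_max_right _ _)) hq
    have hqK : K0 w (a * n + 1) + 2 ≤ q :=
      le_trans (le_trans (le_max_right _ _) (le_max_right _ _)) hq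
    have e : κ * q ^ (2 * (Fml.ex φ).nq) = (κ * q ^ 2) * q ^ (2 * φ.nq) := by
      simp only [Fml.nq]; ring
    rw [e] at hκ
    rw [e] at hE0
    obtain ⟨ρ1, hr1, ⟨E1, hE1, hc1, hf1⟩, hCT1⟩ := h q hq0 V I E G0
      ends hends blk h3 h4 (κ * q ^ 2) hκ ρ0 E0 hE0
    have hqpos : 1 ≤ q := by omega
    set M := Fintype.card V with hM
    have hstep := quant_step (S := Fin n → V) (Z := V) (q := q) (w := w) (l := a * n + 1)
      (t0 := τ * M) (J := (m + τ + 2) * M) (κ := κ) hqpos (K := Fin m → Set V) blk (ρ0 := ρ1)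
      E1 hf1
      (fun U y x => Sat (addBits G0 ends x) U φ (Fin.snoc (α := fun _ : Fin (n + 1) => V) y.1 y.2))
      (fun U => (hCT1 U).map fun ρ' _ hs y => hs _) ?_ ?_
    · obtain ⟨ρ2, hr2, ⟨E2, hE2, hc2, hf2⟩, hCT2⟩ := hstep
      refine ⟨ρ2, hr2.trans hr1, ⟨E2, hE2.trans hE1, ?_, hf2⟩, fun U => ?_⟩
      · calc E0.card ≤ 2 ^ φ.nq * E1.card := hc1
          _ ≤ 2 ^ φ.nq * (2 * E2.card) := Nat.mul_le_mul_left _ hc2
          _ = _ := by simp only [Fml.nq]; ring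
      · have := hCT2 U
        have e2 : τ * M + (m + τ + 2) * M * (a * n + 1 + w) =
            (τ + (m + τ + 2) * (a * n + 1 + w)) * M := by ring
        rw [e2] at this
        exact this
    · -- numeric condition
      have hK : Fintype.card (Fin m → Set V) = 2 ^ (m * M) := by
        rw [Fintype.card_fun, Fintype.card_set, Fintype.card_fin, ← pow_mul, mul_comm]
      have hS : Fintype.card (Fin n → V) ≤ q ^ (a * n) := by
        rw [Fintype.card_fun, Fintype.card_fin, pow_mul]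
        exact Nat.pow_le_pow_left h4 n
      rw [hK]
      set J := (m + τ + 2) * M with hJ
      calc 2 ^ (m * M) * 2 ^ (τ * M) * (Fintype.card (Fin n → V) * K0 w (a * n + 1)) ^ J * 4
          ≤ 2 ^ (m * M) * 2 ^ (τ * M) * (q ^ (a * n) * q) ^ J * 4 := by
            refine Nat.mul_le_mul_right _ (Nat.mul_le_mul_left _ (Nat.pow_le_pow_left ?_ _))
            exact Nat.mul_le_mul hS (by omega)
        _ = 2 ^ (m * M + τ * M + 2) * (q ^ (a * n) * q) ^ J := by
            rw [pow_add, pow_add]; ring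
        _ ≤ 2 ^ J * (q ^ (a * n) * q) ^ J := by
            refine Nat.mul_le_mul_right _ (Nat.pow_le_pow_right (by norm_num) ?_)
            rw [hJ]
            nlinarith
        _ ≤ q ^ J * (q ^ (a * n) * q) ^ J :=
            Nat.mul_le_mul_right _ (Nat.pow_le_pow_left (by omega) _)
        _ = q ^ ((a * n + 1 + 1) * J) := by
            rw [← mul_pow, ← pow_succ, ← pow_succ', ← pow_mul]
    · have h5 : κ ≤ q ^ A := by
        refine le_trans ?_ hκ
        rw [mul_assoc]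
        exact Nat.le_mul_of_pos_right _ (by positivity)
      calc 8 * κ ≤ 8 * q ^ A := Nat.mul_le_mul_left _ h5
        _ ≤ 2 ^ (q / 2) := hN q hqN
  | exmod a b h φ ih => intro hφ; exact absurd hφ (by simp [Fml.IsFO])

end Pool.Agent.NH88.FM
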