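import Pool.Agent.NH88.FM.Count
import Pool.Agent.NH88.FM.Good

/-!
# Piece A: a first-order transduction cannot compute all block parities
-/

namespace Pool.Agent.NH88.FM

open Classical

theorem four_le {a b r T : ℕ} (h : a * 2 ^ r ≤ 2 ^ b * T) (hb : b + 2 ≤ r) : 4 * a ≤ T := by
  have hpos : 0 < 2 ^ r := by positivity
  refine Nat.le_of_mul_le_mul_right ?_ hpos
  calc 4 * a * 2 ^ r = 4 * (a * 2 ^ r) := by ring
    _ ≤ 4 * (2 ^ b * T) := Nat.mul_le_mul_left _ h
    _ = 2 ^ (b + 2) * T := by rw [pow_add]; ring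
    _ ≤ 2 ^ r * T := Nat.mul_le_mul_right _ (Nat.pow_le_pow_right (by norm_num) hb)
    _ = T * 2 ^ r := by ring

/-- The completions with a property. -/
noncomputable def Bs {I : Type} [Fintype I] (ρ : Restr I) (P : (I → Bool) → Prop) :
    Finset (I → Bool) :=
  Finset.univ.filter fun x => P (fill ρ x)

theorem mem_Bs {I : Type} [Fintype I] {ρ : Restr I} {P : (I → Bool) → Prop} {x : I → Bool} :
    x ∈ Bs ρ P ↔ P (fill ρ x) := by
  simp [Bs]

theorem pieceA {m : ℕ} (η : Fml m 2) (hη : η.IsFO) : ∃ e : ℕ, ∀ a c : ℕ, ∃ C q0 : ℕ, ∀ q ≥ q0,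
    ∀ (V I E X : Type) [Fintype V] [Fintype I] [Fintype E] [Fintype X] (G0 : SimpleGraph V)
      (ends : I → V × V) (_ : Function.Injective fun i => s((ends i).1, (ends i).2))
      (blk : I → E) (ue ve : E → X), 1 ≤ Fintype.card V → Fintype.card V ≤ q ^ a →
      Fintype.card X ≤ Fintype.card V → Fintype.card E ≤ Fintype.card V ^ 2 →
      (∀ j, q ^ e ≤ (Finset.univ.filter fun i => blk i = j).card) →
      C * Fintype.card V * (Nat.log 2 (Fintype.card V) + 1) ≤ Fintype.card E →
      ∃ x : I → Bool, (∀ (U : Fin m → Set V) (π : X → V), ∃ j : E,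
        ¬ ((Sat (addBits G0 ends x) U η ![π (ue j), π (ve j)] ∧
            Sat (addBits G0 ends x) U η ![π (ve j), π (ue j)]) ↔ par blk j x)) ∧
        c * Fintype.card V < (Finset.univ.filter fun j => par blk j x).card := by
  refine ⟨2 * η.nq + 1, fun a c => ?_⟩
  obtain ⟨l, τ, q1, hgood⟩ := fml_good (m := m) a (2 * η.nq + 1) η hη
  set C' := τ + (l + l + 1) * (m + 3) + 2 * c + 2 with hC'
  refine ⟨2 ^ η.nq * C', max q1 (l + l + 1), fun q hq V I E X _ _ _ _ G0 ends hends blk ue ve
    hV1 hV2 hX hE hblk hCE => ?_⟩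
  have hq1 : q1 ≤ q := le_trans (le_max_left _ _) hq
  have hql : l + l + 1 ≤ q := le_trans (le_max_right _ _) hq
  set M := Fintype.card V with hM
  set L2 := Nat.log 2 M + 1 with hL2
  have hL2pos : 1 ≤ L2 := by omega
  have hML : M < 2 ^ L2 := Nat.lt_pow_succ_log_self (by norm_num) M
  have hML' : 1 ≤ M * L2 := Nat.mul_pos hV1 hL2pos
  obtain ⟨ρ, _, ⟨E1, _, hE1, hfree⟩, hCT⟩ := hgood q hq1 V I E G0 ends hends blk hV1 hV2 q
    (by rw [pow_succ']) (fun _ => none) Finset.univ (by
      intro j _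
      have : nfree blk j (fun _ => none) = (Finset.univ.filter fun i => blk i = j).card := by
        unfold nfree; simp
      rw [this, ← pow_succ']
      exact hblk j)
  have hE1' : C' * (M * L2) ≤ E1.card := by
    have hpos : 0 < 2 ^ η.nq := by positivity
    refine Nat.le_of_mul_le_mul_left ?_ hpos
    calc 2 ^ η.nq * (C' * (M * L2)) = 2 ^ η.nq * C' * M * L2 := by ring
      _ ≤ Fintype.card E := hCE
      _ = (Finset.univ : Finset E).card := Finset.card_univ.symm
      _ ≤ 2 ^ η.nq * E1.card := hE1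
  set r := (m + 3) * (M * L2) with hr
  have hr1 : r * (l + l + 1) + τ * M ≤ E1.card := by
    refine le_trans ?_ hE1'
    have : τ * M ≤ τ * (M * L2) := Nat.mul_le_mul_left _ (Nat.le_mul_of_pos_right _ hL2pos)
    rw [hC', hr]
    nlinarith
  have hr2 : m * M + L2 * M + 2 ≤ r := by
    have h1 : m * M ≤ m * (M * L2) := Nat.mul_le_mul_left _ (Nat.le_mul_of_pos_right _ hL2pos)
    rw [hr]
    nlinarith
  have hr3 : L2 * 2 * (c * M) + 2 ≤ E1.card := by
    refine le_trans ?_ hE1'
    rw [hC']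
    nlinarith
  by_contra hcon
  push Not at hcon
  set PA : (Fin m → Set V) × (X → V) → (I → Bool) → Prop := fun y x => ∀ j ∈ E1,
    ((Sat (addBits G0 ends x) y.1 η ![y.2 (ue j), y.2 (ve j)] ∧
      Sat (addBits G0 ends x) y.1 η ![y.2 (ve j), y.2 (ue j)]) ↔ par blk j x) with hPA
  set PB : (Fin (c * M) → Option E) → (I → Bool) → Prop := fun f x => ∀ j ∈ E1,
    ((∃ k, f k = some j) ↔ par blk j x) with hPB
  -- every completion is bad
  have hcover : (Finset.univ : Finset (I → Bool)) ⊆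
      ((Finset.univ : Finset ((Fin m → Set V) × (X → V))).biUnion fun y => Bs ρ (PA y)) ∪
      ((Finset.univ : Finset (Fin (c * M) → Option E)).biUnion fun f => Bs ρ (PB f)) := by
    intro x _
    rw [Finset.mem_union]
    by_cases h : ∀ (U : Fin m → Set V) (π : X → V), ∃ j : E,
        ¬ ((Sat (addBits G0 ends (fill ρ x)) U η ![π (ue j), π (ve j)] ∧
            Sat (addBits G0 ends (fill ρ x)) U η ![π (ve j), π (ue j)]) ↔
              par blk j (fill ρ x))
    · right
      have h1 := hcon (fill ρ x) (by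
        intro U π
        obtain ⟨j, hj⟩ := h U π
        refine ⟨j, ?_⟩
        by_cases hp : par blk j (fill ρ x)
        · refine Or.inr ⟨?_, hp⟩
          intro h2 h3
          exact hj ⟨fun _ => hp, fun _ => ⟨h2, h3⟩⟩
        · refine Or.inl ⟨?_, hp⟩
          by_contra h2
          exact hj ⟨fun h3 => absurd h3 h2, fun h3 => absurd h3 hp⟩)
      set Q := Finset.univ.filter fun j => par blk j (fill ρ x) with hQ
      have hf : ∃ f : Fin (c * M) → Option E, ∀ j, (∃ k, f k = some j) ↔ j ∈ Q := by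
        refine ⟨fun k => if hk : (k : ℕ) < Q.card then some (Q.equivFin.symm ⟨k, hk⟩).1
          else none, fun j => ⟨?_, ?_⟩⟩
        · rintro ⟨k, hk⟩
          by_cases hkl : (k : ℕ) < Q.card
          · simp only [hkl, dif_pos, Option.some.injEq] at hk
            rw [← hk]; exact (Q.equivFin.symm ⟨k, hkl⟩).2
          · simp [hkl] at hk
        · intro hj
          have hlt : ((Q.equivFin ⟨j, hj⟩ : Fin Q.card) : ℕ) < Q.card :=
            (Q.equivFin ⟨j, hj⟩).2
          refine ⟨⟨Q.equivFin ⟨j, hj⟩, lt_of_lt_of_le hlt h1⟩, ?_⟩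
          simp only [hlt, dif_pos, Fin.eta, Equiv.symm_apply_apply]
      obtain ⟨f, hf⟩ := hf
      rw [Finset.mem_biUnion]
      refine ⟨f, Finset.mem_univ _, mem_Bs.2 fun j _ => ?_⟩
      rw [hf j, hQ]; simp
    · left
      push Not at h
      obtain ⟨U, π, h⟩ := h
      rw [Finset.mem_biUnion]
      exact ⟨(U, π), Finset.mem_univ _, mem_Bs.2 fun j _ => h j⟩
  have hA : ∀ y : (Fin m → Set V) × (X → V), (Bs ρ (PA y)).card * 2 ^ r ≤
      2 ^ Fintype.card I := by
    intro y
    refine parity_count_CT (l := l + l) (H := fun j x =>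
      Sat (addBits G0 ends x) y.1 η ![y.2 (ue j), y.2 (ve j)] ∧
      Sat (addBits G0 ends x) y.1 η ![y.2 (ve j), y.2 (ue j)]) blk r (τ * M) ρ E1 ?_ hr1
      (fun j hj => le_trans hql (hfree j hj))
    exact (hCT y.1).map fun ρ' _ hs j => (hs _).and (hs _)
  have hB : ∀ f : Fin (c * M) → Option E, (Bs ρ (PB f)).card * 2 ^ E1.card ≤
      2 ^ Fintype.card I := by
    intro f
    refine parity_count_CT (l := 0) (H := fun j _ => ∃ k, f k = some j) blk E1.card 0 ρ E1 ?_
      (by omega) (fun j hj => le_trans (by omega) (hfree j hj))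
    exact CT.of_all (fun j => by
      by_cases h : ∃ k, f k = some j
      · exact Or.inl fun _ _ => h
      · exact Or.inr fun _ _ => h) 0
  have hsumA : 4 * (∑ y : (Fin m → Set V) × (X → V), (Bs ρ (PA y)).card) ≤
      2 ^ Fintype.card I := by
    refine four_le (b := m * M + L2 * M) (r := r) ?_ hr2
    rw [Finset.sum_mul]
    refine (Finset.sum_le_sum fun y _ => hA y).trans ?_
    rw [Finset.sum_const, smul_eq_mul, Finset.card_univ]
    refine Nat.mul_le_mul_right _ ?_
    rw [Fintype.card_prod, Fintype.card_fun, Fintype.card_set, Fintype.card_fin, Fintype.card_fun,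
      pow_add, ← pow_mul, ← hM, mul_comm M m]
    refine Nat.mul_le_mul_left _ ?_
    calc M ^ Fintype.card X ≤ M ^ M := Nat.pow_le_pow_right hV1 hX
      _ ≤ (2 ^ L2) ^ M := Nat.pow_le_pow_left hML.le _
      _ = 2 ^ (L2 * M) := by rw [← pow_mul]
  have hsumB : 4 * (∑ f : Fin (c * M) → Option E, (Bs ρ (PB f)).card) ≤
      2 ^ Fintype.card I := by
    refine four_le (b := L2 * 2 * (c * M)) (r := E1.card) ?_ hr3
    rw [Finset.sum_mul]
    refine (Finset.sum_le_sum fun f _ => hB f).trans ?_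
    rw [Finset.sum_const, smul_eq_mul, Finset.card_univ]
    refine Nat.mul_le_mul_right _ ?_
    rw [Fintype.card_fun, Fintype.card_fin, Fintype.card_option]
    have h1 : Fintype.card E + 1 ≤ 2 ^ (L2 * 2) := by
      calc Fintype.card E + 1 ≤ M ^ 2 + 1 := by omega
        _ ≤ (2 ^ L2) ^ 2 := Nat.pow_lt_pow_left hML (by norm_num)
        _ = 2 ^ (L2 * 2) := by rw [← pow_mul]
    calc (Fintype.card E + 1) ^ (c * M) ≤ (2 ^ (L2 * 2)) ^ (c * M) := Nat.pow_le_pow_left h1 _
      _ = 2 ^ (L2 * 2 * (c * M)) := by rw [← pow_mul]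
  have htot : 2 ^ Fintype.card I ≤
      (∑ y : (Fin m → Set V) × (X → V), (Bs ρ (PA y)).card) +
        (∑ f : Fin (c * M) → Option E, (Bs ρ (PB f)).card) := by
    calc 2 ^ Fintype.card I = (Finset.univ : Finset (I → Bool)).card := by simp
      _ ≤ _ := Finset.card_le_card hcover
      _ ≤ _ := Finset.card_union_le _ _
      _ ≤ _ := Nat.add_le_add Finset.card_biUnion_le Finset.card_biUnion_le
  have hpos : 0 < 2 ^ Fintype.card I := by positivity
  omega

end Pool.Agent.NH88.FM
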