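import Pool.Agent.NH88.FM.Step

/-!
# The quantifier step
-/

namespace Pool.Agent.NH88.FM

open Classical

variable {I S Z : Type} [Fintype I] [Fintype S] [Fintype Z]

theorem quant_step {q w l t0 J κ : ℕ} (hq : 1 ≤ q) {E K : Type} [Fintype K]
    (blk : I → E) {ρ0 : Restr I} (E0 : Finset E) (hE0 : ∀ e ∈ E0, κ * q ^ 2 ≤ nfree blk e ρ0)
    (G : K → S × Z → (I → Bool) → Prop) (hG : ∀ k, CT (G k) w t0 ρ0)
    (hN1 : Fintype.card K * 2 ^ t0 * (Fintype.card S * K0 w l) ^ J * 4 ≤ q ^ ((l + 1) * J))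
    (hN2 : 8 * κ ≤ 2 ^ (q / 2)) :
    ∃ ρ, Refines ρ ρ0 ∧ (∃ E1 ⊆ E0, E0.card ≤ 2 * E1.card ∧ ∀ e ∈ E1, κ ≤ nfree blk e ρ) ∧
      ∀ k, CT (fun s x => ∃ z, G k (s, z) x) l (t0 + J * (l + w)) ρ := by
  set Tot := (2 * q + 1) ^ Fintype.card I with hTot
  have hTpos : 0 < Tot := by positivity
  set bad1 : Finset (Restr I) := Finset.univ.filter fun ω =>
    ∃ k, ¬ CT (fun s x => ∃ z, G k (s, z) x) l (t0 + J * (l + w)) (comb ρ0 ω) with hbad1
  set bad2 : Finset (Restr I) := Finset.univ.filter fun ω =>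
    E0.card < 2 * (E0.filter fun e => nfree blk e (comb ρ0 ω) < κ).card with hbad2
  have h1 : 4 * ∑ ω ∈ bad1, Wt q ω ≤ Tot := by
    have hsub : bad1 ⊆ (Finset.univ : Finset K).biUnion fun k => Finset.univ.filter fun ω =>
        ¬ CT (fun s x => ∃ z, G k (s, z) x) l (t0 + J * (l + w)) (comb ρ0 ω) := by
      intro ω hω
      simpa [hbad1] using hω
    have hle : (∑ ω ∈ bad1, Wt q ω) * q ^ ((l + 1) * J) ≤
        Fintype.card K * (2 ^ t0 * ((Fintype.card S * K0 w l) ^ J * Tot)) := by
      calc _ ≤ (∑ k : K, ∑ ω : Restr I with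
            ¬ CT (fun s x => ∃ z, G k (s, z) x) l (t0 + J * (l + w)) (comb ρ0 ω), Wt q ω) *
              q ^ ((l + 1) * J) := by
            refine Nat.mul_le_mul_right _ ?_
            exact (Finset.sum_le_sum_of_subset hsub).trans (sum_biUnion_le _ _ _)
        _ = ∑ k : K, (∑ ω : Restr I with
            ¬ CT (fun s x => ∃ z, G k (s, z) x) l (t0 + J * (l + w)) (comb ρ0 ω), Wt q ω) *
              q ^ ((l + 1) * J) := by rw [Finset.sum_mul]
        _ ≤ ∑ _k : K, (2 ^ t0 * ((Fintype.card S * K0 w l) ^ J * Tot)) :=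
            Finset.sum_le_sum fun k _ => tree_bound hq J (hG k)
        _ = _ := by simp
    have hpos : 0 < q ^ ((l + 1) * J) := by positivity
    refine Nat.le_of_mul_le_mul_right ?_ hpos
    calc 4 * (∑ ω ∈ bad1, Wt q ω) * q ^ ((l + 1) * J)
        = 4 * ((∑ ω ∈ bad1, Wt q ω) * q ^ ((l + 1) * J)) := by ring
      _ ≤ 4 * (Fintype.card K * (2 ^ t0 * ((Fintype.card S * K0 w l) ^ J * Tot))) :=
        Nat.mul_le_mul_left _ hle
      _ = (Fintype.card K * 2 ^ t0 * (Fintype.card S * K0 w l) ^ J * 4) * Tot := by ring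
      _ ≤ q ^ ((l + 1) * J) * Tot := Nat.mul_le_mul_right _ hN1
      _ = _ := by ring
  have h2 : 4 * ∑ ω ∈ bad2, Wt q ω ≤ Tot := by
    rcases Nat.eq_zero_or_pos E0.card with h0 | h0
    · have : bad2 = ∅ := by
        rw [hbad2, Finset.filter_eq_empty_iff]
        intro ω _
        have : E0 = ∅ := Finset.card_eq_zero.1 h0
        simp [this]
      rw [this]; simp
    · have hle : (∑ ω ∈ bad2, Wt q ω) * E0.card * 2 ^ (q / 2) ≤ 2 * (E0.card * (κ * Tot)) := by
        calc _ ≤ (∑ ω : Restr I, Wt q ω *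
              (2 * (E0.filter fun e => nfree blk e (comb ρ0 ω) < κ).card)) * 2 ^ (q / 2) := by
              refine Nat.mul_le_mul_right _ ?_
              rw [Finset.sum_mul]
              refine (Finset.sum_le_sum (g := fun ω => Wt q ω *
                (2 * (E0.filter fun e => nfree blk e (comb ρ0 ω) < κ).card)) fun ω hω => ?_).trans
                (Finset.sum_le_sum_of_subset (Finset.subset_univ _))
              exact Nat.mul_le_mul_left _ (Finset.mem_filter.1 hω).2.le
          _ = 2 * ∑ e ∈ E0, (∑ ω : Restr I with nfree blk e (comb ρ0 ω) < κ, Wt q ω) *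
                2 ^ (q / 2) := by
              rw [← Finset.sum_mul, ← mul_assoc, Finset.mul_sum]
              congr 1
              have : ∀ ω : Restr I, Wt q ω *
                  (2 * (E0.filter fun e => nfree blk e (comb ρ0 ω) < κ).card) =
                  ∑ e ∈ E0, if nfree blk e (comb ρ0 ω) < κ then 2 * Wt q ω else 0 := by
                intro ω
                rw [← Finset.sum_filter, Finset.sum_const, smul_eq_mul]
                ring
              simp only [this]
              rw [Finset.sum_comm]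
              refine Finset.sum_congr rfl fun e _ => ?_
              rw [← Finset.sum_filter, Finset.mul_sum]
          _ ≤ 2 * ∑ _e ∈ E0, κ * Tot := by
              refine Nat.mul_le_mul_left _ (Finset.sum_le_sum fun e he => ?_)
              exact block_fail hq blk e (hE0 e he)
          _ = _ := by simp
      have hpos : 0 < E0.card * 2 ^ (q / 2) := by positivity
      refine Nat.le_of_mul_le_mul_right ?_ hpos
      calc 4 * (∑ ω ∈ bad2, Wt q ω) * (E0.card * 2 ^ (q / 2))
          = 4 * ((∑ ω ∈ bad2, Wt q ω) * E0.card * 2 ^ (q / 2)) := by ring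
        _ ≤ 4 * (2 * (E0.card * (κ * Tot))) := Nat.mul_le_mul_left _ hle
        _ = (8 * κ) * (E0.card * Tot) := by ring
        _ ≤ 2 ^ (q / 2) * (E0.card * Tot) := Nat.mul_le_mul_right _ hN2
        _ = _ := by ring
  have h3 : ∃ ω : Restr I, ω ∉ bad1 ∧ ω ∉ bad2 := by
    by_contra hcon
    push Not at hcon
    have hsub : (Finset.univ : Finset (Restr I)) ⊆ bad1 ∪ bad2 := by
      intro ω _
      rw [Finset.mem_union]
      by_cases h : ω ∈ bad1
      · exact Or.inl h
      · exact Or.inr (hcon ω h)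
    have h4 : Tot ≤ ∑ ω ∈ bad1, Wt q ω + ∑ ω ∈ bad2, Wt q ω := by
      rw [hTot, ← sum_Wt q]
      refine (Finset.sum_le_sum_of_subset hsub).trans ?_
      rw [← Finset.sum_union_inter]
      exact Nat.le_add_right _ _
    omega
  obtain ⟨ω, hω1, hω2⟩ := h3
  refine ⟨comb ρ0 ω, comb_refines _ _, ⟨E0.filter fun e => κ ≤ nfree blk e (comb ρ0 ω),
    Finset.filter_subset _ _, ?_, fun e he => (Finset.mem_filter.1 he).2⟩, ?_⟩
  · have h5 := Finset.card_filter_add_card_filter_not (s := E0)
      (fun e => nfree blk e (comb ρ0 ω) < κ)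
    have h6 : (E0.filter fun e => ¬ nfree blk e (comb ρ0 ω) < κ) =
        E0.filter fun e => κ ≤ nfree blk e (comb ρ0 ω) := by
      congr 1; ext e; simp
    rw [h6] at h5
    have h7 : ¬ E0.card < 2 * (E0.filter fun e => nfree blk e (comb ρ0 ω) < κ).card := by
      simpa [hbad2] using hω2
    omega
  · intro k
    by_contra h
    exact hω1 (Finset.mem_filter.2 ⟨Finset.mem_univ _, k, h⟩)

end Pool.Agent.NH88.FM
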