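import Mathlib

/-!
# Restrictions, decision trees, common partial decision trees
-/

namespace Pool.Agent.NH88.FM

open Classical

/-- A restriction: a partial assignment (`none` = free). -/
abbrev Restr (I : Type) := I → Option Bool

variable {I : Type}

/-- The cube of a restriction. -/
def InCube (ρ : Restr I) (x : I → Bool) : Prop := ∀ i b, ρ i = some b → x i = b

/-- Overriding a restriction on a finite set of variables. -/
noncomputable def ovr (ρ : Restr I) (B : Finset I) (v : I → Bool) : Restr I :=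
  fun i => if i ∈ B then some (v i) else ρ i

/-- Fixing one variable. -/
noncomputable def upd (ρ : Restr I) (i : I) (b : Bool) : Restr I :=
  fun j => if j = i then some b else ρ j

/-- `ρ'` refines `ρ`. -/
def Refines (ρ' ρ : Restr I) : Prop := ∀ i b, ρ i = some b → ρ' i = some b

theorem Refines.refl (ρ : Restr I) : Refines ρ ρ := fun _ _ h => h

theorem Refines.trans {ρ1 ρ2 ρ3 : Restr I} (h : Refines ρ1 ρ2) (h' : Refines ρ2 ρ3) :
    Refines ρ1 ρ3 := fun i b hb => h i b (h' i b hb)

theorem Refines.cube {ρ' ρ : Restr I} (h : Refines ρ' ρ) {x : I → Bool} (hx : InCube ρ' x) :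
    InCube ρ x := fun i b hb => hx i b (h i b hb)

theorem upd_self (ρ : Restr I) (i : I) (b : Bool) : upd ρ i b i = some b := by simp [upd]

theorem upd_of_ne (ρ : Restr I) {i j : I} (b : Bool) (h : j ≠ i) : upd ρ i b j = ρ j := by
  simp [upd, h]

theorem refines_upd {ρ : Restr I} {i : I} (hi : ρ i = none) (b : Bool) :
    Refines (upd ρ i b) ρ := by
  intro j c hc
  by_cases h : j = i
  · subst h; rw [hi] at hc; cases hc
  · rw [upd_of_ne _ _ h]; exact hc

theorem Refines.upd_left {ρ' ρ : Restr I} (h : Refines ρ' ρ) {i : I} {b : Bool}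
    (hi : ρ' i = some b) : Refines ρ' (upd ρ i b) := by
  intro j c hc
  by_cases hj : j = i
  · subst hj; rw [upd_self] at hc; rw [hi, hc]
  · rw [upd_of_ne _ _ hj] at hc; exact h j c hc

theorem Refines.upd_upd {ρ' ρ : Restr I} (h : Refines ρ' ρ) (i : I) (b : Bool) :
    Refines (upd ρ' i b) (upd ρ i b) := by
  intro j c hc
  by_cases hj : j = i
  · subst hj; rw [upd_self] at hc ⊢; exact hc
  · rw [upd_of_ne _ _ hj] at hc ⊢; exact h j c hc

theorem refines_ovr {ρ : Restr I} {B : Finset I} (hB : ∀ i ∈ B, ρ i = none) (v : I → Bool) :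
    Refines (ovr ρ B v) ρ := by
  intro j c hc
  by_cases h : j ∈ B
  · rw [hB j h] at hc; cases hc
  · simp only [ovr, h, if_false]; exact hc

/-- The function is constant on the cube. -/
def Cst (f : (I → Bool) → Prop) (ρ : Restr I) : Prop :=
  (∀ x, InCube ρ x → f x) ∨ (∀ x, InCube ρ x → ¬ f x)

theorem Cst.refine {f : (I → Bool) → Prop} {ρ ρ' : Restr I} (h : Refines ρ' ρ) (hf : Cst f ρ) :
    Cst f ρ' :=
  hf.imp (fun h1 x hx => h1 x (h.cube hx)) (fun h1 x hx => h1 x (h.cube hx))

/-- `f` has a decision tree of depth at most `d` on the cube. -/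
def DT (f : (I → Bool) → Prop) : ℕ → Restr I → Prop
  | 0, ρ => Cst f ρ
  | d + 1, ρ => Cst f ρ ∨ ∃ i, ρ i = none ∧ ∀ b, DT f d (upd ρ i b)

theorem DT.of_cst {f : (I → Bool) → Prop} {ρ : Restr I} (h : Cst f ρ) : ∀ d, DT f d ρ
  | 0 => h
  | _ + 1 => Or.inl h

theorem DT.succ {f : (I → Bool) → Prop} : ∀ {d : ℕ} {ρ : Restr I}, DT f d ρ → DT f (d + 1) ρ
  | 0, _, h => Or.inl h
  | _ + 1, _, h => by
    rcases h with h | ⟨i, hi, h⟩
    · exact Or.inl h
    · exact Or.inr ⟨i, hi, fun b => (h b).succ⟩

theorem DT.mono {f : (I → Bool) → Prop} {d d' : ℕ} {ρ : Restr I} (h : DT f d ρ) (hd : d ≤ d') :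
    DT f d' ρ := by
  induction hd with
  | refl => exact h
  | step _ ih => exact ih.succ

theorem DT.refine {f : (I → Bool) → Prop} : ∀ {d : ℕ} {ρ ρ' : Restr I}, Refines ρ' ρ →
    DT f d ρ → DT f d ρ'
  | 0, _, _, hr, h => Cst.refine hr h
  | d + 1, ρ, ρ', hr, h => by
    rcases h with h | ⟨i, hi, h⟩
    · exact Or.inl (Cst.refine hr h)
    · rcases hb : ρ' i with _ | b
      · exact Or.inr ⟨i, hb, fun b => (h b).refine (hr.upd_upd i b)⟩
      · exact ((h b).refine (hr.upd_left hb)).succ

theorem DT.not {f : (I → Bool) → Prop} : ∀ {d : ℕ} {ρ : Restr I},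
    DT f d ρ → DT (fun x => ¬ f x) d ρ
  | 0, _, h => by
    rcases h with h | h
    · exact Or.inr fun x hx hn => hn (h x hx)
    · exact Or.inl h
  | d + 1, ρ, h => by
    rcases h with h | ⟨i, hi, h⟩
    · exact Or.inl (by
        rcases h with h | h
        · exact Or.inr fun x hx hn => hn (h x hx)
        · exact Or.inl h)
    · exact Or.inr ⟨i, hi, fun b => (h b).not⟩

theorem DT.and {f g : (I → Bool) → Prop} {e : ℕ} : ∀ {d : ℕ} {ρ : Restr I},
    DT f d ρ → DT g e ρ → DT (fun x => f x ∧ g x) (d + e) ρ := by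
  have key : ∀ {ρ : Restr I}, Cst f ρ → DT g e ρ → DT (fun x => f x ∧ g x) e ρ := by
    intro ρ hc
    rcases hc with hc | hc
    · intro hg
      induction e generalizing ρ with
      | zero =>
        rcases hg with hg | hg
        · exact Or.inl fun x hx => ⟨hc x hx, hg x hx⟩
        · exact Or.inr fun x hx h => hg x hx h.2
      | succ e ih =>
        rcases hg with hg | ⟨i, hi, hg⟩
        · exact Or.inl (by
            rcases hg with hg | hg
            · exact Or.inl fun x hx => ⟨hc x hx, hg x hx⟩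
            · exact Or.inr fun x hx h => hg x hx h.2)
        · exact Or.inr ⟨i, hi, fun b =>
            ih (fun x hx => hc x ((refines_upd hi b).cube hx)) (hg b)⟩
    · intro _
      exact DT.of_cst (Or.inr fun x hx h => hc x hx h.1) e
  intro d
  induction d with
  | zero =>
    intro ρ hf hg
    rw [Nat.zero_add]
    exact key hf hg
  | succ d ih =>
    intro ρ hf hg
    rcases hf with hf | ⟨i, hi, hf⟩
    · exact (key hf hg).mono (by omega)
    · rw [show d + 1 + e = (d + e) + 1 by ring]
      exact Or.inr ⟨i, hi, fun b => ih (hf b) (hg.refine (refines_upd hi b))⟩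

theorem ovr_empty (ρ : Restr I) (v : I → Bool) : ovr ρ ∅ v = ρ := by
  funext i; simp [ovr]

theorem ovr_insert (ρ : Restr I) (B : Finset I) (i : I) (v : I → Bool) :
    ovr ρ (insert i B) v = ovr (upd ρ i (v i)) B v := by
  funext j
  by_cases hj : j ∈ B
  · simp [ovr, hj]
  · by_cases hji : j = i
    · subst hji; simp [ovr, hj, upd]
    · simp [ovr, hj, hji, upd]

theorem DT.of_finset {f : (I → Bool) → Prop} {e : ℕ} (B : Finset I) :
    ∀ {ρ : Restr I}, (∀ i ∈ B, ρ i = none) → (∀ v, DT f e (ovr ρ B v)) → DT f (e + B.card) ρ := by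
  induction B using Finset.induction_on with
  | empty =>
    intro ρ _ h
    have := h (fun _ => false)
    rw [ovr_empty] at this
    simpa using this
  | insert i B hi ih =>
    intro ρ hB h
    rw [Finset.card_insert_of_notMem hi, ← add_assoc]
    refine Or.inr ⟨i, hB i (Finset.mem_insert_self _ _), fun b => ih ?_ ?_⟩
    · intro j hj
      rw [upd_of_ne _ _ (by rintro rfl; exact hi hj)]
      exact hB j (Finset.mem_insert_of_mem hj)
    · intro v
      have := h (fun j => if j = i then b else v j)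
      rw [ovr_insert] at this
      simp only [if_true] at this
      have e2 : ovr (upd ρ i b) B (fun j => if j = i then b else v j) = ovr (upd ρ i b) B v := by
        funext j
        by_cases hj : j ∈ B
        · have : j ≠ i := by rintro rfl; exact hi hj
          simp [ovr, hj, this]
        · simp [ovr, hj]
      rwa [e2] at this

variable {S : Type}

/-- The family has a common partial decision tree of depth `t`, at whose leaves all members have
decision trees of depth `l`. -/
def CT (F : S → (I → Bool) → Prop) (l : ℕ) : ℕ → Restr I → Prop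
  | 0, ρ => ∀ s, DT (F s) l ρ
  | t + 1, ρ => (∀ s, DT (F s) l ρ) ∨ ∃ i, ρ i = none ∧ ∀ b, CT F l t (upd ρ i b)

theorem CT.of_all {F : S → (I → Bool) → Prop} {l : ℕ} {ρ : Restr I} (h : ∀ s, DT (F s) l ρ) :
    ∀ t, CT F l t ρ
  | 0 => h
  | _ + 1 => Or.inl h

theorem CT.succ {F : S → (I → Bool) → Prop} {l : ℕ} : ∀ {t : ℕ} {ρ : Restr I},
    CT F l t ρ → CT F l (t + 1) ρ
  | 0, _, h => Or.inl h
  | _ + 1, _, h => by
    rcases h with h | ⟨i, hi, h⟩
    · exact Or.inl h
    · exact Or.inr ⟨i, hi, fun b => (h b).succ⟩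

theorem CT.mono {F : S → (I → Bool) → Prop} {l t t' : ℕ} {ρ : Restr I} (h : CT F l t ρ)
    (ht : t ≤ t') : CT F l t' ρ := by
  induction ht with
  | refl => exact h
  | step _ ih => exact ih.succ

theorem CT.refine {F : S → (I → Bool) → Prop} {l : ℕ} : ∀ {t : ℕ} {ρ ρ' : Restr I},
    Refines ρ' ρ → CT F l t ρ → CT F l t ρ'
  | 0, _, _, hr, h => fun s => (h s).refine hr
  | t + 1, ρ, ρ', hr, h => by
    rcases h with h | ⟨i, hi, h⟩
    · exact Or.inl fun s => (h s).refine hr
    · rcases hb : ρ' i with _ | b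
      · exact Or.inr ⟨i, hb, fun b => (h b).refine (hr.upd_upd i b)⟩
      · exact ((h b).refine (hr.upd_left hb)).succ

theorem CT.of_finset {F : S → (I → Bool) → Prop} {l t : ℕ} (B : Finset I) :
    ∀ {ρ : Restr I}, (∀ i ∈ B, ρ i = none) → (∀ v, CT F l t (ovr ρ B v)) →
      CT F l (t + B.card) ρ := by
  induction B using Finset.induction_on with
  | empty =>
    intro ρ _ h
    have := h (fun _ => false)
    rw [ovr_empty] at this
    simpa using this
  | insert i B hi ih =>
    intro ρ hB h
    rw [Finset.card_insert_of_notMem hi, ← add_assoc]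
    refine Or.inr ⟨i, hB i (Finset.mem_insert_self _ _), fun b => ih ?_ ?_⟩
    · intro j hj
      rw [upd_of_ne _ _ (by rintro rfl; exact hi hj)]
      exact hB j (Finset.mem_insert_of_mem hj)
    · intro v
      have := h (fun j => if j = i then b else v j)
      rw [ovr_insert] at this
      simp only [if_true] at this
      have e2 : ovr (upd ρ i b) B (fun j => if j = i then b else v j) = ovr (upd ρ i b) B v := by
        funext j
        by_cases hj : j ∈ B
        · have : j ≠ i := by rintro rfl; exact hi hj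
          simp [ovr, hj, this]
        · simp [ovr, hj]
      rwa [e2] at this

/-- Composition of common trees. -/
theorem CT.bind {S' : Type} {F : S → (I → Bool) → Prop} {G : S' → (I → Bool) → Prop}
    {l l' t' : ℕ} : ∀ {t : ℕ} {ρ : Restr I}, CT F l t ρ →
    (∀ ρ', Refines ρ' ρ → (∀ s, DT (F s) l ρ') → CT G l' t' ρ') → CT G l' (t + t') ρ
  | 0, ρ, h, hG => by
    rw [Nat.zero_add]; exact hG ρ (Refines.refl ρ) h
  | t + 1, ρ, h, hG => by
    rcases h with h | ⟨i, hi, h⟩
    · exact (hG ρ (Refines.refl ρ) h).mono (by omega)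
    · rw [show t + 1 + t' = (t + t') + 1 by ring]
      exact Or.inr ⟨i, hi, fun b => (h b).bind fun ρ' hr hs =>
        hG ρ' (hr.trans (refines_upd hi b)) hs⟩

end Pool.Agent.NH88.FM
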