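import Pool.Agent.NH88.FM.BDefs

/-!
# Separators of size 2 in infinite fat forests
-/

namespace Pool.Agent.NH88.FM

namespace Sep

open Relation

variable {V : Type}

/-! ### Rooting a forest -/

theorem rooting (Γ : SimpleGraph V) (h : Γ.IsAcyclic) (rt : V → V)
    (h1 : ∀ x, Γ.Reachable x (rt x)) (h2 : ∀ x y, Γ.Reachable x y → rt x = rt y) :
    ∃ (dep : V → ℕ) (par : V → Option V), (∀ x, par x = none ↔ x = rt x) ∧
      (∀ x y, par x = some y → Γ.Adj x y ∧ dep x = dep y + 1) ∧
      ∀ x y, Γ.Adj x y → par x = some y ∨ par y = some x := by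
  classical
  choose P hP using fun x => (h1 x).exists_isPath
  let dep : V → ℕ := fun x => (P x).length
  let par : V → Option V := fun x => if x = rt x then none else some (P x).snd
  have key : ∀ x r (q : Γ.Walk x r), q.IsPath → r = rt x →
      q.length = dep x ∧ (x ≠ rt x → par x = some q.snd) := by
    intro x r q hq hr
    subst hr
    have e : q = P x := by
      have := (h.subsingleton_path x (rt x)).elim ⟨q, hq⟩ ⟨P x, hP x⟩
      exact congrArg Subtype.val this
    subst e
    refine ⟨rfl, fun hx => ?_⟩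
    simp [par, hx]
  refine ⟨dep, par, fun x => ?_, fun x y hxy => ?_, fun x y hxy => ?_⟩
  · simp [par]
  · have hx : x ≠ rt x := by
      intro hx
      simp only [par] at hxy
      rw [if_pos hx] at hxy
      exact absurd hxy (by simp)
    have hy : y = (P x).snd := by
      simp only [par] at hxy
      rw [if_neg hx] at hxy
      exact (Option.some.inj hxy).symm
    have hnil : ¬ (P x).Nil := fun hn => hx hn.eq
    have hadj : Γ.Adj x (P x).snd := (P x).adj_snd hnil
    have hrt : rt x = rt (P x).snd := h2 _ _ hadj.reachable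
    have hk := key (P x).snd (rt x) (P x).tail (hP x).tail hrt
    subst hy
    refine ⟨hadj, ?_⟩
    rw [← hk.1]
    exact ((P x).length_tail_add_one hnil).symm
  · have hrt : rt x = rt y := h2 _ _ hxy.reachable
    by_cases hs : x ∈ (P y).support
    · right
      have hy : y ≠ rt y := by
        intro hy
        have hq : (P y).length = 0 := by
          have := (key y y SimpleGraph.Walk.nil SimpleGraph.Walk.IsPath.nil hy).1
          rw [SimpleGraph.Walk.length_nil] at this
          exact this.symm
        have : x = y := by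
          rw [SimpleGraph.Walk.mem_support_iff_exists_getVert] at hs
          obtain ⟨n, hn, hn'⟩ := hs
          rw [hq] at hn'
          have : n = 0 := by omega
          subst this
          rw [← hn]; simp
        exact hxy.ne this
      have := h.eq_snd_of_adj_start (hP y) hxy.symm hs
      simp only [par]
      rw [if_neg hy, ← this]
    · left
      have hx : x ≠ rt x := by
        intro hx
        apply hs
        rw [hx, hrt]
        exact (P y).end_mem_support
      have hk := key x (rt y) (SimpleGraph.Walk.cons hxy (P y)) ((hP y).cons hs) hrt.symm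
      have := hk.2 hx
      simpa using this

/-! ### Ancestors -/

/-- `z` is an iterated parent of `x` (zero times allowed). -/
def Anc (par : V → Option V) (x z : V) : Prop := ReflTransGen (fun a b => par a = some b) x z

theorem Anc.refl (par : V → Option V) (x : V) : Anc par x x := ReflTransGen.refl

theorem Anc.trans {par : V → Option V} {x y z : V} (h : Anc par x y) (h' : Anc par y z) :
    Anc par x z := ReflTransGen.trans h h'

theorem Anc.head {par : V → Option V} {x y z : V} (h : par x = some y) (h' : Anc par y z) :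
    Anc par x z := ReflTransGen.head h h'

theorem Anc.single {par : V → Option V} {x y : V} (h : par x = some y) : Anc par x y :=
  ReflTransGen.single h

theorem Anc.cases {par : V → Option V} {x z : V} (h : Anc par x z) :
    x = z ∨ ∃ y, par x = some y ∧ Anc par y z := by
  rcases ReflTransGen.cases_head h with h | ⟨y, h, h'⟩
  · exact Or.inl h
  · exact Or.inr ⟨y, h, h'⟩

theorem Anc.step {par : V → Option V} {x y z : V} (h : par x = some y) (h' : Anc par x z)
    (hne : x ≠ z) : Anc par y z := by
  rcases h'.cases with h1 | ⟨y', h1, h2⟩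
  · exact absurd h1 hne
  · rw [h] at h1
    cases Option.some.inj h1
    exact h2

theorem Anc.acyc {par : V → Option V} (wf : WellFounded fun y x => par x = some y) {y z : V}
    (h : par y = some z) : ¬ Anc par z y := by
  induction y using wf.induction generalizing z with
  | _ y ih =>
    intro h'
    rcases h'.cases with h1 | ⟨y', h1, h2⟩
    · subst h1
      exact ih z h h (Anc.refl _ _)
    · exact ih z h h1 (h2.trans (Anc.single h))

theorem Anc.antisymm {par : V → Option V} (wf : WellFounded fun y x => par x = some y) {x z : V}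
    (h : Anc par x z) (h' : Anc par z x) : x = z := by
  rcases h.cases with h1 | ⟨y, h1, h2⟩
  · exact h1
  · exact absurd (h2.trans h') (Anc.acyc wf h1)

theorem Anc.finite {par : V → Option V} (wf : WellFounded fun y x => par x = some y) (x : V) :
    {z | Anc par x z}.Finite := by
  induction x using wf.induction with
  | _ x ih =>
    rcases hx : par x with _ | y
    · refine (Set.finite_singleton x).subset fun z hz => ?_
      rcases Anc.cases hz with h1 | ⟨y', h1, h2⟩
      · exact h1.symm
      · rw [hx] at h1; exact absurd h1 (by simp)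
    · refine ((ih y hx).insert x).subset fun z hz => ?_
      by_cases h : x = z
      · exact Or.inl h.symm
      · exact Or.inr (Anc.step hx hz h)

theorem Anc.root {par : V → Option V} (wf : WellFounded fun y x => par x = some y) (x : V) :
    ∃ r, par r = none ∧ Anc par x r := by
  induction x using wf.induction with
  | _ x ih =>
    rcases hx : par x with _ | y
    · exact ⟨x, hx, Anc.refl _ _⟩
    · obtain ⟨r, h1, h2⟩ := ih y hx
      exact ⟨r, h1, h2.head hx⟩

/-- Adding members of a family one by one. -/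
theorem greedy {S : Set V} {c : ℕ} (hc : 1 ≤ c) (D : V → Set V) (Y : Finset V)
    (hY : ∀ y ∈ Y, (D y ∩ S).ncard ≤ c) (hcY : c ≤ ((⋃ y ∈ Y, D y) ∩ S).ncard) :
    ∃ Y' : Finset V, Y' ⊆ Y ∧ c ≤ ((⋃ y ∈ Y', D y) ∩ S).ncard ∧
      ((⋃ y ∈ Y', D y) ∩ S).ncard ≤ 2 * c := by
  classical
  induction Y using Finset.induction_on with
  | empty => simp at hcY; omega
  | insert a Y ha ih =>
    by_cases h : c ≤ ((⋃ y ∈ Y, D y) ∩ S).ncard
    · obtain ⟨Y', h1, h2, h3⟩ := ih (fun y hy => hY y (Finset.mem_insert_of_mem hy)) h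
      exact ⟨Y', h1.trans (Finset.subset_insert _ _), h2, h3⟩
    · refine ⟨insert a Y, subset_rfl, hcY, ?_⟩
      have h1 : ((⋃ y ∈ insert a Y, D y) ∩ S) = (D a ∩ S) ∪ ((⋃ y ∈ Y, D y) ∩ S) := by
        rw [Finset.set_biUnion_insert, Set.union_inter_distrib_right]
      rw [h1]
      have h2 := Set.ncard_union_le (D a ∩ S) ((⋃ y ∈ Y, D y) ∩ S)
      have h3 := hY a (Finset.mem_insert_self _ _)
      omega

/-- The selection lemma. -/
theorem selection {par : V → Option V} (wf : WellFounded fun y x => par x = some y) {S : Set V}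
    (hS : S.Finite) {c : ℕ} (hc : 1 ≤ c) (hcS : 2 * c < S.ncard) :
    ∃ (o : Option V) (Y : Set V), (∀ y ∈ Y, par y = o) ∧
      c ≤ ((⋃ y ∈ Y, {x | Anc par x y}) ∩ S).ncard ∧
      ((⋃ y ∈ Y, {x | Anc par x y}) ∩ S).ncard ≤ 2 * c := by
  classical
  -- it is enough to find `o` such that every child of `o` has at most `c`, with total at least `c`
  suffices h : ∃ o : Option V, (∀ y, par y = o → ({x | Anc par x y} ∩ S).ncard ≤ c) ∧
      c ≤ ({x | ∃ y, par y = o ∧ Anc par x y} ∩ S).ncard by
    obtain ⟨o, h1, h2⟩ := h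
    have h3 : ∀ x : V, ∃ y, (∃ y, par y = o ∧ Anc par x y) → par y = o ∧ Anc par x y := by
      intro x
      by_cases hx : ∃ y, par y = o ∧ Anc par x y
      · obtain ⟨y, hy⟩ := hx
        exact ⟨y, fun _ => hy⟩
      · exact ⟨x, fun h => absurd h hx⟩
    choose f hf using h3
    have hfin : ({x | ∃ y, par y = o ∧ Anc par x y} ∩ S).Finite := hS.inter_of_right _
    let Y : Finset V := hfin.toFinset.image f
    have hYo : ∀ y ∈ Y, par y = o := by
      intro y hy
      obtain ⟨x, hx, rfl⟩ := Finset.mem_image.1 hy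
      rw [Set.Finite.mem_toFinset] at hx
      exact (hf x hx.1).1
    obtain ⟨Y', g1, g2, g3⟩ := greedy hc (fun y => {x | Anc par x y}) Y
      (fun y hy => h1 y (hYo y hy)) (by
        refine h2.trans (Set.ncard_le_ncard ?_ (hS.inter_of_right _))
        intro x hx
        refine ⟨?_, hx.2⟩
        simp only [Set.mem_iUnion]
        exact ⟨f x, Finset.mem_image.2 ⟨x, hfin.mem_toFinset.2 hx, rfl⟩, (hf x hx.1).2⟩)
    exact ⟨o, ↑Y', fun y hy => hYo y (g1 hy), by simpa using g2, by simpa using g3⟩
  by_cases hroot : ∀ y, par y = none → ({x | Anc par x y} ∩ S).ncard ≤ c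
  · refine ⟨none, hroot, ?_⟩
    have : ({x | ∃ y, par y = none ∧ Anc par x y} ∩ S) = S := by
      ext x
      simp only [Set.mem_inter_iff, Set.mem_ofPred_eq, and_iff_right_iff_imp]
      intro _
      exact Anc.root wf x
    rw [this]; omega
  · push Not at hroot
    obtain ⟨r, hr, hrc⟩ := hroot
    -- the finite set of the ancestors of `S`
    let A : Set V := ⋃ s ∈ S, {z | Anc par s z}
    have hA : A.Finite := hS.biUnion fun s _ => Anc.finite wf s
    obtain ⟨z, hz, hmin⟩ := (measure fun z => (A ∩ {x | Anc par x z}).ncard).wf.has_min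
      {z | c < ({x | Anc par x z} ∩ S).ncard} ⟨r, hrc⟩
    refine ⟨some z, fun y hy => ?_, ?_⟩
    · by_contra hlt
      push Not at hlt
      refine hmin y hlt ?_
      show (A ∩ {x | Anc par x y}).ncard < (A ∩ {x | Anc par x z}).ncard
      refine Set.ncard_lt_ncard ⟨?_, ?_⟩ (hA.inter_of_left _)
      · exact fun x hx => ⟨hx.1, hx.2.trans (Anc.single hy)⟩
      · intro hsub
        have hzA : z ∈ A := by
          have : ({x | Anc par x z} ∩ S).Nonempty := by
            rw [← Set.ncard_pos (hS.inter_of_right _)]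
            have : c < ({x | Anc par x z} ∩ S).ncard := hz
            omega
          obtain ⟨s, hs1, hs2⟩ := this
          exact Set.mem_biUnion hs2 hs1
        exact Anc.acyc wf hy (hsub ⟨hzA, Anc.refl _ _⟩).2
    · have h1 : ({x | Anc par x z} ∩ S) ⊆
          insert z ({x | ∃ y, par y = some z ∧ Anc par x y} ∩ S) := by
        intro x hx
        by_cases hxz : x = z
        · exact Or.inl hxz
        · right
          refine ⟨?_, hx.2⟩
          rcases ReflTransGen.cases_tail hx.1 with h | ⟨y, h1, h2⟩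
          · exact absurd h.symm hxz
          · exact ⟨y, h2, h1⟩
      have h2 := Set.ncard_le_ncard h1 ((hS.inter_of_right _).insert z)
      have h3 := Set.ncard_insert_le z ({x | ∃ y, par y = some z ∧ Anc par x y} ∩ S)
      have h4 : c < ({x | Anc par x z} ∩ S).ncard := hz
      omega

/-! ### The two forests -/

theorem cycle_fun {Γ : SimpleGraph V} {v : V} (q : Γ.Walk v v) (hq : q.IsCycle) :
    3 ≤ q.length ∧ (∀ i < q.length, ∀ j < q.length, q.getVert i = q.getVert j → i = j) ∧
      (∀ i, i + 1 < q.length → Γ.Adj (q.getVert i) (q.getVert (i + 1))) ∧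
      Γ.Adj (q.getVert (q.length - 1)) (q.getVert 0) := by
  have h3 := hq.three_le_length
  refine ⟨h3, fun i hi j hj hij => ?_, fun i hi => q.adj_getVert_succ (by omega), ?_⟩
  · refine hq.getVert_injOn' ?_ ?_ hij
    · show i ≤ q.length - 1
      omega
    · show j ≤ q.length - 1
      omega
  · have h := q.adj_getVert_succ (i := q.length - 1) (by omega)
    rw [show q.length - 1 + 1 = q.length by omega, q.getVert_length] at h
    rwa [q.getVert_zero]

/-- The pair graph. -/
def pairGraph (G : SimpleGraph V) (p : V → Fin 3) : SimpleGraph V where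
  Adj := PairAdj G p
  symm := ⟨fun a b h => by
    obtain ⟨h1, w, hw, h2, h3⟩ := h
    exact ⟨h1.symm.imp (fun h => ⟨h.2, h.1⟩) (fun h => ⟨h.2, h.1⟩), w, hw, h3.symm, h2.symm⟩⟩
  loopless := ⟨fun a h => by
    rcases h.1 with h | h <;> exact absurd (h.1.symm.trans h.2) (by decide)⟩

theorem pairGraph_acyclic {G : SimpleGraph V} {p : V → Fin 3} (hF : ∀ g, Fat G p g) :
    (pairGraph G p).IsAcyclic := by
  intro v q hq
  obtain ⟨h3, hinj, hadj, hlast⟩ := cycle_fun q hq
  exact (hF q.length).pair q.length h3 le_rfl (fun i => q.getVert i) hinj hadj hlast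

/-- The adjacency of the second forest. -/
def Adj1 (G : SimpleGraph V) (p : V → Fin 3) (ap : V → V) (par2 : V → Option V) (a b : V) : Prop :=
  G.Adj a b ∧ ((p a = 1 ∧ p b = 2 ∧ par2 (ap a) ≠ some b) ∨
    (p a = 2 ∧ p b = 1 ∧ par2 (ap b) ≠ some a))

/-- The data of a rooting. -/
structure Rt (G : SimpleGraph V) (p : V → Fin 3) where
  ap : V → V
  ap0 : ∀ w, p w = 1 → p (ap w) = 0
  apAdj : ∀ w, p w = 1 → G.Adj w (ap w)
  apU : ∀ w u, p w = 1 → p u = 0 → G.Adj w u → u = ap w
  dep2 : V → ℕ
  par2 : V → Option V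
  par2_adj : ∀ x y, par2 x = some y → PairAdj G p x y ∧ dep2 x = dep2 y + 1
  par2_of : ∀ x y, PairAdj G p x y → par2 x = some y ∨ par2 y = some x
  dep1 : V → ℕ
  par1 : V → Option V
  par1_adj : ∀ x y, par1 x = some y → Adj1 G p ap par2 x y ∧ dep1 x = dep1 y + 1
  par1_of : ∀ x y, Adj1 G p ap par2 x y → par1 x = some y ∨ par1 y = some x
  par1_top : ∀ w t, p w = 1 → par2 (ap w) = some t → G.Adj w t → par1 w = none
  par1_v : ∀ v, p v = 2 → par1 v = none → par2 v = none

theorem exists_rt {G : SimpleGraph V} {p : V → Fin 3} (hF : ∀ g, Fat G p g) :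
    Nonempty (Rt G p) := by
  classical
  -- the apex of a connector
  have hap : ∀ w : V, ∃ u, p w = 1 → ((p u = 0 ∧ G.Adj w u) ∧
      ∀ u', p u' = 0 → G.Adj w u' → u' = u) := by
    intro w
    by_cases hw : p w = 1
    · obtain ⟨u, h1, h2⟩ := (hF 0).uniq w hw
      exact ⟨u, fun _ => ⟨h1, fun u' h3 h4 => h2 u' ⟨h3, h4⟩⟩⟩
    · exact ⟨w, fun h => absurd h hw⟩
  choose ap hap using hap
  have ap0 : ∀ w, p w = 1 → p (ap w) = 0 := fun w hw => (hap w hw).1.1
  have apAdj : ∀ w, p w = 1 → G.Adj w (ap w) := fun w hw => (hap w hw).1.2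
  have apU : ∀ w u, p w = 1 → p u = 0 → G.Adj w u → u = ap w :=
    fun w u hw hu h => (hap w hw).2 u hu h
  -- the first forest
  obtain ⟨dep2, par2, -, par2_adj, par2_of⟩ := rooting (pairGraph G p) (pairGraph_acyclic hF)
    (fun x => ((pairGraph G p).connectedComponentMk x).out)
    (fun x => (SimpleGraph.ConnectedComponent.exact
      (Quot.out_eq ((pairGraph G p).connectedComponentMk x))).symm)
    (fun x y h => by
      show Quot.out _ = Quot.out _
      rw [SimpleGraph.ConnectedComponent.sound h])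
  have no2 : ∀ x y, par2 x = some y → par2 y ≠ some x := by
    intro x y h1 h2
    have := (par2_adj x y h1).2
    have := (par2_adj y x h2).2
    omega
  -- pair adjacency of an apex and a right vertex adjacent to one of its connectors
  have hpair : ∀ w v, p w = 1 → p v = 2 → G.Adj w v → PairAdj G p (ap w) v := by
    intro w v hw hv h
    exact ⟨Or.inl ⟨ap0 w hw, hv⟩, w, hw, (apAdj w hw).symm, h⟩
  let lab : V → Option V := fun x => if p x = 1 then some (ap x) else par2 x
  have hlab : ∀ w v, p w = 1 → p v = 2 → G.Adj w v → par2 (ap w) ≠ some v →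
      par2 v = some (ap w) := by
    intro w v hw hv h hne
    rcases par2_of _ _ (hpair w v hw hv h) with h1 | h1
    · exact absurd h1 hne
    · exact h1
  let Γ : SimpleGraph V :=
    { Adj := Adj1 G p ap par2
      symm := ⟨fun a b h => ⟨h.1.symm, h.2.symm.imp (fun h => ⟨h.2.1, h.1, h.2.2⟩)
        (fun h => ⟨h.2.1, h.1, h.2.2⟩)⟩⟩
      loopless := ⟨fun a h => h.1.ne rfl⟩ }
  have lab_adj : ∀ a b, Γ.Adj a b → lab a = lab b ∧ ∃ u, lab a = some u := by
    intro a b h
    obtain ⟨h1, ⟨ha, hb, hne⟩ | ⟨ha, hb, hne⟩⟩ := h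
    · have := hlab a b ha hb h1 hne
      simp [lab, ha, hb, this]
    · have := hlab b a hb ha h1.symm hne
      simp [lab, ha, hb, this]
  have blk_adj : ∀ a b u, Γ.Adj a b → lab a = some u → BlkAdj G p u a b := by
    intro a b u h hu
    have hl := (lab_adj a b h).1
    obtain ⟨h1, ⟨ha, hb, hne⟩ | ⟨ha, hb, hne⟩⟩ := h
    · refine ⟨h1, Or.inl ⟨ha, hb, ?_⟩⟩
      have : ap a = u := by simpa [lab, ha] using hu
      rw [← this]; exact apAdj a ha
    · refine ⟨h1, Or.inr ⟨ha, hb, ?_⟩⟩
      have : ap b = u := by simpa [lab, hb, hu] using hl.symm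
      rw [← this]; exact apAdj b hb
  have lab_reach : ∀ {a b}, Γ.Reachable a b → lab a = lab b := by
    intro a b h
    obtain ⟨q⟩ := h
    induction q with
    | nil => rfl
    | cons h q ih => exact (lab_adj _ _ h).1.trans ih
  have hacyc : Γ.IsAcyclic := by
    intro v q hq
    obtain ⟨h3, hinj, hadj, hlast⟩ := cycle_fun q hq
    obtain ⟨u, hu⟩ := (lab_adj _ _ (hadj 0 (by omega))).2
    have hall : ∀ i, lab (q.getVert i) = some u := by
      intro i
      rw [← hu]
      have h1 : Γ.Reachable v (q.getVert i) := ⟨q.take i⟩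
      have h0 : Γ.Reachable v (q.getVert 0) := ⟨q.take 0⟩
      exact (lab_reach h1).symm.trans (lab_reach h0)
    have hu0 : p u = 0 := by
      have hl := hadj 0 (by omega)
      obtain ⟨h1, ⟨ha, hb, hne⟩ | ⟨ha, hb, hne⟩⟩ := hl
      · have := hall 0
        simp only [lab] at this
        rw [if_pos ha] at this
        rw [← Option.some.inj this]; exact ap0 _ ha
      · have := hall 1
        simp only [lab] at this
        rw [if_pos hb] at this
        rw [← Option.some.inj this]; exact ap0 _ hb
    exact (hF q.length).blk u hu0 q.length h3 le_rfl (fun i => q.getVert i) hinj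
      (fun i hi => blk_adj _ _ _ (hadj i hi) (hall i)) (blk_adj _ _ _ hlast (hall _))
  have huniq : ∀ w w' t t', p w = 1 → p w' = 1 → Γ.Reachable w w' → par2 (ap w) = some t →
      G.Adj w t → par2 (ap w') = some t' → G.Adj w' t' → w = w' := by
    intro w w' t t' hw hw' hr ht hwt ht' hwt'
    by_contra hne
    have hl := lab_reach hr
    simp only [lab] at hl
    rw [if_pos hw, if_pos hw'] at hl
    have hu := Option.some.inj hl
    have htt : t = t' := by
      rw [hu, ht'] at ht
      exact (Option.some.inj ht).symm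
    subst htt
    have hpt : p t = 2 := by
      rcases (par2_adj _ _ ht).1.1 with h | h
      · exact h.2
      · exact absurd (h.1.symm.trans (ap0 w hw)) (by decide)
    obtain ⟨q, hq⟩ := hr.exists_isPath
    have hL : 1 ≤ q.length := by
      by_contra h
      exact hne (SimpleGraph.Walk.eq_of_length_eq_zero (by omega : q.length = 0))
    have hall : ∀ i, lab (q.getVert i) = some (ap w) := by
      intro i
      have h1 : Γ.Reachable w (q.getVert i) := ⟨q.take i⟩
      rw [← lab_reach h1]
      simp only [lab]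
      rw [if_pos hw]
    have hnt : ∀ i, q.getVert i ≠ t := by
      intro i hi
      have := hall i
      rw [hi] at this
      simp only [lab] at this
      rw [if_neg (by rw [hpt]; decide)] at this
      exact no2 _ _ ht this
    refine (hF (q.length + 2)).blk (ap w) (ap0 w hw) (q.length + 2) (by omega) le_rfl
      (fun i => if i ≤ q.length then q.getVert i else t) ?_ ?_ ?_
    · intro i hi j hj hij
      by_cases h1 : i ≤ q.length <;> by_cases h2 : j ≤ q.length
      · rw [if_pos h1, if_pos h2] at hij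
        exact hq.getVert_injOn h1 h2 hij
      · rw [if_pos h1, if_neg h2] at hij
        exact absurd hij (hnt i)
      · rw [if_neg h1, if_pos h2] at hij
        exact absurd hij.symm (hnt j)
      · omega
    · intro i hi
      by_cases h1 : i + 1 ≤ q.length
      · rw [if_pos (by omega : i ≤ q.length), if_pos h1]
        exact blk_adj _ _ _ (q.adj_getVert_succ (by omega)) (hall i)
      · rw [if_pos (by omega : i ≤ q.length), if_neg h1, show i = q.length by omega,
          q.getVert_length]
        exact ⟨hwt', Or.inl ⟨hw', hpt, by rw [hu]; exact apAdj _ hw'⟩⟩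
    · rw [if_neg (by omega), if_pos (by omega), q.getVert_zero]
      exact ⟨hwt.symm, Or.inr ⟨hpt, hw, apAdj _ hw⟩⟩
  -- the roots of the second forest
  have hrc : ∀ C : Γ.ConnectedComponent, ∃ r, Γ.connectedComponentMk r = C ∧
      ((∃ w, Γ.connectedComponentMk w = C ∧ p w = 1 ∧ ∃ t, par2 (ap w) = some t ∧ G.Adj w t) →
        p r = 1 ∧ ∃ t, par2 (ap r) = some t ∧ G.Adj r t) ∧
      ((∃ w, Γ.connectedComponentMk w = C ∧ p w = 1) → p r = 1) := by
    intro C
    by_cases h1 : ∃ w, Γ.connectedComponentMk w = C ∧ p w = 1 ∧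
        ∃ t, par2 (ap w) = some t ∧ G.Adj w t
    · obtain ⟨w, hC, hw, ht⟩ := h1
      exact ⟨w, hC, fun _ => ⟨hw, ht⟩, fun _ => hw⟩
    · by_cases h2 : ∃ w, Γ.connectedComponentMk w = C ∧ p w = 1
      · obtain ⟨w, hC, hw⟩ := h2
        exact ⟨w, hC, fun h => absurd h h1, fun _ => hw⟩
      · exact ⟨C.out, Quot.out_eq C, fun h => absurd h h1, fun h => absurd h h2⟩
  choose rc hrc1 hrc2 hrc3 using hrc
  obtain ⟨dep1, par1, par1_none, par1_adj, par1_of⟩ := rooting Γ hacyc
    (fun x => rc (Γ.connectedComponentMk x))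
    (fun x => (SimpleGraph.ConnectedComponent.exact (hrc1 (Γ.connectedComponentMk x))).symm)
    (fun x y h => by
      show rc _ = rc _
      rw [SimpleGraph.ConnectedComponent.sound h])
  refine ⟨⟨ap, ap0, apAdj, apU, dep2, par2, par2_adj, par2_of, dep1, par1, par1_adj, par1_of,
    ?_, ?_⟩⟩
  · intro w t hw ht hwt
    rw [par1_none]
    obtain ⟨h1, t', h2, h3⟩ := hrc2 (Γ.connectedComponentMk w) ⟨w, rfl, hw, t, ht, hwt⟩
    exact huniq _ _ _ _ hw h1
      (SimpleGraph.ConnectedComponent.exact (hrc1 (Γ.connectedComponentMk w))).symm ht hwt h2 h3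
  · intro v hv hnone
    rw [par1_none] at hnone
    rcases h2 : par2 v with _ | u
    · rfl
    · exfalso
      obtain ⟨hpv, w, hw, hvw, hwu⟩ := (par2_adj v u h2).1
      have hpu : p u = 0 := by
        rcases hpv with h | h
        · exact absurd (h.1.symm.trans hv) (by decide)
        · exact h.2
      have hua : u = ap w := apU w u hw hpu hwu
      have hadj : Γ.Adj v w := by
        refine ⟨hvw, Or.inr ⟨hv, hw, ?_⟩⟩
        rw [← hua]
        exact no2 v u h2
      have h3 := hrc3 (Γ.connectedComponentMk v)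
        ⟨w, (SimpleGraph.ConnectedComponent.sound hadj.reachable).symm, hw⟩
      rw [← hnone, hv] at h3
      exact absurd h3 (by decide)

/-! ### The spanning forest -/

namespace Rt

variable {G : SimpleGraph V} {p : V → Fin 3} (R : Rt G p)

open Classical in
/-- The label of a vertex of part 1 or 2: the apex of its block. -/
noncomputable def lab (x : V) : Option V := if p x = 1 then some (R.ap x) else R.par2 x

open Classical in
/-- The parent function. -/
noncomputable def ps (x : V) : Option V :=
  if p x = 0 then R.par2 x else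
    if p x = 1 then (if R.par1 x = none then some (R.ap x) else R.par1 x) else R.par1 x

theorem no2 {x y : V} (h : R.par2 x = some y) : R.par2 y ≠ some x := by
  intro h2
  have := (R.par2_adj x y h).2
  have := (R.par2_adj y x h2).2
  omega

theorem ps0 {x : V} (h : p x = 0) : R.ps x = R.par2 x := by
  rw [ps, if_pos h]

theorem ps1 {x : V} (h : p x = 1) (h' : R.par1 x = none) : R.ps x = some (R.ap x) := by
  rw [ps, if_neg (by rw [h]; decide), if_pos h, if_pos h']

theorem ps1' {x : V} (h : p x ≠ 0) {y : V} (h' : R.par1 x = some y) : R.ps x = some y := by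
  rw [ps, if_neg h, h']
  simp

theorem ps2 {x : V} (h : p x = 2) : R.ps x = R.par1 x := by
  rw [ps, if_neg (by rw [h]; decide), if_neg (by rw [h]; decide)]

theorem pair {w v : V} (hw : p w = 1) (hv : p v = 2) (h : G.Adj w v) : PairAdj G p (R.ap w) v :=
  ⟨Or.inl ⟨R.ap0 w hw, hv⟩, w, hw, (R.apAdj w hw).symm, h⟩

theorem lab1 {x : V} (h : p x = 1) : R.lab x = some (R.ap x) := by rw [lab, if_pos h]

theorem lab2 {x : V} (h : p x = 2) : R.lab x = R.par2 x := by
  rw [lab, if_neg (by rw [h]; decide)]

theorem lab_adj {a b : V} (h : Adj1 G p R.ap R.par2 a b) :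
    R.lab a = R.lab b ∧ p a ≠ 0 ∧ p b ≠ 0 := by
  obtain ⟨h1, ⟨ha, hb, hne⟩ | ⟨ha, hb, hne⟩⟩ := h
  · rw [R.lab1 ha, R.lab2 hb]
    refine ⟨?_, by rw [ha]; decide, by rw [hb]; decide⟩
    rcases R.par2_of _ _ (R.pair ha hb h1) with h2 | h2
    · exact absurd h2 hne
    · exact h2.symm
  · rw [R.lab1 hb, R.lab2 ha]
    refine ⟨?_, by rw [ha]; decide, by rw [hb]; decide⟩
    rcases R.par2_of _ _ (R.pair hb ha h1.symm) with h2 | h2
    · exact absurd h2 hne
    · exact h2

theorem lab_par1 {x y : V} (h : R.par1 x = some y) : R.lab x = R.lab y ∧ p x ≠ 0 ∧ p y ≠ 0 :=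
  R.lab_adj (R.par1_adj x y h).1

/-- The parts. -/
theorem part_cases (p : V → Fin 3) (x : V) : p x = 0 ∨ p x = 1 ∨ p x = 2 := by
  generalize p x = i
  fin_cases i <;> simp

theorem par2_part {x y : V} (h : R.par2 x = some y) : (p x = 0 ∧ p y = 2) ∨ (p x = 2 ∧ p y = 0) :=
  (R.par2_adj x y h).1.1

open Classical in
/-- The key which decreases along `ps`. -/
noncomputable def key (x : V) : ℕ ×ₗ ℕ :=
  if p x = 0 then toLex (R.dep2 x, 0) else
    match R.lab x with
    | some u => toLex (R.dep2 u, R.dep1 x + 1)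
    | none => toLex (0, 0)

theorem key0 {x : V} (h : p x = 0) : R.key x = toLex (R.dep2 x, 0) := by rw [key, if_pos h]

theorem key1 {x u : V} (h : p x ≠ 0) (h' : R.lab x = some u) :
    R.key x = toLex (R.dep2 u, R.dep1 x + 1) := by rw [key, if_neg h, h']

theorem key2 {x : V} (h : p x ≠ 0) (h' : R.lab x = none) : R.key x = toLex (0, 0) := by
  rw [key, if_neg h, h']

theorem lab_some_of_par1 {x y : V} (h : R.par1 x = some y) : ∃ u, R.lab x = some u := by
  obtain ⟨h1, ⟨ha, hb, hne⟩ | ⟨ha, hb, hne⟩⟩ := (R.par1_adj x y h).1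
  · exact ⟨_, R.lab1 ha⟩
  · rw [(R.lab_par1 h).1]
    exact ⟨_, R.lab1 hb⟩

theorem key_lt {x y : V} (h : R.ps x = some y) : R.key y < R.key x := by
  rcases part_cases p x with hx | hx | hx
  · -- an apex
    rw [R.ps0 hx] at h
    have hd := (R.par2_adj x y h).2
    have hy : p y = 2 := by
      rcases R.par2_part h with h | h
      · exact h.2
      · exact absurd (h.1.symm.trans hx) (by decide)
    rw [R.key0 hx]
    rcases h2 : R.par2 y with _ | u
    · rw [R.key2 (by rw [hy]; decide) (by rw [R.lab2 hy, h2])]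
      rw [Prod.Lex.toLex_lt_toLex]
      left; simp only; omega
    · rw [R.key1 (by rw [hy]; decide) (by rw [R.lab2 hy, h2])]
      have := (R.par2_adj y u h2).2
      rw [Prod.Lex.toLex_lt_toLex]
      left; simp only; omega
  · -- a connector
    rcases h1 : R.par1 x with _ | z
    · rw [R.ps1 hx h1] at h
      obtain rfl := Option.some.inj h
      rw [R.key0 (R.ap0 x hx), R.key1 (by rw [hx]; decide) (R.lab1 hx)]
      rw [Prod.Lex.toLex_lt_toLex]
      right; simp
    · rw [R.ps1' (by rw [hx]; decide) h1] at h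
      obtain rfl := Option.some.inj h
      obtain ⟨h3, h4, h5⟩ := R.lab_par1 h1
      have hl := R.lab1 hx
      rw [R.key1 h4 hl, R.key1 h5 (h3.symm.trans hl)]
      have := (R.par1_adj x z h1).2
      rw [Prod.Lex.toLex_lt_toLex]
      right; simp only [true_and]; omega
  · -- a right vertex
    rw [R.ps2 hx] at h
    obtain ⟨h3, h4, h5⟩ := R.lab_par1 h
    obtain ⟨u, hl⟩ := R.lab_some_of_par1 h
    rw [R.key1 h4 hl, R.key1 h5 (h3.symm.trans hl)]
    have := (R.par1_adj x y h).2
    rw [Prod.Lex.toLex_lt_toLex]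
    right; simp only [true_and]; omega

theorem wf : WellFounded fun y x => R.ps x = some y :=
  Subrelation.wf (h₁ := fun h => R.key_lt h) (InvImage.wf R.key wellFounded_lt)

/-- A right vertex with a label is not a root of the second forest. -/
theorem par1_ne {v u : V} (hv : p v = 2) (hl : R.lab v = some u) : R.par1 v ≠ none := by
  intro h
  rw [R.lab2 hv, R.par1_v v hv h] at hl
  exact absurd hl (by simp)

/-- The apex of the block is an ancestor. -/
theorem anc_lab {x : V} : ∀ u, p x ≠ 0 → R.lab x = some u → Anc R.ps x u := by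
  induction x using R.wf.induction with
  | _ x ih =>
    intro u hx hl
    rcases h1 : R.par1 x with _ | y
    · rcases part_cases p x with h | h | h
      · exact absurd h hx
      · rw [R.lab1 h] at hl
        obtain rfl := Option.some.inj hl
        exact Anc.single (R.ps1 h h1)
      · exact absurd h1 (R.par1_ne h hl)
    · obtain ⟨h3, h4, h5⟩ := R.lab_par1 h1
      have h6 := R.ps1' h4 h1
      exact Anc.head h6 (ih y h6 u h5 (h3.symm.trans hl))

/-- An ancestor lies in the same block or is an ancestor of the apex. -/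
theorem anc_block {x z u : V} (hx : p x ≠ 0) (hl : R.lab x = some u) (h : Anc R.ps x z) :
    (p z ≠ 0 ∧ R.lab z = some u) ∨ Anc R.ps u z := by
  induction h with
  | refl => exact Or.inl ⟨hx, hl⟩
  | @tail y z _ hyz ih =>
    have hyz : R.ps y = some z := hyz
    rcases ih with ⟨h1, h2⟩ | h1
    · rcases h3 : R.par1 y with _ | z'
      · rcases part_cases p y with h | h | h
        · exact absurd h h1
        · rw [R.ps1 h h3] at hyz
          rw [R.lab1 h] at h2
          rw [← Option.some.inj hyz, ← Option.some.inj h2]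
          exact Or.inr (Anc.refl _ _)
        · exact absurd h3 (R.par1_ne h h2)
      · rw [R.ps1' h1 h3] at hyz
        obtain rfl := Option.some.inj hyz
        obtain ⟨h4, -, h5⟩ := R.lab_par1 h3
        exact Or.inl ⟨h5, h4.symm.trans h2⟩
    · exact Or.inr (h1.trans (Anc.single hyz))

theorem edge_cases (hF : Fat G p 0) {x x' : V} (h : G.Adj x x') :
    R.ps x = some x' ∨ R.ps x' = some x ∨ (p x = 1 ∧ x' = R.ap x) ∨ (p x' = 1 ∧ x = R.ap x') ∨
      (R.ps x = some (R.ap x) ∧ p (R.ap x) = 0 ∧ R.ps (R.ap x) = some x') ∨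
      (R.ps x' = some (R.ap x') ∧ R.ps (R.ap x') = some x) := by
  have key : ∀ w v, p w = 1 → p v = 2 → G.Adj w v → R.ps w = some v ∨ R.ps v = some w ∨
      (R.ps w = some (R.ap w) ∧ p (R.ap w) = 0 ∧ R.ps (R.ap w) = some v) := by
    intro w v hw hv hwv
    by_cases hne : R.par2 (R.ap w) = some v
    · right; right
      exact ⟨R.ps1 hw (R.par1_top w v hw hne hwv), R.ap0 w hw, by rw [R.ps0 (R.ap0 w hw), hne]⟩
    · rcases R.par1_of w v ⟨hwv, Or.inl ⟨hw, hv, hne⟩⟩ with h1 | h1
      · left; exact R.ps1' (by rw [hw]; decide) h1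
      · right; left; exact R.ps1' (by rw [hv]; decide) h1
  rcases hF.parts x x' h with ⟨h1, h2⟩ | ⟨h1, h2⟩ | ⟨h1, h2⟩ | ⟨h1, h2⟩
  · have := R.apU x' x h2 h1 h.symm
    tauto
  · have := R.apU x x' h1 h2 h
    tauto
  · rcases key x x' h1 h2 h with h3 | h3 | h3
    · tauto
    · tauto
    · tauto
  · rcases key x' x h2 h1 h.symm with h3 | h3 | h3
    · tauto
    · tauto
    · tauto

open Classical in
/-- The second boundary vertex. -/
noncomputable def z2 (z : V) : V := if p z = 0 then (R.ps z).getD z else (R.lab z).getD z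

theorem anc_z2 (z : V) : Anc R.ps z (R.z2 z) := by
  rw [z2]
  split_ifs with h
  · rcases h1 : R.ps z with _ | y
    · exact Anc.refl _ _
    · exact Anc.single h1
  · rcases h1 : R.lab z with _ | y
    · exact Anc.refl _ _
    · exact R.anc_lab y h h1

theorem bd (hF : Fat G p 0) {x x' y : V} (h : Anc R.ps x y) (h' : ¬ Anc R.ps x' y)
    (hadj : G.Adj x x') : ∃ z, R.ps y = some z ∧ (x' = z ∨ x' = R.z2 z) := by
  rcases R.edge_cases hF hadj with h1 | h1 | ⟨h1, h2⟩ | ⟨h1, h2⟩ | ⟨h1, h2, h3⟩ | ⟨h1, h2⟩
  · by_cases hxy : x = y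
    · subst hxy
      exact ⟨x', h1, Or.inl rfl⟩
    · exact absurd (Anc.step h1 h hxy) h'
  · exact absurd (h.head h1) h'
  · rcases R.anc_block (by rw [h1]; decide) (R.lab1 h1) h with ⟨h3, h4⟩ | h3
    · rcases h5 : R.par1 y with _ | z
      · rcases part_cases p y with h6 | h6 | h6
        · exact absurd h6 h3
        · rw [R.lab1 h6] at h4
          refine ⟨x', ?_, Or.inl rfl⟩
          rw [R.ps1 h6 h5, h4, h2]
        · exact absurd h5 (R.par1_ne h6 h4)
      · refine ⟨z, R.ps1' h3 h5, Or.inr ?_⟩
        obtain ⟨h6, -, h7⟩ := R.lab_par1 h5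
        rw [z2, if_neg h7, ← h6, h4, h2]
        rfl
    · rw [← h2] at h3
      exact absurd h3 h'
  · have h3 := R.anc_lab _ (by rw [h1]; decide) (R.lab1 h1)
    rw [← h2] at h3
    exact absurd (h3.trans h) h'
  · by_cases hxy : x = y
    · subst hxy
      refine ⟨_, h1, Or.inr ?_⟩
      rw [z2, if_pos h2, h3]
      rfl
    · have h4 := Anc.step h1 h hxy
      by_cases hay : R.ap x = y
      · rw [← hay]
        exact ⟨x', h3, Or.inl rfl⟩
      · exact absurd (Anc.step h3 h4 hay) h'
  · exact absurd ((h.head h2).head h1) h'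

end Rt

end Sep

open Pool.Agent.NH88.FM.Sep in
theorem sepStmt : SepStmt := by
  intro V G p hF S hS c hc hcS
  obtain ⟨R⟩ := exists_rt hF
  obtain ⟨o, Y, hY, h1, h2⟩ := selection R.wf hS hc hcS
  have hbd : ∀ x ∈ ⋃ y ∈ Y, {x | Anc R.ps x y}, ∀ x', x' ∉ ⋃ y ∈ Y, {x | Anc R.ps x y} →
      G.Adj x x' → ∃ z, o = some z ∧ (x' = z ∨ x' = R.z2 z) := by
    intro x hx x' hx' hadj
    simp only [Set.mem_iUnion, Set.mem_ofPred_eq, not_exists] at hx hx'
    obtain ⟨y, hy, hxy⟩ := hx
    have := R.bd (hF 0) hxy (hx' y hy) hadj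
    rwa [hY y hy] at this
  rcases o with _ | z
  · obtain ⟨s, hs, hsX⟩ : ∃ s ∈ S, s ∉ ⋃ y ∈ Y, {x | Anc R.ps x y} := by
      by_contra hcon
      push Not at hcon
      have : (⋃ y ∈ Y, {x | Anc R.ps x y}) ∩ S = S := Set.inter_eq_right.2 hcon
      rw [this] at h2
      omega
    refine ⟨s, s, _, hsX, hsX, h1, h2, fun x hx x' hx' hadj => ?_⟩
    obtain ⟨z, hz, -⟩ := hbd x hx x' hx' hadj
    exact absurd hz (by simp)
  · refine ⟨z, R.z2 z, _, ?_, ?_, h1, h2, fun x hx x' hx' hadj => ?_⟩
    · intro hz
      simp only [Set.mem_iUnion, Set.mem_ofPred_eq] at hz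
      obtain ⟨y, hy, hzy⟩ := hz
      exact Anc.acyc R.wf (hY y hy) hzy
    · intro hz
      simp only [Set.mem_iUnion, Set.mem_ofPred_eq] at hz
      obtain ⟨y, hy, hzy⟩ := hz
      exact Anc.acyc R.wf (hY y hy) ((R.anc_z2 z).trans hzy)
    · obtain ⟨z', hz, hz'⟩ := hbd x hx x' hx' hadj
      obtain rfl := Option.some.inj hz
      exact hz'

end Pool.Agent.NH88.FM
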