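import Pool.Agent.NH88.FM.Switch

/-!
# One quantifier step
-/

namespace Pool.Agent.NH88.FM

open Classical

variable {I : Type}

theorem InCube.upd_self {ρ : Restr I} {x : I → Bool} (hx : InCube ρ x) (i : I) :
    InCube (upd ρ i (x i)) x := by
  intro j b hb
  by_cases hj : j = i
  · subst hj; rw [Pool.Agent.NH88.FM.upd_self] at hb; exact Option.some.inj hb
  · rw [upd_of_ne _ _ hj] at hb; exact hx j b hb

/-- A function with a decision tree of depth `w` is a disjunction of terms of width `w`. -/
theorem DT.terms {f : (I → Bool) → Prop} : ∀ {w : ℕ} {ρ : Restr I}, DT f w ρ →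
    ∃ L : List (List (I × Bool)), (∀ T ∈ L, T.length ≤ w ∧ (∀ y ∈ T, ρ y.1 = none) ∧
      ∀ y ∈ T, ∀ z ∈ T, y.1 = z.1 → y.2 = z.2) ∧
      ∀ x, InCube ρ x → (f x ↔ ∃ T ∈ L, ∀ y ∈ T, x y.1 = y.2) := by
  have key : ∀ {w : ℕ} {ρ : Restr I}, Cst f ρ →
      ∃ L : List (List (I × Bool)), (∀ T ∈ L, T.length ≤ w ∧ (∀ y ∈ T, ρ y.1 = none) ∧
        ∀ y ∈ T, ∀ z ∈ T, y.1 = z.1 → y.2 = z.2) ∧
        ∀ x, InCube ρ x → (f x ↔ ∃ T ∈ L, ∀ y ∈ T, x y.1 = y.2) := by
    intro w ρ h
    rcases h with h | h
    · exact ⟨[[]], by simp, fun x hx => by simp [h x hx]⟩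
    · exact ⟨[], by simp, fun x hx => by simp [h x hx]⟩
  intro w
  induction w with
  | zero => intro ρ h; exact key h
  | succ w ih =>
    intro ρ h
    rcases h with h | ⟨i, hi, h⟩
    · exact key h
    · obtain ⟨L0, h01, h02⟩ := ih (h false)
      obtain ⟨L1, h11, h12⟩ := ih (h true)
      have aux : ∀ (b : Bool) (Lb : List (List (I × Bool))),
          (∀ T ∈ Lb, T.length ≤ w ∧ (∀ y ∈ T, upd ρ i b y.1 = none) ∧
            ∀ y ∈ T, ∀ z ∈ T, y.1 = z.1 → y.2 = z.2) →
          ∀ T ∈ Lb.map (fun T => (i, b) :: T), T.length ≤ w + 1 ∧ (∀ y ∈ T, ρ y.1 = none) ∧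
            ∀ y ∈ T, ∀ z ∈ T, y.1 = z.1 → y.2 = z.2 := by
        intro b Lb hb T hT
        obtain ⟨T', hT', rfl⟩ := List.mem_map.1 hT
        obtain ⟨hl, hfree, hc⟩ := hb T' hT'
        have hne : ∀ y ∈ T', y.1 ≠ i := by
          intro y hy he
          have := hfree y hy
          rw [he, Pool.Agent.NH88.FM.upd_self] at this
          cases this
        refine ⟨by simp; exact hl, ?_, ?_⟩
        · intro y hy
          rcases List.mem_cons.1 hy with rfl | hy
          · exact hi
          · have := hfree y hy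
            rwa [upd_of_ne _ _ (hne y hy)] at this
        · intro y hy z hz hyz
          rcases List.mem_cons.1 hy with rfl | hy
          · rcases List.mem_cons.1 hz with rfl | hz
            · rfl
            · exact absurd hyz.symm (hne z hz)
          · rcases List.mem_cons.1 hz with rfl | hz
            · exact absurd hyz (hne y hy)
            · exact hc y hy z hz hyz
      refine ⟨L0.map (fun T => (i, false) :: T) ++ L1.map (fun T => (i, true) :: T), ?_, ?_⟩
      · intro T hT
        rcases List.mem_append.1 hT with hT | hT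
        · exact aux false L0 h01 T hT
        · exact aux true L1 h11 T hT
      · intro x hx
        have hxi := hx.upd_self i
        rcases hb : x i with _ | _
        · rw [hb] at hxi
          rw [h02 x hxi]
          constructor
          · rintro ⟨T, hT, h⟩
            refine ⟨(i, false) :: T, List.mem_append_left _ (List.mem_map.2 ⟨T, hT, rfl⟩), ?_⟩
            intro y hy
            rcases List.mem_cons.1 hy with rfl | hy
            · exact hb
            · exact h y hy
          · rintro ⟨T, hT, h⟩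
            rcases List.mem_append.1 hT with hT | hT
            · obtain ⟨T', hT', rfl⟩ := List.mem_map.1 hT
              exact ⟨T', hT', fun y hy => h y (List.mem_cons_of_mem _ hy)⟩
            · obtain ⟨T', hT', rfl⟩ := List.mem_map.1 hT
              have := h (i, true) List.mem_cons_self
              rw [hb] at this; cases this
        · rw [hb] at hxi
          rw [h12 x hxi]
          constructor
          · rintro ⟨T, hT, h⟩
            refine ⟨(i, true) :: T, List.mem_append_right _ (List.mem_map.2 ⟨T, hT, rfl⟩), ?_⟩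
            intro y hy
            rcases List.mem_cons.1 hy with rfl | hy
            · exact hb
            · exact h y hy
          · rintro ⟨T, hT, h⟩
            rcases List.mem_append.1 hT with hT | hT
            · obtain ⟨T', hT', rfl⟩ := List.mem_map.1 hT
              have := h (i, false) List.mem_cons_self
              rw [hb] at this; cases this
            · obtain ⟨T', hT', rfl⟩ := List.mem_map.1 hT
              exact ⟨T', hT', fun y hy => h y (List.mem_cons_of_mem _ hy)⟩

/-- The constant per stage. -/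
def K0 (w l : ℕ) : ℕ := (2 ^ w * 2 ^ w) ^ (l + 1) * 2 ^ (l + w)

variable {S Z : Type} [Fintype I] [Fintype S] [Fintype Z]

theorem leaf_bound {q w l : ℕ} (hq : 1 ≤ q) (J : ℕ) {ρ0 : Restr I}
    {G : S × Z → (I → Bool) → Prop} (hG : ∀ y, DT (G y) w ρ0) :
    (∑ ω : Restr I with ¬ CT (fun s x => ∃ z, G (s, z) x) l (J * (l + w)) (comb ρ0 ω),
      Wt q ω) * q ^ ((l + 1) * J) ≤
      (Fintype.card S * K0 w l) ^ J * (2 * q + 1) ^ Fintype.card I := by
  choose L h1 h2 using fun y => (hG y).terms
  refine msl (F := fun s x => ∃ z, G (s, z) x)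
    (L := fun s => (Finset.univ : Finset Z).toList.flatMap fun z => L (s, z)) hq J ?_ ?_
  · intro s T hT
    obtain ⟨z, _, hT⟩ := List.mem_flatMap.1 hT
    exact h1 (s, z) T hT
  · intro s x hx
    constructor
    · rintro ⟨z, hz⟩
      obtain ⟨T, hT, h⟩ := (h2 (s, z) x hx).1 hz
      exact ⟨T, List.mem_flatMap.2 ⟨z, by simp, hT⟩, h⟩
    · rintro ⟨T, hT, h⟩
      obtain ⟨z, _, hT⟩ := List.mem_flatMap.1 hT
      exact ⟨z, (h2 (s, z) x hx).2 ⟨T, hT, h⟩⟩

omit [Fintype I] in
theorem comb_upd_none {ρ0 ω : Restr I} {i : I} (b : Bool) :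
    comb (upd ρ0 i b) ω = upd (comb ρ0 ω) i b := by
  funext j
  by_cases hj : j = i
  · subst hj
    rw [comb_some (Pool.Agent.NH88.FM.upd_self _ _ _), Pool.Agent.NH88.FM.upd_self]
  · rw [upd_of_ne _ _ hj]
    simp only [comb, upd_of_ne _ _ hj]

theorem tree_bound {q w l : ℕ} (hq : 1 ≤ q) (J : ℕ) {G : S × Z → (I → Bool) → Prop} :
    ∀ {t0 : ℕ} {ρ0 : Restr I}, CT G w t0 ρ0 →
    (∑ ω : Restr I with ¬ CT (fun s x => ∃ z, G (s, z) x) l (t0 + J * (l + w)) (comb ρ0 ω),
      Wt q ω) * q ^ ((l + 1) * J) ≤
      2 ^ t0 * ((Fintype.card S * K0 w l) ^ J * (2 * q + 1) ^ Fintype.card I) := by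
  intro t0
  induction t0 with
  | zero =>
    intro ρ0 h
    rw [pow_zero, one_mul, Nat.zero_add]
    exact leaf_bound hq J h
  | succ t0 ih =>
    intro ρ0 h
    rcases h with h | ⟨i, hi, h⟩
    · calc _ ≤ (∑ ω : Restr I with ¬ CT (fun s x => ∃ z, G (s, z) x) l (J * (l + w))
            (comb ρ0 ω), Wt q ω) * q ^ ((l + 1) * J) := by
              refine Nat.mul_le_mul_right _ (Finset.sum_le_sum_of_subset fun ω hω => ?_)
              simp only [Finset.mem_filter, Finset.mem_univ, true_and] at hω ⊢
              exact fun hc => hω (hc.mono (by omega))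
        _ ≤ (Fintype.card S * K0 w l) ^ J * (2 * q + 1) ^ Fintype.card I := leaf_bound hq J h
        _ ≤ _ := Nat.le_mul_of_pos_left _ (by positivity)
    · have h0 := ih (h false)
      have h1 := ih (h true)
      have hsub : (Finset.univ.filter fun ω : Restr I =>
          ¬ CT (fun s x => ∃ z, G (s, z) x) l (t0 + 1 + J * (l + w)) (comb ρ0 ω)) ⊆
          (Finset.univ.filter fun ω : Restr I =>
            ¬ CT (fun s x => ∃ z, G (s, z) x) l (t0 + J * (l + w)) (comb (upd ρ0 i false) ω)) ∪
          (Finset.univ.filter fun ω : Restr I =>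
            ¬ CT (fun s x => ∃ z, G (s, z) x) l (t0 + J * (l + w)) (comb (upd ρ0 i true) ω)) := by
        intro ω hω
        simp only [Finset.mem_union, Finset.mem_filter, Finset.mem_univ, true_and] at hω ⊢
        by_contra hcon
        push Not at hcon
        obtain ⟨hc0, hc1⟩ := hcon
        refine hω ?_
        rw [show t0 + 1 + J * (l + w) = (t0 + J * (l + w)) + 1 by ring]
        rcases hωi : comb ρ0 ω i with _ | b
        · refine Or.inr ⟨i, hωi, fun b => ?_⟩
          rw [← comb_upd_none]
          cases b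
          · exact hc0
          · exact hc1
        · have e : comb (upd ρ0 i b) ω = comb ρ0 ω := by
            rw [comb_upd_none]
            funext j
            by_cases hj : j = i
            · subst hj; rw [Pool.Agent.NH88.FM.upd_self, hωi]
            · rw [upd_of_ne _ _ hj]
          refine CT.succ ?_
          rw [← e]
          cases b
          · exact hc0
          · exact hc1
      calc _ ≤ ((∑ ω : Restr I with ¬ CT (fun s x => ∃ z, G (s, z) x) l (t0 + J * (l + w))
              (comb (upd ρ0 i false) ω), Wt q ω) +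
            (∑ ω : Restr I with ¬ CT (fun s x => ∃ z, G (s, z) x) l (t0 + J * (l + w))
              (comb (upd ρ0 i true) ω), Wt q ω)) * q ^ ((l + 1) * J) := by
              refine Nat.mul_le_mul_right _ ?_
              refine (Finset.sum_le_sum_of_subset hsub).trans ?_
              rw [← Finset.sum_union_inter]
              exact Nat.le_add_right _ _
        _ ≤ _ := by
              rw [add_mul, pow_succ]
              calc _ ≤ _ := Nat.add_le_add h0 h1
                _ = _ := by ring

/-! ### Blocks stay alive -/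

/-- The number of free variables of a block. -/
noncomputable def nfree {E : Type} (blk : I → E) (e : E) (ρ : Restr I) : ℕ :=
  (Finset.univ.filter fun i => blk i = e ∧ ρ i = none).card

theorem fixed_weight (q : ℕ) (A : Finset I) :
    (∑ ω : Restr I with ∀ i ∈ A, ω i ≠ none, Wt q ω) * (2 * q + 1) ^ A.card =
      (2 * q) ^ A.card * (2 * q + 1) ^ Fintype.card I := by
  have h := Finset.prod_univ_sum (fun i : I => if i ∈ A then
    (Finset.univ.filter fun o : Option Bool => o ≠ none) else Finset.univ) (fun _ o => wt q o)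
  have e1 : (Finset.univ.filter fun ω : Restr I => ∀ i ∈ A, ω i ≠ none) =
      Fintype.piFinset (fun i : I => if i ∈ A then
        (Finset.univ.filter fun o : Option Bool => o ≠ none) else Finset.univ) := by
    ext ω
    simp only [Finset.mem_filter, Finset.mem_univ, true_and, Fintype.mem_piFinset]
    refine forall_congr' fun i => ?_
    by_cases hi : i ∈ A <;> simp [hi]
  have e2 : ∀ i : I, (∑ o ∈ (if i ∈ A then
      (Finset.univ.filter fun o : Option Bool => o ≠ none) else Finset.univ), wt q o) =
      if i ∈ A then 2 * q else 2 * q + 1 := by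
    intro i
    by_cases hi : i ∈ A
    · simp only [hi, if_true]
      rw [Finset.sum_filter, Fintype.sum_option]
      simp [wt]
      try ring
    · simp only [hi, if_false]
      rw [Fintype.sum_option]
      simp [wt]
      try ring
  simp only [e2] at h
  unfold Wt
  rw [e1, ← h, Finset.prod_ite, Finset.prod_const, Finset.prod_const]
  have e3 : (Finset.univ.filter fun i : I => i ∈ A) = A := by ext i; simp
  have e4 : (Finset.univ.filter fun i : I => i ∉ A).card + A.card = Fintype.card I := by
    have : (Finset.univ.filter fun i : I => i ∉ A) = Aᶜ := by ext i; simp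
    rw [this, Finset.card_compl]
    have := Finset.card_le_univ A
    omega
  rw [e3, mul_assoc, ← pow_add, e4]

theorem two_pow_bound (q : ℕ) (hq : 1 ≤ q) :
    (2 * q) ^ (q ^ 2) * 2 ^ (q / 2) ≤ (2 * q + 1) ^ (q ^ 2) := by
  have h1 : 2 * (2 * q) ^ (2 * q) ≤ (2 * q + 1) ^ (2 * q) := by
    have := one_add_mul_le_pow (R := ℚ) (a := 1 / (2 * q)) (by
      have : (0 : ℚ) ≤ 1 / (2 * q) := by positivity
      linarith) (2 * q)
    have hq' : (0 : ℚ) < q := by exact_mod_cast hq
    have e : (1 : ℚ) + ((2 * q : ℕ) : ℚ) * (1 / (2 * q)) = 2 := by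
      push_cast
      field_simp
      norm_num
    rw [e] at this
    have e2 : (1 + 1 / (2 * (q : ℚ))) = (2 * q + 1) / (2 * q) := by field_simp
    rw [e2, div_pow, le_div_iff₀ (by positivity)] at this
    exact_mod_cast this
  obtain ⟨r, hr⟩ : ∃ r, q ^ 2 = 2 * q * (q / 2) + r := by
    refine ⟨q ^ 2 - 2 * q * (q / 2), ?_⟩
    have : 2 * q * (q / 2) ≤ q ^ 2 := by
      rw [pow_two, show 2 * q * (q / 2) = q * (2 * (q / 2)) by ring]
      exact Nat.mul_le_mul_left _ (by omega)
    omega
  calc (2 * q) ^ (q ^ 2) * 2 ^ (q / 2)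
      = (2 * (2 * q) ^ (2 * q)) ^ (q / 2) * (2 * q) ^ r := by
        rw [hr, pow_add, pow_mul, mul_pow]; ring
    _ ≤ ((2 * q + 1) ^ (2 * q)) ^ (q / 2) * (2 * q + 1) ^ r :=
      Nat.mul_le_mul (Nat.pow_le_pow_left h1 _) (Nat.pow_le_pow_left (by omega) _)
    _ = (2 * q + 1) ^ (q ^ 2) := by rw [hr, pow_add, ← pow_mul]

theorem fixed_weight_le {q : ℕ} (hq : 1 ≤ q) {A : Finset I} (hA : A.card = q ^ 2) :
    (∑ ω : Restr I with ∀ i ∈ A, ω i ≠ none, Wt q ω) * 2 ^ (q / 2) ≤
      (2 * q + 1) ^ Fintype.card I := by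
  have h := fixed_weight (I := I) q A
  rw [hA] at h
  have h2 := two_pow_bound q hq
  have hpos : 0 < (2 * q + 1) ^ (q ^ 2) := by positivity
  refine Nat.le_of_mul_le_mul_right ?_ hpos
  calc _ = (∑ ω : Restr I with ∀ i ∈ A, ω i ≠ none, Wt q ω) * (2 * q + 1) ^ (q ^ 2) *
        2 ^ (q / 2) := by ring
    _ = (2 * q) ^ (q ^ 2) * 2 ^ (q / 2) * (2 * q + 1) ^ Fintype.card I := by rw [h]; ring
    _ ≤ (2 * q + 1) ^ (q ^ 2) * (2 * q + 1) ^ Fintype.card I := Nat.mul_le_mul_right _ h2
    _ = _ := by ring

omit [Fintype I] in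
/-- Disjoint pieces of a finite set. -/
theorem exists_pieces (s κ : ℕ) : ∀ (A : Finset I), κ * s ≤ A.card →
    ∃ P : Fin κ → Finset I, (∀ j, P j ⊆ A ∧ (P j).card = s) ∧
      ∀ j j', j ≠ j' → Disjoint (P j) (P j') := by
  induction κ with
  | zero => intro A _; exact ⟨fun j => j.elim0, fun j => j.elim0, fun j => j.elim0⟩
  | succ κ ih =>
    intro A hA
    obtain ⟨B, hBA, hB⟩ := Finset.exists_subset_card_eq (s := A) (n := s) (by
      rw [Nat.succ_mul] at hA; omega)
    obtain ⟨P, hP, hd⟩ := ih (A \ B) (by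
      rw [Finset.card_sdiff_of_subset hBA, hB]
      rw [Nat.succ_mul] at hA; omega)
    refine ⟨Fin.cons B P, ?_, ?_⟩
    · intro j
      refine Fin.cases ?_ ?_ j
      · exact ⟨hBA, hB⟩
      · intro j
        simp only [Fin.cons_succ]
        exact ⟨(hP j).1.trans Finset.sdiff_subset, (hP j).2⟩
    · intro j j'
      refine Fin.cases ?_ ?_ j
      · refine Fin.cases (fun h => absurd rfl h) ?_ j'
        intro j' _
        simp only [Fin.cons_zero, Fin.cons_succ]
        exact Finset.disjoint_left.2 fun i h1 h2 =>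
          (Finset.mem_sdiff.1 ((hP j').1 h2)).2 h1
      · intro j
        refine Fin.cases ?_ ?_ j'
        · intro _
          simp only [Fin.cons_zero, Fin.cons_succ]
          exact Finset.disjoint_left.2 fun i h1 h2 =>
            (Finset.mem_sdiff.1 ((hP j).1 h1)).2 h2
        · intro j' h
          simp only [Fin.cons_succ]
          exact hd j j' fun h' => h (by rw [h'])

omit [Fintype I] in
theorem sum_biUnion_le {α β : Type} [DecidableEq β] (s : Finset α) (t : α → Finset β) (f : β → ℕ) :
    ∑ x ∈ s.biUnion t, f x ≤ ∑ a ∈ s, ∑ x ∈ t a, f x := by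
  induction s using Finset.induction_on with
  | empty => simp
  | insert a s ha ih =>
    rw [Finset.biUnion_insert, Finset.sum_insert ha]
    refine le_trans ?_ (Nat.add_le_add_left ih _)
    rw [← Finset.sum_union_inter]
    exact Nat.le_add_right _ _

theorem block_fail {q κ : ℕ} (hq : 1 ≤ q) {E : Type} (blk : I → E) (e : E) {ρ0 : Restr I}
    (h : κ * q ^ 2 ≤ nfree blk e ρ0) :
    (∑ ω : Restr I with nfree blk e (comb ρ0 ω) < κ, Wt q ω) * 2 ^ (q / 2) ≤
      κ * (2 * q + 1) ^ Fintype.card I := by
  obtain ⟨P, hP, hd⟩ := exists_pieces (q ^ 2) κ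
    (Finset.univ.filter fun i => blk i = e ∧ ρ0 i = none) h
  have hsub : (Finset.univ.filter fun ω : Restr I => nfree blk e (comb ρ0 ω) < κ) ⊆
      (Finset.univ : Finset (Fin κ)).biUnion fun j =>
        Finset.univ.filter fun ω : Restr I => ∀ i ∈ P j, ω i ≠ none := by
    intro ω hω
    simp only [Finset.mem_filter, Finset.mem_univ, true_and, Finset.mem_biUnion] at hω ⊢
    by_contra hcon
    push Not at hcon
    choose f hf1 hf2 using hcon
    refine absurd hω (not_lt.2 ?_)
    have hinj : Function.Injective f := by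
      intro j j' hjj
      by_contra hne
      exact (Finset.disjoint_left.1 (hd j j' hne)) (hf1 j) (hjj ▸ hf1 j')
    calc κ = (Finset.univ.image f).card := by
          rw [Finset.card_image_of_injective _ hinj]; simp
      _ ≤ _ := by
          refine Finset.card_le_card fun i hi => ?_
          obtain ⟨j, _, rfl⟩ := Finset.mem_image.1 hi
          have h1 := (Finset.mem_filter.1 ((hP j).1 (hf1 j))).2
          simp only [Finset.mem_filter, Finset.mem_univ, true_and]
          exact ⟨h1.1, by rw [comb_none h1.2]; exact hf2 j⟩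
  calc _ ≤ (∑ j : Fin κ, ∑ ω : Restr I with ∀ i ∈ P j, ω i ≠ none, Wt q ω) * 2 ^ (q / 2) := by
        refine Nat.mul_le_mul_right _ ?_
        refine (Finset.sum_le_sum_of_subset hsub).trans ?_
        exact sum_biUnion_le _ _ _
    _ = ∑ j : Fin κ, (∑ ω : Restr I with ∀ i ∈ P j, ω i ≠ none, Wt q ω) * 2 ^ (q / 2) := by
        rw [Finset.sum_mul]
    _ ≤ ∑ _j : Fin κ, (2 * q + 1) ^ Fintype.card I :=
        Finset.sum_le_sum fun j _ => fixed_weight_le hq (hP j).2
    _ = _ := by simp

end Pool.Agent.NH88.FM
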