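import Pool.Agent.NH88.FM.Restr

/-!
# A multi-switching lemma
-/

namespace Pool.Agent.NH88.FM

open Classical

variable {I : Type}

/-- Combination of a base restriction and a further restriction. -/
def comb (ρ0 ω : Restr I) : Restr I := fun i => match ρ0 i with
  | some b => some b
  | none => ω i

theorem comb_some {ρ0 ω : Restr I} {i : I} {b : Bool} (h : ρ0 i = some b) :
    comb ρ0 ω i = some b := by simp [comb, h]

theorem comb_none {ρ0 ω : Restr I} {i : I} (h : ρ0 i = none) : comb ρ0 ω i = ω i := by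
  simp [comb, h]

theorem comb_refines (ρ0 ω : Restr I) : Refines (comb ρ0 ω) ρ0 := fun _ _ h => comb_some h

theorem comb_ovr {ρ0 ω : Restr I} {B : Finset I} (hB : ∀ i ∈ B, ρ0 i = none) (v : I → Bool) :
    comb ρ0 (ovr ω B v) = ovr (comb ρ0 ω) B v := by
  funext i
  by_cases hi : i ∈ B
  · rw [comb_none (hB i hi)]; simp [ovr, hi]
  · rcases h : ρ0 i with _ | b
    · rw [comb_none h]; simp [ovr, hi, comb_none h]
    · rw [comb_some h]; simp [ovr, hi, comb_some h]

/-- extension of a mask by `false` -/
def ext {w : ℕ} (c : Fin w → Bool) : ℕ → Bool := fun j => if h : j < w then c ⟨j, h⟩ else false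

/-- The variables of the term `T` selected by the mask. -/
noncomputable def picked {w : ℕ} (T : List (I × Bool)) (c : Fin w → Bool) : Finset I :=
  (T.map Prod.fst).toFinset.filter fun i => ext c ((T.map Prod.fst).idxOf i) = true

/-- A term is satisfied by a restriction. -/
def SatBy (τ : Restr I) (T : List (I × Bool)) : Prop := ∀ y ∈ T, τ y.1 = some y.2

/-- A term is falsified by a restriction. -/
def FalsBy (τ : Restr I) (T : List (I × Bool)) : Prop := ∃ y ∈ T, τ y.1 = some (!y.2)

/-- The first term satisfied by `τ`. -/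
noncomputable def firstSat (L : List (List (I × Bool))) (τ : Restr I) : List (I × Bool) :=
  (L.find? fun T => decide (SatBy τ T)).getD []

/-- Decoding the variables of a stage. -/
noncomputable def stageB {w : ℕ} (L : List (List (I × Bool))) :
    List ((Fin w → Bool) × (Fin w → Bool)) → Restr I → Finset I
  | [], _ => ∅
  | (mk, pi) :: rest, τ =>
    picked (firstSat L τ) mk ∪
      stageB L rest (ovr τ (picked (firstSat L τ) mk)
        fun i => ext pi (((firstSat L τ).map Prod.fst).idxOf i))

theorem bool_ne {a b : Bool} (h : a ≠ b) : a = !b := by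
  cases a <;> cases b <;> simp_all

theorem firstSat_eq {L1 L2 : List (List (I × Bool))} {T : List (I × Bool)} {τ : Restr I}
    (h1 : ∀ T' ∈ L1, FalsBy τ T') (hT : SatBy τ T) : firstSat (L1 ++ T :: L2) τ = T := by
  have : (L1 ++ T :: L2).find? (fun T => decide (SatBy τ T)) = some T := by
    rw [List.find?_eq_some_iff_append]
    refine ⟨by simpa using hT, L1, L2, rfl, ?_⟩
    intro T' hT'
    obtain ⟨y, hy, h⟩ := h1 T' hT'
    have : ¬ SatBy τ T' := by
      intro hs
      have := hs y hy
      rw [h] at this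
      cases hb : y.2 <;> simp [hb] at this
    simpa using this
  rw [firstSat, this]; rfl

theorem exists_first {L : List (List (I × Bool))} {τ : Restr I}
    (h : ∃ T ∈ L, ¬ FalsBy τ T) :
    ∃ L1 T L2, L = L1 ++ T :: L2 ∧ (∀ T' ∈ L1, FalsBy τ T') ∧ ¬ FalsBy τ T := by
  induction L with
  | nil => obtain ⟨T, hT, _⟩ := h; simp at hT
  | cons T0 L ih =>
    by_cases h0 : FalsBy τ T0
    · have : ∃ T ∈ L, ¬ FalsBy τ T := by
        obtain ⟨T, hT, hn⟩ := h
        rcases List.mem_cons.1 hT with rfl | hT
        · exact absurd h0 hn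
        · exact ⟨T, hT, hn⟩
      obtain ⟨L1, T, L2, rfl, h1, h2⟩ := ih this
      exact ⟨T0 :: L1, T, L2, rfl, by
        intro T' hT'
        rcases List.mem_cons.1 hT' with rfl | hT'
        · exact h0
        · exact h1 T' hT', h2⟩
    · exact ⟨[], T0, L, rfl, by simp, h0⟩

/-- The stage lemma. -/
theorem stage_aux {w : ℕ} {ρ0 : Restr I} {L : List (List (I × Bool))}
    {F : (I → Bool) → Prop}
    (hL : ∀ T ∈ L, T.length ≤ w ∧ (∀ y ∈ T, ρ0 y.1 = none) ∧
      ∀ y ∈ T, ∀ z ∈ T, y.1 = z.1 → y.2 = z.2)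
    (hF : ∀ x, InCube ρ0 x → (F x ↔ ∃ T ∈ L, ∀ y ∈ T, x y.1 = y.2)) :
    ∀ (d : ℕ) (ρ : Restr I), ¬ DT F d (comb ρ0 ρ) →
      ∃ (bl : List ((Fin w → Bool) × (Fin w → Bool))) (B : Finset I) (σ : I → Bool),
        bl.length ≤ d + 1 ∧ (∀ i ∈ B, ρ0 i = none ∧ ρ i = none) ∧ d < B.card ∧
        B.card ≤ d + w ∧ ∀ τ, Refines τ (ovr ρ B σ) → stageB L bl τ = B := by
  intro d
  induction d using Nat.strong_induction_on with
  | _ d ih =>
  intro ρ hρ
  have hnc : ¬ Cst F (comb ρ0 ρ) := fun h => hρ (DT.of_cst h d)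
  -- there is a term that is not falsified
  have h1 : ∃ T ∈ L, ¬ FalsBy ρ T := by
    by_contra hcon
    push Not at hcon
    refine hnc (Or.inr fun x hx hFx => ?_)
    obtain ⟨T, hT, hxT⟩ := (hF x ((comb_refines ρ0 ρ).cube hx)).1 hFx
    obtain ⟨y, hy, hyf⟩ := hcon T hT
    have h2 := hx y.1 (!y.2) (by rw [comb_none ((hL T hT).2.1 y hy)]; exact hyf)
    rw [hxT y hy] at h2
    cases hb : y.2 <;> simp [hb] at h2
  obtain ⟨L1, T, L2, hLe, hL1, hTn⟩ := exists_first h1
  have hTL : T ∈ L := by rw [hLe]; simp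
  obtain ⟨hTw, hT0, hTc⟩ := hL T hTL
  set vars := T.map Prod.fst with hvars
  -- the free variables of T
  set b : Finset I := vars.toFinset.filter fun i => ρ i = none with hb
  have hbne : b.Nonempty := by
    by_contra hcon
    rw [Finset.not_nonempty_iff_eq_empty] at hcon
    refine hnc (Or.inl fun x hx => ?_)
    rw [hF x ((comb_refines ρ0 ρ).cube hx)]
    refine ⟨T, hTL, fun y hy => ?_⟩
    have hyb : y.1 ∉ b := by rw [hcon]; simp
    rcases hc : ρ y.1 with _ | c
    · exact absurd (Finset.mem_filter.2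
        ⟨List.mem_toFinset.2 (List.mem_map_of_mem hy), hc⟩ : y.1 ∈ b) hyb
    · have hcy : c = y.2 := by
        by_contra hne
        refine hTn ⟨y, hy, ?_⟩
        rw [hc, bool_ne hne]
      exact hx y.1 y.2 (by rw [comb_none (hT0 y hy), hc, hcy])
  -- the satisfying values
  have hsat : ∃ σT : I → Bool, ∀ y ∈ T, σT y.1 = y.2 := by
    refine ⟨fun i => if h : ∃ y ∈ T, y.1 = i then (Classical.choose h).2 else false, fun y hy => ?_⟩
    have h : ∃ z ∈ T, z.1 = y.1 := ⟨y, hy, rfl⟩
    simp only [h, dif_pos]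
    exact hTc _ (Classical.choose_spec h).1 y hy (Classical.choose_spec h).2
  obtain ⟨σT, hσT⟩ := hsat
  have hbfree : ∀ i ∈ b, ρ0 i = none ∧ ρ i = none := by
    intro i hi
    rw [hb, Finset.mem_filter, List.mem_toFinset, hvars, List.mem_map] at hi
    obtain ⟨⟨y, hy, rfl⟩, h2⟩ := hi
    exact ⟨hT0 y hy, h2⟩
  have hbcard : b.card ≤ w := by
    calc b.card ≤ vars.toFinset.card := Finset.card_filter_le _ _
      _ ≤ vars.length := List.toFinset_card_le _
      _ ≤ w := by rw [hvars, List.length_map]; exact hTw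
  -- the mask
  set mk : Fin w → Bool := fun j => match vars[(j : ℕ)]? with
    | some i => (ρ i).isNone
    | none => false with hmk
  have hpick : picked T mk = b := by
    ext i
    simp only [picked, hb, Finset.mem_filter, List.mem_toFinset]
    refine and_congr_right fun hi => ?_
    have hlt : vars.idxOf i < vars.length := List.idxOf_lt_length_of_mem hi
    have hlt' : vars.idxOf i < w := lt_of_lt_of_le hlt (by
      rw [hvars, List.length_map]; exact hTw)
    have hg : vars[(vars.idxOf i)]? = some i := by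
      rw [List.getElem?_eq_getElem hlt, List.getElem_idxOf]
    simp only [ext, ← hvars, hlt', dif_pos, hmk, hg]
    simp
  -- first satisfied term
  have hfirst : ∀ (B : Finset I) (σ : I → Bool) (τ : Restr I), b ⊆ B →
      (∀ i ∈ B, ρ i = none) → (∀ i ∈ b, σ i = σT i) → Refines τ (ovr ρ B σ) →
      firstSat L τ = T := by
    intro B σ τ hbB hBfree hσ hτ
    have hτρ : ∀ i c, ρ i = some c → τ i = some c := by
      intro i c hc
      refine hτ i c ?_
      have : i ∉ B := fun h => by rw [hBfree i h] at hc; cases hc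
      simp [ovr, this, hc]
    rw [hLe]
    refine firstSat_eq ?_ ?_
    · intro T' hT'
      obtain ⟨y, hy, h⟩ := hL1 T' hT'
      exact ⟨y, hy, hτρ _ _ h⟩
    · intro y hy
      rcases hc : ρ y.1 with _ | c
      · have hyb : y.1 ∈ b := Finset.mem_filter.2
          ⟨List.mem_toFinset.2 (List.mem_map_of_mem hy), hc⟩
        refine hτ _ _ ?_
        simp only [ovr, hbB hyb, if_true, hσ _ hyb, hσT y hy]
      · have hcy : c = y.2 := by
          by_contra hne
          refine hTn ⟨y, hy, ?_⟩
          rw [hc, bool_ne hne]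
        rw [hτρ _ _ hc, hcy]
  by_cases hcase : d < b.card
  · refine ⟨[(mk, mk)], b, σT, by simp, hbfree, hcase, by omega, fun τ hτ => ?_⟩
    have hf := hfirst b σT τ (Finset.Subset.refl _) (fun i hi => (hbfree i hi).2)
      (fun _ _ => rfl) hτ
    simp only [stageB, hf, hpick, Finset.union_empty]
  · push Not at hcase
    -- a bad path value
    have hpi : ∃ v : I → Bool, ¬ DT F (d - b.card) (comb ρ0 (ovr ρ b v)) := by
      by_contra hcon
      push Not at hcon
      refine hρ ?_
      have := DT.of_finset (f := F) (e := d - b.card) b (ρ := comb ρ0 ρ)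
        (fun i hi => by rw [comb_none (hbfree i hi).1]; exact (hbfree i hi).2)
        (fun v => by rw [← comb_ovr (fun i hi => (hbfree i hi).1)]; exact hcon v)
      rwa [Nat.sub_add_cancel hcase] at this
    obtain ⟨v, hv⟩ := hpi
    have hlt : d - b.card < d := by
      have := hbne.card_pos
      omega
    obtain ⟨bl, B', σ', hlen, hfree', hcard1, hcard2, hdec⟩ := ih _ hlt _ hv
    have hdisj : ∀ i ∈ B', i ∉ b := by
      intro i hi hib
      have := (hfree' i hi).2
      simp [ovr, hib] at this
    have hfree'' : ∀ i ∈ B', ρ i = none := by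
      intro i hi
      have := (hfree' i hi).2
      simpa [ovr, hdisj i hi] using this
    set pi : Fin w → Bool := fun j => match vars[(j : ℕ)]? with
      | some i => v i
      | none => false with hpidef
    have hpiv : ∀ i ∈ b, ext pi (vars.idxOf i) = v i := by
      intro i hi
      have hi' : i ∈ vars := List.mem_toFinset.1 (Finset.mem_filter.1 hi).1
      have hlt : vars.idxOf i < vars.length := List.idxOf_lt_length_of_mem hi'
      have hlt' : vars.idxOf i < w := lt_of_lt_of_le hlt (by
        rw [hvars, List.length_map]; exact hTw)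
      have hg : vars[(vars.idxOf i)]? = some i := by
        rw [List.getElem?_eq_getElem hlt, List.getElem_idxOf]
      simp only [ext, hlt', dif_pos, hpidef, hg]
    refine ⟨(mk, pi) :: bl, b ∪ B', fun i => if i ∈ b then σT i else σ' i, ?_, ?_, ?_, ?_, ?_⟩
    · simp only [List.length_cons]
      have := hbne.card_pos
      omega
    · intro i hi
      rcases Finset.mem_union.1 hi with hi | hi
      · exact hbfree i hi
      · exact ⟨(hfree' i hi).1, hfree'' i hi⟩
    · rw [Finset.card_union_of_disjoint (Finset.disjoint_left.2 fun i h1 h2 => hdisj i h2 h1)]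
      omega
    · rw [Finset.card_union_of_disjoint (Finset.disjoint_left.2 fun i h1 h2 => hdisj i h2 h1)]
      omega
    · intro τ hτ
      have hf := hfirst (b ∪ B') _ τ Finset.subset_union_left (by
        intro i hi
        rcases Finset.mem_union.1 hi with hi | hi
        · exact (hbfree i hi).2
        · exact hfree'' i hi) (fun i hi => by simp [hi]) hτ
      simp only [stageB, hf, hpick]
      congr 1
      apply hdec
      intro i c hc
      by_cases hiB' : i ∈ B'
      · have hib := hdisj i hiB'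
        have h1 : c = σ' i := by simpa [ovr, hiB'] using hc.symm
        have h2 : τ i = some (σ' i) := by
          refine hτ i _ ?_
          simp [ovr, hiB', hib]
        simp only [ovr, hib, if_false, h2, h1]
      · by_cases hib : i ∈ b
        · have h1 : c = v i := by simpa [ovr, hiB', hib] using hc.symm
          simp only [ovr, hib, if_true, ← hvars, hpiv i hib, h1]
        · have h1 : ρ i = some c := by simpa [ovr, hiB', hib] using hc
          have h2 : τ i = some c := by
            refine hτ i _ ?_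
            simp [ovr, hiB', hib, h1]
          simp only [ovr, hib, if_false, h2]

/-- The empty block. -/
def padB (w : ℕ) : (Fin w → Bool) × (Fin w → Bool) := (fun _ => false, fun _ => false)

theorem picked_pad {w : ℕ} (T : List (I × Bool)) : picked T (padB w).1 = ∅ := by
  unfold picked padB
  rw [Finset.filter_eq_empty_iff]
  intro i _
  unfold Pool.Agent.NH88.FM.ext
  split_ifs <;> simp

theorem stageB_replicate {w : ℕ} (L : List (List (I × Bool))) (n : ℕ) (τ : Restr I) :
    stageB L (List.replicate n (padB w)) τ = ∅ := by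
  induction n generalizing τ with
  | zero => rfl
  | succ n ih =>
    rw [List.replicate_succ]
    have : padB w = ((padB w).1, (padB w).2) := rfl
    rw [this]
    simp only [stageB]
    rw [← this, ih, picked_pad, Finset.union_empty]

theorem stageB_append {w : ℕ} (L : List (List (I × Bool)))
    (bl : List ((Fin w → Bool) × (Fin w → Bool))) (n : ℕ) (τ : Restr I) :
    stageB L (bl ++ List.replicate n (padB w)) τ = stageB L bl τ := by
  induction bl generalizing τ with
  | nil => simp only [List.nil_append, stageB_replicate]; rfl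
  | cons c bl ih =>
    obtain ⟨mk, pi⟩ := c
    simp only [List.cons_append, stageB, ih]

theorem exists_ofFn {α : Type} (l : List α) (n : ℕ) (h : l.length = n) :
    ∃ f : Fin n → α, List.ofFn f = l := by
  subst h; exact ⟨l.get, List.ofFn_get l⟩

/-- Stage codes. -/
abbrev SCode (S : Type) (w l : ℕ) :=
  S × (Fin (l + 1) → (Fin w → Bool) × (Fin w → Bool)) × (Fin (l + w) → Bool)

/-- Decoding values. -/
noncomputable def decV (B : Finset I) {n : ℕ} (be : Fin n → Bool) : I → Bool :=
  fun i => if h : i ∈ B then ext be (B.equivFin ⟨i, h⟩) else false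

theorem exists_decV (B : Finset I) {n : ℕ} (hn : B.card ≤ n) (v : I → Bool) :
    ∃ be : Fin n → Bool, ∀ i ∈ B, decV B be i = v i := by
  refine ⟨fun j => if h : (j : ℕ) < B.card then v (B.equivFin.symm ⟨j, h⟩) else false, ?_⟩
  intro i hi
  have h1 : ((B.equivFin ⟨i, hi⟩ : Fin B.card) : ℕ) < n :=
    lt_of_lt_of_le (B.equivFin ⟨i, hi⟩).2 hn
  have h2 : ((B.equivFin ⟨i, hi⟩ : Fin B.card) : ℕ) < B.card := (B.equivFin ⟨i, hi⟩).2
  simp only [decV, hi, dif_pos, ext, h1, h2, Fin.eta, Equiv.symm_apply_apply]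

/-- Freeing variables. -/
noncomputable def freeB (B : Finset I) (τ : Restr I) : Restr I :=
  fun i => if i ∈ B then none else τ i

variable {S : Type}

/-- The decoding map. -/
noncomputable def Dec {w l : ℕ} (L : S → List (List (I × Bool))) :
    List (SCode S w l) → Restr I → Restr I
  | [], τ => τ
  | c :: cs, τ =>
    freeB (stageB (L c.1) (List.ofFn c.2.1) τ)
      (Dec L cs (ovr τ (stageB (L c.1) (List.ofFn c.2.1) τ)
        (decV (stageB (L c.1) (List.ofFn c.2.1) τ) c.2.2)))

theorem encode {w l : ℕ} {ρ0 : Restr I} {L : S → List (List (I × Bool))}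
    {F : S → (I → Bool) → Prop}
    (hL : ∀ s, ∀ T ∈ L s, T.length ≤ w ∧ (∀ y ∈ T, ρ0 y.1 = none) ∧
      ∀ y ∈ T, ∀ z ∈ T, y.1 = z.1 → y.2 = z.2)
    (hF : ∀ s x, InCube ρ0 x → (F s x ↔ ∃ T ∈ L s, ∀ y ∈ T, x y.1 = y.2)) :
    ∀ (J : ℕ) (ω : Restr I), ¬ CT F l (J * (l + w)) (comb ρ0 ω) →
      ∃ (cs : List (SCode S w l)) (U : Finset I) (σ : I → Bool), cs.length = J ∧
        (∀ i ∈ U, ρ0 i = none ∧ ω i = none) ∧ (l + 1) * J ≤ U.card ∧
        Dec L cs (ovr ω U σ) = ω := by
  intro J
  induction J with
  | zero =>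
    intro ω _
    exact ⟨[], ∅, fun _ => false, rfl, by simp, by simp, by simp [Dec, ovr_empty]⟩
  | succ J ih =>
    intro ω hω
    have h1 : ∃ s, ¬ DT (F s) l (comb ρ0 ω) := by
      by_contra hcon
      push Not at hcon
      exact hω (CT.of_all hcon _)
    obtain ⟨s, hs⟩ := h1
    obtain ⟨bl, B, σ1, hlen, hBfree, hB1, hB2, hdec⟩ := stage_aux (w := w) (hL s) (hF s) l ω hs
    obtain ⟨bf, hbf⟩ := exists_ofFn (bl ++ List.replicate (l + 1 - bl.length) (padB w)) (l + 1)
      (by rw [List.length_append, List.length_replicate]; omega)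
    have hdec' : ∀ τ, Refines τ (ovr ω B σ1) → stageB (L s) (List.ofFn bf) τ = B := by
      intro τ hτ
      rw [hbf, stageB_append]
      exact hdec τ hτ
    have h2 : ∃ v : I → Bool, ¬ CT F l (J * (l + w)) (comb ρ0 (ovr ω B v)) := by
      by_contra hcon
      push Not at hcon
      refine hω ?_
      have := CT.of_finset (F := F) (l := l) (t := J * (l + w)) B (ρ := comb ρ0 ω)
        (fun i hi => by rw [comb_none (hBfree i hi).1]; exact (hBfree i hi).2)
        (fun v => by rw [← comb_ovr (fun i hi => (hBfree i hi).1)]; exact hcon v)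
      exact this.mono (by rw [Nat.succ_mul]; omega)
    obtain ⟨v, hv⟩ := h2
    obtain ⟨cs, U', σ', hcs, hU', hUcard, hD⟩ := ih _ hv
    obtain ⟨be, hbe⟩ := exists_decV B (n := l + w) hB2 v
    have hdisj : ∀ i ∈ U', i ∉ B := by
      intro i hi hib
      have := (hU' i hi).2
      simp [ovr, hib] at this
    have hUω : ∀ i ∈ U', ω i = none := by
      intro i hi
      have := (hU' i hi).2
      simpa [ovr, hdisj i hi] using this
    refine ⟨(s, bf, be) :: cs, B ∪ U', fun i => if i ∈ B then σ1 i else σ' i, ?_, ?_, ?_, ?_⟩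
    · simp [hcs]
    · intro i hi
      rcases Finset.mem_union.1 hi with hi | hi
      · exact hBfree i hi
      · exact ⟨(hU' i hi).1, hUω i hi⟩
    · rw [Finset.card_union_of_disjoint (Finset.disjoint_left.2 fun i h1 h2 => hdisj i h2 h1),
        Nat.mul_succ]
      omega
    · have e1 : stageB (L s) (List.ofFn bf)
          (ovr ω (B ∪ U') fun i => if i ∈ B then σ1 i else σ' i) = B := by
        apply hdec'
        intro i c hc
        by_cases hi : i ∈ B
        · have h3 : c = σ1 i := by simpa [ovr, hi] using hc.symm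
          simp [ovr, hi, h3]
        · have h3 : ω i = some c := by simpa [ovr, hi] using hc
          have h4 : i ∉ U' := by
            intro h; rw [hUω i h] at h3; cases h3
          simp [ovr, hi, h3, h4]
      have e2 : ovr (ovr ω (B ∪ U') fun i => if i ∈ B then σ1 i else σ' i) B (decV B be) =
          ovr (ovr ω B v) U' σ' := by
        funext i
        by_cases hi : i ∈ B
        · have h4 : i ∉ U' := fun h => hdisj i h hi
          simp [ovr, hi, h4, hbe i hi]
        · simp [ovr, hi]
      show freeB (stageB (L s) (List.ofFn bf) _) (Dec L cs _) = ω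
      rw [e1, e2, hD]
      funext i
      by_cases hi : i ∈ B
      · simp [freeB, hi, (hBfree i hi).2]
      · simp [freeB, hi, ovr]

/-- Weight of a restriction. -/
noncomputable def wt (q : ℕ) (o : Option Bool) : ℕ := if o = none then 1 else q

noncomputable def Wt [Fintype I] (q : ℕ) (ω : Restr I) : ℕ := ∏ i, wt q (ω i)

theorem sum_Wt [Fintype I] (q : ℕ) :
    ∑ ω : Restr I, Wt q ω = (2 * q + 1) ^ Fintype.card I := by
  have h := Finset.prod_univ_sum (fun _ : I => (Finset.univ : Finset (Option Bool)))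
    (fun _ o => wt q o)
  rw [Fintype.piFinset_univ] at h
  rw [show (∑ ω : Restr I, Wt q ω) = ∑ x : I → Option Bool, ∏ i, wt q (x i) from rfl, ← h]
  have e : ∑ o : Option Bool, wt q o = 2 * q + 1 := by
    rw [Fintype.sum_option]
    simp [wt]
    ring
  rw [e, Finset.prod_const, Finset.card_univ]

theorem Wt_ovr [Fintype I] (q : ℕ) (ω : Restr I) (U : Finset I) (hU : ∀ i ∈ U, ω i = none)
    (σ : I → Bool) : Wt q (ovr ω U σ) = Wt q ω * q ^ U.card := by
  have e : ∀ i, wt q (ovr ω U σ i) = wt q (ω i) * (if i ∈ U then q else 1) := by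
    intro i
    by_cases hi : i ∈ U
    · simp [ovr, hi, wt, hU i hi]
    · simp [ovr, hi]
  unfold Wt
  simp only [e, Finset.prod_mul_distrib]
  congr 1
  rw [Finset.prod_ite_mem, Finset.univ_inter, Finset.prod_const]

/-- The multi-switching lemma, crude form. -/
theorem msl [Fintype I] [Fintype S] {q w l : ℕ} (hq : 1 ≤ q) (J : ℕ) {ρ0 : Restr I}
    {L : S → List (List (I × Bool))} {F : S → (I → Bool) → Prop}
    (hL : ∀ s, ∀ T ∈ L s, T.length ≤ w ∧ (∀ y ∈ T, ρ0 y.1 = none) ∧
      ∀ y ∈ T, ∀ z ∈ T, y.1 = z.1 → y.2 = z.2)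
    (hF : ∀ s x, InCube ρ0 x → (F s x ↔ ∃ T ∈ L s, ∀ y ∈ T, x y.1 = y.2)) :
    (∑ ω : Restr I with ¬ CT F l (J * (l + w)) (comb ρ0 ω), Wt q ω) * q ^ ((l + 1) * J) ≤
      (Fintype.card S * ((2 ^ w * 2 ^ w) ^ (l + 1) * 2 ^ (l + w))) ^ J *
        (2 * q + 1) ^ Fintype.card I := by
  choose cs U σ h1 h2 h3 h4 using
    fun ω : {ω : Restr I // ¬ CT F l (J * (l + w)) (comb ρ0 ω)} =>
      encode (w := w) (l := l) hL hF J ω.1 ω.2
  choose f hf using fun ω => exists_ofFn (cs ω) J (h1 ω)
  have hinj : Function.Injective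
      (fun ω : {ω : Restr I // ¬ CT F l (J * (l + w)) (comb ρ0 ω)} =>
        (f ω, ovr ω.1 (U ω) (σ ω))) := by
    intro ω ω' h
    simp only [Prod.mk.injEq] at h
    have e1 := h4 ω
    have e2 := h4 ω'
    rw [← hf ω, h.1, h.2, hf ω'] at e1
    exact Subtype.ext (e1.symm.trans e2)
  have hsum : (∑ ω : Restr I with ¬ CT F l (J * (l + w)) (comb ρ0 ω), Wt q ω) =
      ∑ ω : {ω : Restr I // ¬ CT F l (J * (l + w)) (comb ρ0 ω)}, Wt q ω.1 :=
    Finset.sum_subtype _ (by simp) _
  rw [hsum, Finset.sum_mul]
  calc ∑ ω : {ω : Restr I // ¬ CT F l (J * (l + w)) (comb ρ0 ω)},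
        Wt q ω.1 * q ^ ((l + 1) * J)
      ≤ ∑ ω : {ω : Restr I // ¬ CT F l (J * (l + w)) (comb ρ0 ω)},
        Wt q (ovr ω.1 (U ω) (σ ω)) := by
        refine Finset.sum_le_sum fun ω _ => ?_
        rw [Wt_ovr q ω.1 (U ω) (fun i hi => (h2 ω i hi).2) (σ ω)]
        exact Nat.mul_le_mul_left _ (Nat.pow_le_pow_right hq (h3 ω))
    _ ≤ ∑ y : (Fin J → SCode S w l) × Restr I, Wt q y.2 := by
        have := Finset.sum_image (s := (Finset.univ :
          Finset {ω : Restr I // ¬ CT F l (J * (l + w)) (comb ρ0 ω)}))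
          (g := fun ω => (f ω, ovr ω.1 (U ω) (σ ω))) (f := fun y => Wt q y.2)
          (fun a _ b _ h => hinj h)
        rw [← this]
        exact Finset.sum_le_univ_sum_of_nonneg (fun _ => Nat.zero_le _)
    _ = _ := by
        rw [Fintype.sum_prod_type]
        simp only [sum_Wt, Finset.sum_const, Finset.card_univ, smul_eq_mul]
        congr 1
        simp [Fintype.card_pi]

end Pool.Agent.NH88.FM
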