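import Pool.Agent.NH88.FM.BDefs

/-!
# Łoś' theorem and the limit of fat forests of growing girth
-/

namespace Pool.Agent.NH88.FM

open Filter

section

variable {V : ℕ → Type} {𝓤 : Ultrafilter ℕ}

/-- Equality almost everywhere. -/
def uSetoid (V : ℕ → Type) (𝓤 : Ultrafilter ℕ) : Setoid (∀ n, V n) where
  r s t := ∀ᶠ n in (𝓤 : Filter ℕ), s n = t n
  iseqv :=
    { refl := fun s => Eventually.of_forall fun _ => rfl
      symm := fun h => h.mono fun _ h => h.symm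
      trans := fun h h' => (h.and h').mono fun _ h => h.1.trans h.2 }

/-- The ultraproduct. -/
def UP (V : ℕ → Type) (𝓤 : Ultrafilter ℕ) : Type := Quotient (uSetoid V 𝓤)

/-- The class of a sequence. -/
def cls (𝓤 : Ultrafilter ℕ) (s : ∀ n, V n) : UP V 𝓤 := Quotient.mk (uSetoid V 𝓤) s

/-- A representative. -/
noncomputable def rep (a : UP V 𝓤) : ∀ n, V n := Quotient.out a

theorem cls_eq {s t : ∀ n, V n} : cls 𝓤 s = cls 𝓤 t ↔ ∀ᶠ n in (𝓤 : Filter ℕ), s n = t n :=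
  Quotient.eq (r := uSetoid V 𝓤)

theorem cls_rep (a : UP V 𝓤) : cls 𝓤 (rep a) = a := Quotient.out_eq a

theorem rep_cls (s : ∀ n, V n) : ∀ᶠ n in (𝓤 : Filter ℕ), rep (cls 𝓤 s) n = s n :=
  cls_eq.1 (cls_rep _)

/-- Lifting a family of relations. -/
theorem lift_rel {R : ∀ n, V n → V n → Prop} (s t : ∀ n, V n) :
    (∀ᶠ n in (𝓤 : Filter ℕ), R n (rep (cls 𝓤 s) n) (rep (cls 𝓤 t) n)) ↔
      ∀ᶠ n in (𝓤 : Filter ℕ), R n (s n) (t n) := by
  refine eventually_congr (((rep_cls (𝓤 := 𝓤) s).and (rep_cls t)).mono fun n h => ?_)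
  rw [h.1, h.2]

theorem lift_pred {R : ∀ n, V n → Prop} (s : ∀ n, V n) :
    (∀ᶠ n in (𝓤 : Filter ℕ), R n (rep (cls 𝓤 s) n)) ↔
      ∀ᶠ n in (𝓤 : Filter ℕ), R n (s n) := by
  refine eventually_congr ((rep_cls (𝓤 := 𝓤) s).mono fun n h => ?_)
  rw [h]

/-- The graph on the ultraproduct. -/
def uG (G : ∀ n, SimpleGraph (V n)) (𝓤 : Ultrafilter ℕ) : SimpleGraph (UP V 𝓤) where
  Adj a b := ∀ᶠ n in (𝓤 : Filter ℕ), (G n).Adj (rep a n) (rep b n)
  symm := ⟨fun a b h => h.mono fun _ h => h.symm⟩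
  loopless := ⟨fun a h => by
    obtain ⟨n, hn⟩ := Eventually.exists h
    exact (G n).loopless.irrefl _ hn⟩

theorem uG_adj {G : ∀ n, SimpleGraph (V n)} {s t : ∀ n, V n} :
    (uG G 𝓤).Adj (cls 𝓤 s) (cls 𝓤 t) ↔ ∀ᶠ n in (𝓤 : Filter ℕ), (G n).Adj (s n) (t n) :=
  lift_rel (R := fun n => (G n).Adj) s t

theorem exists_lim (f : ℕ → Fin 3) : ∃ i, ∀ᶠ n in (𝓤 : Filter ℕ), f n = i := by
  have h : ∀ᶠ n in (𝓤 : Filter ℕ), f n = 0 ∨ (f n = 1 ∨ f n = 2) :=
    Eventually.of_forall fun n => by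
      have : ∀ i : Fin 3, i = 0 ∨ i = 1 ∨ i = 2 := by decide
      exact this (f n)
  rcases Ultrafilter.eventually_or.1 h with h | h
  · exact ⟨0, h⟩
  · rcases Ultrafilter.eventually_or.1 h with h | h
    · exact ⟨1, h⟩
    · exact ⟨2, h⟩

/-- The part of a vertex of the ultraproduct. -/
noncomputable def uR (p : ∀ n, V n → Fin 3) (a : UP V 𝓤) : Fin 3 :=
  (exists_lim (𝓤 := 𝓤) (fun n => p n (rep a n))).choose

theorem uR_spec (p : ∀ n, V n → Fin 3) (a : UP V 𝓤) :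
    ∀ᶠ n in (𝓤 : Filter ℕ), p n (rep a n) = uR p a :=
  (exists_lim (𝓤 := 𝓤) (fun n => p n (rep a n))).choose_spec

theorem uR_iff {p : ∀ n, V n → Fin 3} {a : UP V 𝓤} {i : Fin 3} :
    uR p a = i ↔ ∀ᶠ n in (𝓤 : Filter ℕ), p n (rep a n) = i := by
  constructor
  · rintro rfl
    exact uR_spec p a
  · intro h
    obtain ⟨n, h1, h2⟩ := ((uR_spec p a).and h).exists
    exact h1.symm.trans h2

theorem uR_cls {p : ∀ n, V n → Fin 3} {s : ∀ n, V n} {i : Fin 3} :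
    uR p (cls 𝓤 s) = i ↔ ∀ᶠ n in (𝓤 : Filter ℕ), p n (s n) = i := by
  rw [uR_iff]
  exact lift_pred (R := fun n x => p n x = i) s

theorem noCyc_transfer {R : UP V 𝓤 → UP V 𝓤 → Prop} {Rn : ∀ n, V n → V n → Prop}
    (h : ∀ a b, R a b → ∀ᶠ n in (𝓤 : Filter ℕ), Rn n (rep a n) (rep b n)) {k : ℕ}
    (hk : 1 ≤ k) (hno : ∀ᶠ n in (𝓤 : Filter ℕ), NoCyc (Rn n) k) : NoCyc R k := by
  intro f hf1 hf2 hf3
  have e1 : ∀ᶠ n in (𝓤 : Filter ℕ), ∀ i ∈ Finset.range k, ∀ j ∈ Finset.range k,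
      rep (f i) n = rep (f j) n → i = j := by
    rw [Filter.eventually_all_finset]
    intro i hi
    rw [Filter.eventually_all_finset]
    intro j hj
    rw [Finset.mem_range] at hi hj
    by_cases hij : i = j
    · exact Eventually.of_forall fun _ _ => hij
    · have h1 : ¬ ∀ᶠ n in (𝓤 : Filter ℕ), rep (f i) n = rep (f j) n := by
        intro h2
        refine hij (hf1 i hi j hj ?_)
        rw [← cls_rep (f i), ← cls_rep (f j)]
        exact cls_eq.2 h2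
      exact (Ultrafilter.eventually_not.2 h1).mono fun n h2 h3 => absurd h3 h2
  have e2 : ∀ᶠ n in (𝓤 : Filter ℕ), ∀ i ∈ Finset.range k, i + 1 < k →
      Rn n (rep (f i) n) (rep (f (i + 1)) n) := by
    rw [Filter.eventually_all_finset]
    intro i _
    by_cases hi : i + 1 < k
    · exact (h _ _ (hf2 i hi)).mono fun n h2 _ => h2
    · exact Eventually.of_forall fun _ h2 => absurd h2 hi
  have e3 := h _ _ hf3
  obtain ⟨n, g1, g2, g3, g4⟩ := (e1.and (e2.and (e3.and hno))).exists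
  exact g4 (fun i => rep (f i) n)
    (fun i hi j hj => g1 i (Finset.mem_range.2 hi) j (Finset.mem_range.2 hj))
    (fun i hi => g2 i (Finset.mem_range.2 (by omega)) hi) g3

theorem uFat {G : ∀ n, SimpleGraph (V n)} {p : ∀ n, V n → Fin 3} (hU : (𝓤 : Filter ℕ) ≤ atTop)
    (hne : ∀ n, Nonempty (V n)) (h : ∀ n, Fat (G n) (p n) n) (g : ℕ) :
    Fat (uG G 𝓤) (uR (𝓤 := 𝓤) p) g := by
  have hge : ∀ k : ℕ, ∀ᶠ n in (𝓤 : Filter ℕ), k ≤ n := fun k => hU (eventually_ge_atTop k)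
  refine ⟨?_, ?_, ?_, ?_⟩
  · intro a b hab
    obtain ⟨n, h1, h2, h3⟩ := (hab.and ((uR_spec p a).and (uR_spec p b))).exists
    have h4 := (h n).parts _ _ h1
    rw [h2, h3] at h4
    exact h4
  · intro w hw
    have h1 : ∀ᶠ n in (𝓤 : Filter ℕ), ∃ u, p n u = 0 ∧ (G n).Adj (rep w n) u :=
      (uR_iff.1 hw).mono fun n h2 => ((h n).uniq _ h2).exists
    have h2 : ∀ n, ∃ u : V n, (∃ u, p n u = 0 ∧ (G n).Adj (rep w n) u) →
        p n u = 0 ∧ (G n).Adj (rep w n) u := by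
      intro n
      by_cases h3 : ∃ u, p n u = 0 ∧ (G n).Adj (rep w n) u
      · obtain ⟨u, hu⟩ := h3
        exact ⟨u, fun _ => hu⟩
      · exact ⟨Classical.choice (hne n), fun h4 => absurd h4 h3⟩
    choose u hu using h2
    have h3 : ∀ᶠ n in (𝓤 : Filter ℕ), p n (u n) = 0 ∧ (G n).Adj (rep w n) (u n) :=
      h1.mono fun n h4 => hu n h4
    refine ⟨cls 𝓤 u, ⟨uR_cls.2 (h3.mono fun _ h => h.1), ?_⟩, ?_⟩
    · rw [← cls_rep w, uG_adj]
      exact h3.mono fun _ h => h.2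
    · rintro v ⟨hv1, hv2⟩
      rw [← cls_rep v, cls_eq]
      refine ((uR_iff.1 hw).and ((uR_iff.1 hv1).and (hv2.and h3))).mono ?_
      rintro n ⟨g1, g2, g3, g4⟩
      exact ((h n).uniq _ g1).unique ⟨g2, g3⟩ g4
  · intro u hu k hk _
    refine noCyc_transfer (Rn := fun n => BlkAdj (G n) (p n) (rep u n)) ?_ (by omega) ?_
    · rintro a b ⟨h1, h2⟩
      rcases h2 with ⟨h2, h3, h4⟩ | ⟨h2, h3, h4⟩
      · refine (h1.and ((uR_iff.1 h2).and ((uR_iff.1 h3).and h4))).mono ?_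
        rintro n ⟨g1, g2, g3, g4⟩
        exact ⟨g1, Or.inl ⟨g2, g3, g4⟩⟩
      · refine (h1.and ((uR_iff.1 h2).and ((uR_iff.1 h3).and h4))).mono ?_
        rintro n ⟨g1, g2, g3, g4⟩
        exact ⟨g1, Or.inr ⟨g2, g3, g4⟩⟩
    · refine ((uR_iff.1 hu).and (hge k)).mono ?_
      rintro n ⟨g1, g2⟩
      exact (h n).blk _ g1 k hk g2
  · intro k hk _
    refine noCyc_transfer (Rn := fun n => PairAdj (G n) (p n)) ?_ (by omega) ?_
    · rintro a b ⟨h1, w, h2, h3, h4⟩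
      have h5 : ∀ᶠ n in (𝓤 : Filter ℕ), (p n (rep a n) = 0 ∧ p n (rep b n) = 2) ∨
          (p n (rep a n) = 2 ∧ p n (rep b n) = 0) := by
        rcases h1 with ⟨h1, h6⟩ | ⟨h1, h6⟩
        · exact ((uR_iff.1 h1).and (uR_iff.1 h6)).mono fun _ h => Or.inl h
        · exact ((uR_iff.1 h1).and (uR_iff.1 h6)).mono fun _ h => Or.inr h
      refine (h5.and ((uR_iff.1 h2).and (h3.and h4))).mono ?_
      rintro n ⟨g1, g2, g3, g4⟩
      exact ⟨g1, rep w n, g2, g3, g4⟩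
    · exact (hge k).mono fun n g2 => (h n).pair k hk g2

/-- Łoś' theorem for first-order formulas. -/
theorem los {m : ℕ} (hne : ∀ n, Nonempty (V n)) (G : ∀ n, SimpleGraph (V n))
    (U : ∀ n, Fin m → Set (V n)) {k : ℕ} (φ : Fml m k) (hφ : φ.IsFO) :
    ∀ s : Fin k → (∀ n, V n),
      (Sat (uG G 𝓤) (fun c => {a : UP V 𝓤 | ∀ᶠ n in (𝓤 : Filter ℕ), rep a n ∈ U n c}) φ
        (fun i => cls 𝓤 (s i)) ↔ ∀ᶠ n in (𝓤 : Filter ℕ), Sat (G n) (U n) φ (fun i => s i n)) := by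
  induction φ with
  | eq i j =>
    intro s
    exact cls_eq
  | adj i j =>
    intro s
    exact uG_adj
  | col c i =>
    intro s
    exact lift_pred (R := fun n x => x ∈ U n c) (s i)
  | neg φ ih =>
    intro s
    simp only [Sat]
    rw [ih hφ s, Ultrafilter.eventually_not]
  | and φ ψ ih1 ih2 =>
    intro s
    simp only [Sat]
    rw [ih1 hφ.1 s, ih2 hφ.2 s, eventually_and]
  | ex φ ih =>
    rename_i k
    intro s
    have e1 : ∀ t : (∀ n, V n), (Fin.snoc (α := fun _ : Fin (k + 1) => UP V 𝓤)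
        (fun i => cls 𝓤 (s i)) (cls 𝓤 t)) =
        fun i => cls 𝓤 (Fin.snoc (α := fun _ : Fin (k + 1) => ∀ n, V n) s t i) := by
      intro t
      funext i
      refine Fin.lastCases ?_ (fun j => ?_) i
      · rw [Fin.snoc_last, Fin.snoc_last]
      · rw [Fin.snoc_castSucc, Fin.snoc_castSucc]
    have e2 : ∀ (t : (∀ n, V n)) (n : ℕ), (fun i => (Fin.snoc (α := fun _ : Fin (k + 1) =>
        ∀ n, V n) s t i) n) = Fin.snoc (α := fun _ : Fin (k + 1) => V n) (fun i => s i n) (t n) := by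
      intro t n
      funext i
      refine Fin.lastCases ?_ (fun j => ?_) i
      · rw [Fin.snoc_last, Fin.snoc_last]
      · rw [Fin.snoc_castSucc, Fin.snoc_castSucc]
    have key : ∀ t : (∀ n, V n), (Sat (uG G 𝓤)
        (fun c => {a : UP V 𝓤 | ∀ᶠ n in (𝓤 : Filter ℕ), rep a n ∈ U n c}) φ
        (Fin.snoc (α := fun _ : Fin (k + 1) => UP V 𝓤) (fun i => cls 𝓤 (s i)) (cls 𝓤 t)) ↔
        ∀ᶠ n in (𝓤 : Filter ℕ), Sat (G n) (U n) φ
          (Fin.snoc (α := fun _ : Fin (k + 1) => V n) (fun i => s i n) (t n))) := by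
      intro t
      rw [e1 t, ih hφ]
      simp only [e2]
    simp only [Sat]
    constructor
    · rintro ⟨x, hx⟩
      rw [← cls_rep x] at hx
      exact ((key _).1 hx).mono fun n hn => ⟨_, hn⟩
    · intro h
      have h2 : ∀ n, ∃ x : V n, (∃ x : V n, Sat (G n) (U n) φ
          (Fin.snoc (α := fun _ : Fin (k + 1) => V n) (fun i => s i n) x)) →
          Sat (G n) (U n) φ (Fin.snoc (α := fun _ : Fin (k + 1) => V n) (fun i => s i n) x) := by
        intro n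
        by_cases h3 : ∃ x : V n, Sat (G n) (U n) φ
            (Fin.snoc (α := fun _ : Fin (k + 1) => V n) (fun i => s i n) x)
        · obtain ⟨x, hx⟩ := h3
          exact ⟨x, fun _ => hx⟩
        · exact ⟨Classical.choice (hne n), fun h4 => absurd h4 h3⟩
      choose t ht using h2
      exact ⟨cls 𝓤 t, (key t).2 (h.mono fun n hn => ht n hn)⟩
  | exmod a b h φ _ => exact hφ.elim

end

theorem ultraStmt : UltraStmt := by
  intro m V hne G p U h
  have hU : ((hyperfilter ℕ : Ultrafilter ℕ) : Filter ℕ) ≤ atTop := by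
    have h1 := hyperfilter_le_cofinite (α := ℕ)
    rwa [Nat.cofinite_eq_atTop] at h1
  exact ⟨UP V (hyperfilter ℕ), uG G _, uR p, _, cls _, hyperfilter ℕ,
    fun g => uFat hU hne h g, fun s t => cls_eq, fun k φ hφ s => los hne G U φ hφ s⟩

end Pool.Agent.NH88.FM
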